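import Pool.Agent.H933R2.Hopf.Defs

/-! # Task A: a finite quadrature on `S⁵` exact for sextic forms -/

open scoped BigOperators

namespace Hopf6

namespace DesignA

/-- Kronecker delta in `ℕ` -/
def dl (a b : Fin 6) : ℕ := if a = b then 1 else 0

/-- moments of the standard Gaussian -/
def mo : ℕ → ℕ
  | 0 => 1
  | 1 => 0
  | 2 => 1
  | 3 => 0
  | 4 => 3
  | 5 => 0
  | 6 => 15
  | _ => 0

/-- number of the six indices equal to `t` -/
def cnt (a b c d e f t : Fin 6) : ℕ := dl a t + dl b t + dl c t + dl d t + dl e t + dl f t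

theorem isserlis : ∀ a b c d e f : Fin 6,
    mo (cnt a b c d e f 0) * mo (cnt a b c d e f 1) * mo (cnt a b c d e f 2) *
      mo (cnt a b c d e f 3) * mo (cnt a b c d e f 4) * mo (cnt a b c d e f 5)
    = dl a b * dl c d * dl e f + dl a b * dl c e * dl d f + dl a b * dl c f * dl d e
      + dl a c * dl b d * dl e f + dl a c * dl b e * dl d f + dl a c * dl b f * dl d e
      + dl a d * dl b c * dl e f + dl a d * dl b e * dl c f + dl a d * dl b f * dl c e
      + dl a e * dl b c * dl d f + dl a e * dl b d * dl c f + dl a e * dl b f * dl c d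
      + dl a f * dl b c * dl d e + dl a f * dl b d * dl c e + dl a f * dl b e * dl c d := by
  decide +kernel

/-- values of the one-dimensional design -/
def vv : Fin 7 → ℝ := ![-3, -2, -1, 0, 1, 2, 3]

/-- weights of the one-dimensional design -/
noncomputable def pp : Fin 7 → ℝ :=
  ![1 / 180, 9 / 180, 45 / 180, 70 / 180, 45 / 180, 9 / 180, 1 / 180]

theorem pp_nonneg (t : Fin 7) : 0 ≤ pp t := by
  fin_cases t <;> simp [pp] <;> norm_num

theorem moment (n : ℕ) (hn : n ≤ 6) : ∑ t, pp t * vv t ^ n = (mo n : ℝ) := by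
  interval_cases n <;> simp [Fin.sum_univ_succ, pp, vv, mo] <;> norm_num

/-- the index type -/
abbrev Ix := Fin 6 → Fin 7

/-- the (unnormalised) point -/
noncomputable def yy (g : Ix) (a : Fin 6) : ℝ := vv (g a)

/-- squared norm -/
noncomputable def NN (g : Ix) : ℝ := ∑ a, yy g a ^ 2

/-- product weight -/
noncomputable def PP (g : Ix) : ℝ := ∏ a, pp (g a)

theorem NN_nonneg (g : Ix) : 0 ≤ NN g := Finset.sum_nonneg fun _ _ => sq_nonneg _

theorem expect (i : Fin 6 → Fin 6) :
    ∑ g : Ix, PP g * ∏ k, yy g (i k)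
      = ∏ t, ((mo (Finset.univ.filter fun k => i k = t).card : ℕ) : ℝ) := by
  have h1 : ∀ g : Ix, PP g * ∏ k, yy g (i k)
      = ∏ t, (pp (g t) * vv (g t) ^ (Finset.univ.filter fun k => i k = t).card) := by
    intro g
    rw [Finset.prod_mul_distrib]
    unfold PP yy
    congr 1
    rw [← Finset.prod_fiberwise (s := Finset.univ) (g := i) (f := fun k => vv (g (i k)))]
    refine Finset.prod_congr rfl fun t _ => ?_
    rw [Finset.prod_congr rfl (g := fun _ => vv (g t)), Finset.prod_const]
    intro k hk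
    rw [(Finset.mem_filter.mp hk).2]
  rw [Finset.sum_congr rfl fun g _ => h1 g]
  have h2 := Finset.prod_univ_sum (fun _ : Fin 6 => (Finset.univ : Finset (Fin 7)))
    (fun t s => pp s * vv s ^ (Finset.univ.filter fun k => i k = t).card)
  rw [Fintype.piFinset_univ] at h2
  rw [← h2]
  refine Finset.prod_congr rfl fun t _ => ?_
  rw [moment]
  exact (Finset.card_filter_le _ _).trans (by simp)

theorem expect6 (a b c d e f : Fin 6) :
    ∑ g : Ix, PP g * (yy g a * yy g b * (yy g c * yy g d) * (yy g e * yy g f))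
      = (dl a b : ℝ) * dl c d * dl e f + dl a b * dl c e * dl d f + dl a b * dl c f * dl d e
      + dl a c * dl b d * dl e f + dl a c * dl b e * dl d f + dl a c * dl b f * dl d e
      + dl a d * dl b c * dl e f + dl a d * dl b e * dl c f + dl a d * dl b f * dl c e
      + dl a e * dl b c * dl d f + dl a e * dl b d * dl c f + dl a e * dl b f * dl c d
      + dl a f * dl b c * dl d e + dl a f * dl b d * dl c e + dl a f * dl b e * dl c d := by
  have h1 := expect ![a, b, c, d, e, f]
  have h2 : ∀ g : Ix, ∏ k, yy g ((![a, b, c, d, e, f] : Fin 6 → Fin 6) k)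
      = yy g a * yy g b * (yy g c * yy g d) * (yy g e * yy g f) := by
    intro g
    rw [Fin.prod_univ_six]
    simp
    ring
  have h3 : ∀ t : Fin 6, (Finset.univ.filter fun k => (![a, b, c, d, e, f] : Fin 6 → Fin 6) k = t).card
      = cnt a b c d e f t := by
    intro t
    rw [Finset.card_filter, Fin.sum_univ_six]
    rfl
  simp only [h2, h3] at h1
  rw [h1, Fin.prod_univ_six]
  exact_mod_cast isserlis a b c d e f

/-- the weights -/
noncomputable def ww (g : Ix) : ℝ := PP g * NN g ^ 3 / 480

/-- the points -/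
noncomputable def XX (g : Ix) (a : Fin 6) : ℝ :=
  if NN g = 0 then (if a = 0 then 1 else 0) else yy g a / Real.sqrt (NN g)

theorem unit_XX (g : Ix) : ∑ a, XX g a ^ 2 = 1 := by
  unfold XX
  by_cases h : NN g = 0
  · simp [h]
  · simp only [if_neg h, div_pow, Real.sq_sqrt (NN_nonneg g)]
    rw [← Finset.sum_div]
    exact div_self h

theorem ww_XX (g : Ix) (a b c d e f : Fin 6) :
    ww g * (XX g a * XX g b * (XX g c * XX g d) * (XX g e * XX g f))
      = (1 / 480) * (PP g * (yy g a * yy g b * (yy g c * yy g d) * (yy g e * yy g f))) := by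
  unfold ww XX
  by_cases h : NN g = 0
  · have h0 : yy g a = 0 := by
      have h1 := (Finset.sum_eq_zero_iff_of_nonneg (fun _ _ => sq_nonneg _)).mp h a
        (Finset.mem_univ a)
      exact pow_eq_zero_iff (two_ne_zero) |>.mp h1
    rw [h, h0]
    simp
  · simp only [if_neg h]
    have hs : Real.sqrt (NN g) ≠ 0 := by
      rw [Real.sqrt_ne_zero (NN_nonneg g)]
      exact h
    have h3 : NN g ^ 3 = Real.sqrt (NN g) ^ 6 := by
      rw [show (6 : ℕ) = 2 * 3 from rfl, pow_mul, Real.sq_sqrt (NN_nonneg g)]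
    rw [h3]
    field_simp

end DesignA

open DesignA in
theorem exists_design : ∃ (ι : Type) (_ : Fintype ι), Nonempty (Design ι) := by
  refine ⟨Ix, inferInstance, ⟨⟨ww, XX, ?_, unit_XX, ?_⟩⟩⟩
  · intro g
    unfold ww PP
    have h1 := NN_nonneg g
    have h2 : 0 ≤ ∏ a, pp (g a) := Finset.prod_nonneg fun _ _ => pp_nonneg _
    positivity
  · intro a b c d e f
    rw [Finset.sum_congr rfl fun g _ => ww_XX g a b c d e f, ← Finset.mul_sum, expect6]
    simp only [dl, Nat.cast_ite, Nat.cast_one, Nat.cast_zero]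

end Hopf6

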