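import Pool.Agent.H933R2.Hopf.NetVal

/-!
# Averages of products of quadratic forms
-/

open scoped BigOperators

namespace Hopf6
namespace Design
variable {ι : Type} [Fintype ι] (D : Design ι)

/-- Kronecker delta -/
def dl (a b : Fin 6) : ℝ := if a = b then 1 else 0

theorem six' (a b c d e f : Fin 6) :
    ∑ i, D.w i * (D.X i a * D.X i b * (D.X i c * D.X i d) * (D.X i e * D.X i f)) =
      (1 / 480 : ℝ) * (
        dl a b * dl c d * dl e f + dl a b * dl c e * dl d f + dl a b * dl c f * dl d e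
      + dl a c * dl b d * dl e f + dl a c * dl b e * dl d f + dl a c * dl b f * dl d e
      + dl a d * dl b c * dl e f + dl a d * dl b e * dl c f + dl a d * dl b f * dl c e
      + dl a e * dl b c * dl d f + dl a e * dl b d * dl c f + dl a e * dl b f * dl c d
      + dl a f * dl b c * dl d e + dl a f * dl b d * dl c e + dl a f * dl b e * dl c d) :=
  D.six a b c d e f

theorem s1 (X : ℝ) : ∑ e : Fin 6, X * dl e e = 6 * X := by
  simp [dl]

theorem s2 (X : ℝ) (c d : Fin 6) : ∑ e : Fin 6, X * dl c e * dl d e = X * dl c d := by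
  simp [dl]

theorem s3 (X : ℝ) (a d : Fin 6) : ∑ e : Fin 6, dl a e * X * dl d e = X * dl a d := by
  simp [dl]

theorem s4 (X : ℝ) (a b : Fin 6) : ∑ e : Fin 6, dl a e * dl b e * X = X * dl a b := by
  simp [dl]

theorem four (a b c d : Fin 6) :
    ∑ i, D.w i * (D.X i a * D.X i b * (D.X i c * D.X i d)) =
      (1 / 48 : ℝ) * (dl a b * dl c d + dl a c * dl b d + dl a d * dl b c) := by
  have h : ∑ i, D.w i * (D.X i a * D.X i b * (D.X i c * D.X i d)) =
      ∑ e, ∑ i, D.w i * (D.X i a * D.X i b * (D.X i c * D.X i d) * (D.X i e * D.X i e)) := by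
    rw [Finset.sum_comm]
    refine Finset.sum_congr rfl fun i _ => ?_
    rw [← Finset.mul_sum, ← Finset.mul_sum]
    have := D.unit i
    simp only [pow_two] at this
    rw [this, mul_one]
  rw [h]
  simp only [six']
  rw [← Finset.mul_sum]
  simp only [Finset.sum_add_distrib, s1, s2, s3, s4]
  ring

theorem two (a b : Fin 6) :
    ∑ i, D.w i * (D.X i a * D.X i b) = (1 / 6 : ℝ) * dl a b := by
  have h : ∑ i, D.w i * (D.X i a * D.X i b) =
      ∑ e, ∑ i, D.w i * (D.X i a * D.X i b * (D.X i e * D.X i e)) := by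
    rw [Finset.sum_comm]
    refine Finset.sum_congr rfl fun i _ => ?_
    rw [← Finset.mul_sum, ← Finset.mul_sum]
    have := D.unit i
    simp only [pow_two] at this
    rw [this, mul_one]
  have s5 : ∑ e : Fin 6, dl a e * dl b e = dl a b := by simp [dl]
  rw [h]
  simp only [four]
  rw [← Finset.mul_sum]
  simp only [Finset.sum_add_distrib, s1, s5]
  ring

theorem zero' : ∑ i, D.w i = 1 := by
  have h : ∑ i, D.w i = ∑ e, ∑ i, D.w i * (D.X i e * D.X i e) := by
    rw [Finset.sum_comm]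
    refine Finset.sum_congr rfl fun i _ => ?_
    rw [← Finset.mul_sum]
    have := D.unit i
    simp only [pow_two] at this
    rw [this, mul_one]
  rw [h]
  simp only [two]
  simp [dl]

theorem pull (A : Fin 6 → Fin 6 → ℝ) (G : ι → ℝ) :
    ∑ i, D.w i * ((∑ p, ∑ q, A p q * (D.X i p * D.X i q)) * G i) =
      ∑ p, ∑ q, A p q * ∑ i, D.w i * (D.X i p * D.X i q * G i) := by
  simp only [Finset.sum_mul, Finset.mul_sum]
  rw [Finset.sum_comm]
  refine Finset.sum_congr rfl fun p _ => ?_
  rw [Finset.sum_comm]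
  refine Finset.sum_congr rfl fun q _ => ?_
  refine Finset.sum_congr rfl fun i _ => ?_
  ring

/-- quadratic form -/
def qf (A : Fin 6 → Fin 6 → ℝ) (x : Fin 6 → ℝ) : ℝ := ∑ p, ∑ q, A p q * (x p * x q)

theorem sdl1 (F : Fin 6 → ℝ) (a : Fin 6) : ∑ b, F b * dl a b = F a := by simp [dl]
theorem sdl2 (F : Fin 6 → ℝ) (a : Fin 6) : ∑ b, F b * dl b a = F a := by simp [dl]

theorem quad1 (A : Fin 6 → Fin 6 → ℝ) : D.av (qf A) = (1 / 6) * ∑ p, A p p := by
  have h := D.pull A (fun _ => 1)
  simp only [mul_one, two] at h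
  unfold av qf
  rw [h]
  have : ∀ p, ∑ q, A p q * (1 / 6 * dl p q) = 1 / 6 * A p p := by
    intro p
    simp [dl]
    ring
  simp only [this]
  rw [Finset.mul_sum]

theorem quad2 (A B : Fin 6 → Fin 6 → ℝ) : D.av (fun x => qf A x * qf B x) =
    (1 / 48) * (∑ p, ∑ q, A p p * B q q + ∑ p, ∑ q, A p q * B p q + ∑ p, ∑ q, A p q * B q p) := by
  have h := D.pull A (fun i => qf B (D.X i))
  have h2 : ∀ p q, ∑ i, D.w i * (D.X i p * D.X i q * qf B (D.X i)) =
      (1 / 48) * (dl p q * (∑ r, B r r) + B p q + B q p) := by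
    intro p q
    have h3 := D.pull B (fun i => D.X i p * D.X i q)
    simp only [four] at h3
    have h4 : ∀ i, D.X i p * D.X i q * qf B (D.X i) =
      (∑ p, ∑ q, B p q * (D.X i p * D.X i q)) * (D.X i p * D.X i q) := by
      intro i
      unfold qf
      ring
    simp only [h4, h3]
    have e : ∀ a b, B a b * (1 / 48 * (dl a b * dl p q + dl a p * dl b q + dl a q * dl b p)) =
      1 / 48 * (dl p q * (B a b * dl a b) + (B a b * dl a p * dl b q) + (B a b * dl a q * dl b p)) := by
      intro a b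
      ring
    simp only [e, ← Finset.mul_sum, Finset.sum_add_distrib, sdl1, sdl2]
  unfold av
  simp only [qf] at h ⊢
  rw [h]
  simp only [qf] at h2
  simp only [h2]
  have e : ∀ a b, A a b * (1 / 48 * (dl a b * (∑ r, B r r) + B a b + B b a)) =
      1 / 48 * ((A a b * dl a b) * (∑ r, B r r) + (A a b * B a b) + (A a b * B b a)) := by
    intro a b
    ring
  simp only [e, ← Finset.mul_sum, Finset.sum_add_distrib, ← Finset.sum_mul, sdl1]

theorem sdl3 (F : Fin 6 → ℝ) (a : Fin 6) (X : ℝ) : ∑ b, F b * dl a b * X = F a * X := by simp [dl]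

theorem inner (C : Fin 6 → Fin 6 → ℝ) (a b c d : Fin 6) :
    ∑ i, D.w i * (D.X i a * D.X i b * (D.X i c * D.X i d) * qf C (D.X i)) =
    (1 / 480) * (dl a b * dl c d * (∑ r, C r r) + dl a b * C c d + dl a b * C d c
      + dl a c * dl b d * (∑ r, C r r) + dl a c * C b d + dl a c * C d b
      + dl a d * dl b c * (∑ r, C r r) + dl a d * C b c + dl a d * C c b
      + dl b c * C a d + dl b d * C a c + dl c d * C a b + dl b c * C d a + dl b d * C c a
      + dl c d * C b a) := by
  have h3 := D.pull C (fun i => D.X i a * D.X i b * (D.X i c * D.X i d))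
  have h4 : ∀ i, D.X i a * D.X i b * (D.X i c * D.X i d) * qf C (D.X i) =
      (∑ p, ∑ q, C p q * (D.X i p * D.X i q)) * (D.X i a * D.X i b * (D.X i c * D.X i d)) := by
    intro i
    unfold qf
    ring
  have h5 : ∀ e f i, D.X i e * D.X i f * (D.X i a * D.X i b * (D.X i c * D.X i d)) =
      D.X i a * D.X i b * (D.X i c * D.X i d) * (D.X i e * D.X i f) := by
    intro e f i
    ring
  simp only [h4, h3, h5, six']
  have e : ∀ e f, C e f * (1 / 480 * (
        dl a b * dl c d * dl e f + dl a b * dl c e * dl d f + dl a b * dl c f * dl d e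
      + dl a c * dl b d * dl e f + dl a c * dl b e * dl d f + dl a c * dl b f * dl d e
      + dl a d * dl b c * dl e f + dl a d * dl b e * dl c f + dl a d * dl b f * dl c e
      + dl a e * dl b c * dl d f + dl a e * dl b d * dl c f + dl a e * dl b f * dl c d
      + dl a f * dl b c * dl d e + dl a f * dl b d * dl c e + dl a f * dl b e * dl c d)) =
      1 / 480 * (
      dl a b * dl c d * (C e f * dl e f) + dl a b * (C e f * dl c e * dl d f)
      + dl a b * (C e f * dl d e * dl c f)
      + dl a c * dl b d * (C e f * dl e f) + dl a c * (C e f * dl b e * dl d f)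
      + dl a c * (C e f * dl d e * dl b f)
      + dl a d * dl b c * (C e f * dl e f) + dl a d * (C e f * dl b e * dl c f)
      + dl a d * (C e f * dl c e * dl b f)
      + dl b c * (C e f * dl a e * dl d f) + dl b d * (C e f * dl a e * dl c f)
      + dl c d * (C e f * dl a e * dl b f)
      + dl b c * (C e f * dl d e * dl a f) + dl b d * (C e f * dl c e * dl a f)
      + dl c d * (C e f * dl b e * dl a f)) := by
    intro e f
    ring
  simp only [e, ← Finset.mul_sum, Finset.sum_add_distrib, sdl1]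

theorem quad3 (A B C : Fin 6 → Fin 6 → ℝ) : D.av (fun x => qf A x * qf B x * qf C x) =
    (1 / 480) * (∑ p, ∑ q, ∑ r, A p p * B q q * C r r + ∑ p, ∑ q, ∑ r, A p p * B q r * C q r
      + ∑ p, ∑ q, ∑ r, A p p * B q r * C r q + ∑ p, ∑ q, ∑ r, A p q * B p q * C r r
      + ∑ p, ∑ q, ∑ r, A p q * B p r * C q r + ∑ p, ∑ q, ∑ r, A p q * B p r * C r q
      + ∑ p, ∑ q, ∑ r, A p q * B q p * C r r + ∑ p, ∑ q, ∑ r, A p q * B r p * C q r
      + ∑ p, ∑ q, ∑ r, A p q * B r p * C r q + ∑ p, ∑ q, ∑ r, A p q * B q r * C p r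
      + ∑ p, ∑ q, ∑ r, A p q * B r q * C p r + ∑ p, ∑ q, ∑ r, A p q * B r r * C p q
      + ∑ p, ∑ q, ∑ r, A p q * B q r * C r p + ∑ p, ∑ q, ∑ r, A p q * B r q * C r p
      + ∑ p, ∑ q, ∑ r, A p q * B r r * C q p) := by
  have h := D.pull A (fun i => qf B (D.X i) * qf C (D.X i))
  have h2 : ∀ a b, ∑ i, D.w i * (D.X i a * D.X i b * (qf B (D.X i) * qf C (D.X i))) =
      (1 / 480) * (dl a b * ((∑ q, ∑ r, B q q * C r r) + (∑ q, ∑ r, B q r * C q r)
        + ∑ q, ∑ r, B q r * C r q)
        + (B a b * (∑ r, C r r) + ∑ r, B a r * C b r + ∑ r, B a r * C r b)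
        + (B b a * (∑ r, C r r) + ∑ r, B r a * C b r + ∑ r, B r a * C r b)
        + (∑ r, B b r * C a r + ∑ r, B r b * C a r + ∑ r, B r r * C a b)
        + (∑ r, B b r * C r a + ∑ r, B r b * C r a + ∑ r, B r r * C b a)) := by
    intro a b
    have h3 := D.pull B (fun i => D.X i a * D.X i b * qf C (D.X i))
    have h4 : ∀ i, D.X i a * D.X i b * (qf B (D.X i) * qf C (D.X i)) =
      (∑ p, ∑ q, B p q * (D.X i p * D.X i q)) * (D.X i a * D.X i b * qf C (D.X i)) := by
      intro i
      simp only [qf]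
      ring
    have h5 : ∀ c d i, D.X i c * D.X i d * (D.X i a * D.X i b * qf C (D.X i)) =
      D.X i a * D.X i b * (D.X i c * D.X i d) * qf C (D.X i) := by
      intro e f i
      ring
    simp only [h4, h3, h5, inner]
    have e : ∀ c d, B c d * (1 / 480 * (dl a b * dl c d * (∑ r, C r r) + dl a b * C c d
      + dl a b * C d c
      + dl a c * dl b d * (∑ r, C r r) + dl a c * C b d + dl a c * C d b
      + dl a d * dl b c * (∑ r, C r r) + dl a d * C b c + dl a d * C c b
      + dl b c * C a d + dl b d * C a c + dl c d * C a b + dl b c * C d a + dl b d * C c a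
      + dl c d * C b a)) = 1 / 480 * (
        dl a b * ((B c d * dl c d) * (∑ r, C r r)) + dl a b * (B c d * C c d)
      + dl a b * (B c d * C d c)
      + (B c d * dl b d) * dl a c * (∑ r, C r r) + (B c d * C b d) * dl a c
      + (B c d * C d b) * dl a c
      + (B c d * dl a d) * dl b c * (∑ r, C r r) + (B c d * C b c) * dl a d
      + (B c d * C c b) * dl a d
      + (B c d * C a d) * dl b c + (B c d * C a c) * dl b d + (B c d * dl c d) * C a b
      + (B c d * C d a) * dl b c + (B c d * C c a) * dl b d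
      + (B c d * dl c d) * C b a) := by
      intro c d
      ring
    simp only [e, ← Finset.mul_sum, Finset.sum_add_distrib, sdl1, ← Finset.sum_mul]
    ring
  have h0 : ∀ i, qf A (D.X i) * qf B (D.X i) * qf C (D.X i) =
      (∑ p, ∑ q, A p q * (D.X i p * D.X i q)) * (qf B (D.X i) * qf C (D.X i)) := by
    intro i
    rw [mul_assoc]
    rfl
  unfold av
  simp only [h0]
  rw [h]
  simp only [h2]
  have e : ∀ a b, A a b * ((1 / 480) * (dl a b * ((∑ q, ∑ r, B q q * C r r)
        + (∑ q, ∑ r, B q r * C q r) + ∑ q, ∑ r, B q r * C r q)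
        + (B a b * (∑ r, C r r) + ∑ r, B a r * C b r + ∑ r, B a r * C r b)
        + (B b a * (∑ r, C r r) + ∑ r, B r a * C b r + ∑ r, B r a * C r b)
        + (∑ r, B b r * C a r + ∑ r, B r b * C a r + ∑ r, B r r * C a b)
        + (∑ r, B b r * C r a + ∑ r, B r b * C r a + ∑ r, B r r * C b a))) =
      1 / 480 * ((A a b * (∑ q, ∑ r, B q q * C r r)) * dl a b
      + (A a b * (∑ q, ∑ r, B q r * C q r)) * dl a b
      + (A a b * (∑ q, ∑ r, B q r * C r q)) * dl a b
      + A a b * B a b * (∑ r, C r r) + A a b * (∑ r, B a r * C b r)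
      + A a b * (∑ r, B a r * C r b)
      + A a b * B b a * (∑ r, C r r) + A a b * (∑ r, B r a * C b r)
      + A a b * (∑ r, B r a * C r b)
      + A a b * (∑ r, B b r * C a r) + A a b * (∑ r, B r b * C a r)
      + A a b * (∑ r, B r r * C a b)
      + A a b * (∑ r, B b r * C r a) + A a b * (∑ r, B r b * C r a)
      + A a b * (∑ r, B r r * C b a)) := by
    intro a b
    ring
  simp only [e]
  simp only [← Finset.mul_sum, Finset.sum_add_distrib, sdl1]
  simp only [Finset.mul_sum, mul_assoc]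

theorem av_sum (φ : Fin 6 → (Fin 6 → ℝ) → ℝ) :
    D.av (fun x => ∑ a, φ a x) = ∑ a, D.av (φ a) := by
  unfold av
  simp only [Finset.mul_sum]
  rw [Finset.sum_comm]

theorem av_mul (φ : (Fin 6 → ℝ) → ℝ) (Y : ℝ) : D.av (fun x => φ x * Y) = D.av φ * Y := by
  unfold av
  rw [Finset.sum_mul]
  refine Finset.sum_congr rfl fun i _ => ?_
  ring

theorem quad1Y (A : Fin 6 → Fin 6 → ℝ) (Y : ℝ) :
    D.av (fun x => qf A x * Y) = (1 / 6) * ∑ p, A p p * Y := by
  rw [av_mul]
  have := D.quad1 A
  rw [show D.av (fun x => qf A x) = D.av (qf A) from rfl, this, mul_assoc, Finset.sum_mul]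

theorem quad2Y (A B : Fin 6 → Fin 6 → ℝ) (Y : ℝ) : D.av (fun x => qf A x * qf B x * Y) =
    (1 / 48) * (∑ p, ∑ q, A p p * B q q * Y + ∑ p, ∑ q, A p q * B p q * Y
      + ∑ p, ∑ q, A p q * B q p * Y) := by
  rw [av_mul, quad2]
  simp only [← Finset.sum_mul]
  ring

theorem c480 (F : Fin 6 → ℝ) : ∑ a, (1 / 480) * F a = (1 / 480) * ∑ a, F a := by
  rw [Finset.mul_sum]
theorem c48 (F : Fin 6 → ℝ) : ∑ a, (1 / 48) * F a = (1 / 48) * ∑ a, F a := by
  rw [Finset.mul_sum]
theorem c6 (F : Fin 6 → ℝ) : ∑ a, (1 / 6) * F a = (1 / 6) * ∑ a, F a := by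
  rw [Finset.mul_sum]

theorem uu_qf (R : Ten) (x : Fin 6 → ℝ) (a b : Fin 6) :
    ux R x a * ux R x b = qf (fun p q => Rc R a p * Rc R b q) x := by
  unfold ux qf
  rw [Finset.sum_mul_sum]
  refine Finset.sum_congr rfl fun p _ => Finset.sum_congr rfl fun q _ => ?_
  ring

end Design
end Hopf6
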