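import Pool.Agent.H933R2.Hopf.Defs

/-! # Task B1: an inequality for Weyl tensors on `x^⊥` (helper829) -/

set_option autoImplicit false

open scoped BigOperators

namespace Hopf6

namespace B1

lemma sum_cyc (f : Fin 6 → Fin 6 → Fin 6 → ℝ) :
    ∑ a, ∑ b, ∑ c, f b c a = ∑ a, ∑ b, ∑ c, f a b c := by
  rw [Finset.sum_comm]
  refine Finset.sum_congr rfl fun b _ => ?_
  rw [Finset.sum_comm]

lemma sum_cyc' (f : Fin 6 → Fin 6 → Fin 6 → ℝ) :
    ∑ a, ∑ b, ∑ c, f c a b = ∑ a, ∑ b, ∑ c, f a b c := by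
  rw [← sum_cyc f, ← sum_cyc (fun a b c => f b c a)]

/-- move the outermost of four sums inside -/
lemma mv1 (f : Fin 6 → Fin 6 → Fin 6 → Fin 6 → ℝ) :
    ∑ b, ∑ c, ∑ d, ∑ e, f b c d e = ∑ c, ∑ d, ∑ e, ∑ b, f b c d e := by
  rw [Finset.sum_comm]
  refine Finset.sum_congr rfl fun c _ => ?_
  rw [Finset.sum_comm]
  refine Finset.sum_congr rfl fun d _ => ?_
  rw [Finset.sum_comm]

lemma mv2 (f : Fin 6 → Fin 6 → Fin 6 → Fin 6 → ℝ) :
    ∑ b, ∑ c, ∑ d, ∑ e, f b c d e = ∑ b, ∑ d, ∑ e, ∑ c, f b c d e := by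
  refine Finset.sum_congr rfl fun b _ => ?_
  rw [Finset.sum_comm]
  refine Finset.sum_congr rfl fun c _ => ?_
  rw [Finset.sum_comm]

lemma mv3 (f : Fin 6 → Fin 6 → Fin 6 → Fin 6 → ℝ) :
    ∑ b, ∑ c, ∑ d, ∑ e, f b c d e = ∑ b, ∑ c, ∑ e, ∑ d, f b c d e := by
  refine Finset.sum_congr rfl fun b _ => Finset.sum_congr rfl fun c _ => ?_
  rw [Finset.sum_comm]

lemma mv0 (f : Fin 6 → Fin 6 → Fin 6 → Fin 6 → Fin 6 → ℝ) :
    ∑ a, ∑ b, ∑ c, ∑ d, ∑ e, f a b c d e = ∑ b, ∑ c, ∑ d, ∑ e, ∑ a, f a b c d e := by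
  rw [Finset.sum_comm]
  refine Finset.sum_congr rfl fun b _ => ?_
  exact mv1 fun a c d e => f a b c d e

lemma mvG (f : Fin 6 → Fin 6 → Fin 6 → Fin 6 → Fin 6 → ℝ) :
    ∑ a, ∑ b, ∑ c, ∑ d, ∑ e, f a b c d e = ∑ b, ∑ c, ∑ e, ∑ a, ∑ d, f a b c d e := by
  rw [Finset.sum_comm]
  refine Finset.sum_congr rfl fun b _ => ?_
  rw [Finset.sum_comm]
  refine Finset.sum_congr rfl fun c _ => ?_
  exact (sum_cyc fun a d e => f a b c d e).symm

variable {W : Ten} {x : Fin 6 → ℝ}

lemma pr_sum (i : Fin 6) (f : Fin 6 → ℝ) (hf : ∑ a, x a * f a = 0) :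
    ∑ a, pr x i a * f a = f i := by
  have h1 : ∀ a, pr x i a * f a = (if i = a then f a else 0) - x i * (x a * f a) := by
    intro a
    unfold pr
    split_ifs <;> ring
  simp only [h1, Finset.sum_sub_distrib, ← Finset.mul_sum, hf, mul_zero, sub_zero]
  simp

lemma pr_symm (a b : Fin 6) : pr x a b = pr x b a := by
  unfold pr
  by_cases h : a = b
  · subst h; rfl
  · rw [if_neg h, if_neg (fun h' => h h'.symm)]
    ring

lemma pr_sum' (i : Fin 6) (f : Fin 6 → ℝ) (hf : ∑ a, x a * f a = 0) :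
    ∑ a, pr x a i * f a = f i := by
  rw [← pr_sum i f hf]
  exact Finset.sum_congr rfl fun a _ => by rw [pr_symm]

lemma x_pr (hx : ∑ a, x a ^ 2 = 1) (i : Fin 6) : ∑ a, x a * pr x i a = 0 := by
  have h1 : ∀ a, x a * pr x i a = (if i = a then x a else 0) - x i * x a ^ 2 := by
    intro a
    unfold pr
    split_ifs <;> ring
  simp only [h1, Finset.sum_sub_distrib, ← Finset.mul_sum, hx, mul_one]
  simp

lemma x_pr' (hx : ∑ a, x a ^ 2 = 1) (i : Fin 6) : ∑ a, x a * pr x a i = 0 := by
  rw [← x_pr hx i]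
  exact Finset.sum_congr rfl fun a _ => by rw [pr_symm]

lemma tr_pr (hx : ∑ a, x a ^ 2 = 1) : ∑ a, pr x a a = 5 := by
  have h1 : ∀ a, pr x a a = 1 - x a ^ 2 := by
    intro a
    unfold pr
    rw [if_pos rfl]
    ring
  simp only [h1, Finset.sum_sub_distrib, hx]
  norm_num

section curv
variable (hW : IsCurv W) (hWx : ∀ b c d, ∑ a, x a * W a b c d = 0)
  (htr : ∀ b d, ∑ a, W a b a d = 0)
include hW

lemma anti2 (a b c d : Fin 6) : W a b d c = - W a b c d := by
  rw [← hW.pair a b d c, hW.anti, hW.pair]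

include hWx

lemma kx2 (a c d : Fin 6) : ∑ b, x b * W a b c d = 0 := by
  have h : ∀ b, x b * W a b c d = -(x b * W b a c d) := by
    intro b
    rw [hW.anti b a c d]
    ring
  simp only [h, Finset.sum_neg_distrib, hWx, neg_zero]

lemma kx3 (a b d : Fin 6) : ∑ c, x c * W a b c d = 0 := by
  have h : ∀ c, x c * W a b c d = x c * W c d a b := by
    intro c
    rw [hW.pair]
  simp only [h, hWx]

lemma kx4 (a b c : Fin 6) : ∑ d, x d * W a b c d = 0 := by
  have h : ∀ d, x d * W a b c d = -(x d * W d c a b) := by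
    intro d
    rw [hW.pair a b d c, anti2 hW a b c d]
    ring
  simp only [h, Finset.sum_neg_distrib, hWx, neg_zero]

omit hWx
include htr

/-- contraction of slots 2 and 3 -/
lemma tr23 (a d : Fin 6) : ∑ b, W a b b d = 0 := by
  have h : ∀ b, W a b b d = -(W b a b d) := by
    intro b
    rw [hW.anti b a b d]
  simp only [h, Finset.sum_neg_distrib, htr, neg_zero]

/-- contraction of slots 2 and 4 -/
lemma tr24 (a c : Fin 6) : ∑ b, W a b c b = 0 := by
  have h : ∀ b, W a b c b = -(W a b b c) := by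
    intro b
    rw [anti2 hW a b b c]
  simp only [h, Finset.sum_neg_distrib, tr23 hW htr, neg_zero]

/-- contraction of slots 1 and 4 -/
lemma tr14 (b c : Fin 6) : ∑ a, W a b c a = 0 := by
  have h : ∀ a, W a b c a = -(W a b a c) := by
    intro a
    rw [anti2 hW a b a c]
  simp only [h, Finset.sum_neg_distrib, htr, neg_zero]

end curv

/-- the auxiliary tensor -/
noncomputable def p (W : Ten) (x : Fin 6 → ℝ) (i a b c d e : Fin 6) : ℝ :=
  (pr x i a * W b c d e + pr x i b * W c a d e + pr x i c * W a b d e) -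
    1 / 2 * ((pr x a d * W b c i e - pr x a e * W b c i d) +
      (pr x b d * W c a i e - pr x b e * W c a i d) +
      (pr x c d * W a b i e - pr x c e * W a b i d))

lemma p_cyc (i a b c d e : Fin 6) : p W x i b c a d e = p W x i a b c d e := by
  unfold p
  ring

lemma p_cyc' (i a b c d e : Fin 6) : p W x i c a b d e = p W x i a b c d e := by
  unfold p
  ring

lemma p_anti (hW : IsCurv W) (i a b c d e : Fin 6) :
    p W x i a b c e d = - p W x i a b c d e := by
  unfold p
  rw [anti2 hW b c d e, anti2 hW c a d e, anti2 hW a b d e]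
  ring

lemma p_kx (hW : IsCurv W) (hx : ∑ a, x a ^ 2 = 1) (hWx : ∀ b c d, ∑ a, x a * W a b c d = 0)
    (i b c d e : Fin 6) : ∑ a, x a * p W x i a b c d e = 0 := by
  have h : ∀ a, x a * p W x i a b c d e =
      (W b c d e * (x a * pr x i a) + pr x i b * (x a * W c a d e) +
        pr x i c * (x a * W a b d e)) -
      1 / 2 * ((W b c i e * (x a * pr x a d) - W b c i d * (x a * pr x a e)) +
      (pr x b d * (x a * W c a i e) - pr x b e * (x a * W c a i d)) +
      (pr x c d * (x a * W a b i e) - pr x c e * (x a * W a b i d))) := by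
    intro a
    unfold p
    ring
  simp only [h, Finset.sum_sub_distrib, Finset.sum_add_distrib, ← Finset.mul_sum, x_pr hx,
    x_pr' hx, hWx, kx2 hW hWx]
  ring

lemma p_tr (hW : IsCurv W) (hx : ∑ a, x a ^ 2 = 1) (hWx : ∀ b c d, ∑ a, x a * W a b c d = 0)
    (htr : ∀ b d, ∑ a, W a b a d = 0)
    (i b c e : Fin 6) : ∑ a, p W x i a b c a e = 0 := by
  have h : ∀ a, p W x i a b c a e =
      (pr x i a * W b c a e + pr x i b * W c a a e + pr x i c * W a b a e) -
      1 / 2 * ((W b c i e * pr x a a - pr x a e * W b c i a) +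
      (pr x b a * W c a i e - pr x b e * W c a i a) +
      (pr x c a * W a b i e - pr x c e * W a b i a)) := by
    intro a
    unfold p
    ring
  have e1 := pr_sum i (fun a => W b c a e) (kx3 hW hWx b c e)
  have e2 := pr_sum' e (fun a => W b c i a) (kx4 hW hWx b c i)
  have e3 := pr_sum b (fun a => W c a i e) (kx2 hW hWx c i e)
  have e4 := pr_sum c (fun a => W a b i e) (hWx b i e)
  simp only [h, Finset.sum_sub_distrib, Finset.sum_add_distrib, ← Finset.mul_sum, e1, e2, e3, e4,
    tr_pr hx, tr23 hW htr, htr, tr24 hW htr, tr14 hW htr]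
  rw [hW.anti b c i e]
  ring

/-- the Gram matrix of the tensors `p i` -/
lemma gram (hW : IsCurv W) (hx : ∑ a, x a ^ 2 = 1) (hWx : ∀ b c d, ∑ a, x a * W a b c d = 0)
    (htr : ∀ b d, ∑ a, W a b a d = 0) (i j : Fin 6) :
    ∑ a, ∑ b, ∑ c, ∑ d, ∑ e, p W x i a b c d e * p W x j a b c d e =
      3 * (pr x i j * nS W - 3 * SS W i j) := by
  set F : Fin 6 → Fin 6 → Fin 6 → ℝ := fun a b c =>
    ∑ d, ∑ e, pr x i a * W b c d e * p W x j a b c d e with hF
  set G : Fin 6 → Fin 6 → Fin 6 → ℝ := fun a b c =>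
    ∑ d, ∑ e, (pr x a d * W b c i e - pr x a e * W b c i d) * p W x j a b c d e with hG
  have hsplit : ∀ a b c, ∑ d, ∑ e, p W x i a b c d e * p W x j a b c d e =
      (F a b c + F b c a + F c a b) - 1 / 2 * (G a b c + G b c a + G c a b) := by
    intro a b c
    simp only [hF, hG]
    simp only [p_cyc]
    simp only [← Finset.sum_add_distrib, Finset.mul_sum, ← Finset.sum_sub_distrib]
    refine Finset.sum_congr rfl fun d _ => Finset.sum_congr rfl fun e _ => ?_
    rw [show p W x i a b c d e = (pr x i a * W b c d e + pr x i b * W c a d e +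
      pr x i c * W a b d e) -
      1 / 2 * ((pr x a d * W b c i e - pr x a e * W b c i d) +
        (pr x b d * W c a i e - pr x b e * W c a i d) +
        (pr x c d * W a b i e - pr x c e * W a b i d)) from rfl]
    ring
  have hsum : ∑ a, ∑ b, ∑ c, ∑ d, ∑ e, p W x i a b c d e * p W x j a b c d e =
      3 * (∑ a, ∑ b, ∑ c, F a b c) - 3 / 2 * ∑ a, ∑ b, ∑ c, G a b c := by
    simp only [hsplit, Finset.sum_sub_distrib, Finset.sum_add_distrib, ← Finset.mul_sum,
      sum_cyc F, sum_cyc' F, sum_cyc G, sum_cyc' G]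
    ring
  -- the second part vanishes
  have hG0 : ∑ a, ∑ b, ∑ c, G a b c = 0 := by
    have hG1 : ∀ a b c, G a b c = 2 * ∑ d, ∑ e, pr x a d * W b c i e * p W x j a b c d e := by
      intro a b c
      have h1 : ∑ d, ∑ e, pr x a e * W b c i d * p W x j a b c d e =
          - ∑ d, ∑ e, pr x a d * W b c i e * p W x j a b c d e := by
        rw [Finset.sum_comm]
        simp only [← Finset.sum_neg_distrib]
        refine Finset.sum_congr rfl fun d _ => Finset.sum_congr rfl fun e _ => ?_
        rw [p_anti hW]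
        ring
      simp only [hG, sub_mul, Finset.sum_sub_distrib]
      rw [h1]
      ring
    have hG2 : ∀ b c e, ∑ a, ∑ d, pr x a d * p W x j a b c d e = 0 := by
      intro b c e
      have h1 : ∀ a, ∑ d, pr x a d * p W x j a b c d e =
          p W x j a b c a e - ∑ d, x d * (x a * p W x j a b c d e) := by
        intro a
        have h2 : ∀ d, pr x a d * p W x j a b c d e =
            (if a = d then p W x j a b c d e else 0) - x d * (x a * p W x j a b c d e) := by
          intro d
          unfold pr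
          split_ifs <;> ring
        simp only [h2, Finset.sum_sub_distrib]
        simp
      simp only [h1, Finset.sum_sub_distrib]
      rw [p_tr hW hx hWx htr, Finset.sum_comm]
      simp only [← Finset.mul_sum, p_kx hW hx hWx]
      simp
    simp only [hG1]
    have h3 : ∑ a, ∑ b, ∑ c, 2 * ∑ d, ∑ e, pr x a d * W b c i e * p W x j a b c d e =
        2 * ∑ b, ∑ c, ∑ e, W b c i e * ∑ a, ∑ d, pr x a d * p W x j a b c d e := by
      simp only [Finset.mul_sum]
      rw [mvG]
      refine Finset.sum_congr rfl fun b _ => Finset.sum_congr rfl fun c _ =>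
        Finset.sum_congr rfl fun e _ => Finset.sum_congr rfl fun a _ =>
        Finset.sum_congr rfl fun d _ => ?_
      ring
    rw [h3]
    simp only [hG2, mul_zero, Finset.sum_const_zero]
  have hF1 : ∑ a, ∑ b, ∑ c, F a b c = ∑ b, ∑ c, ∑ d, ∑ e, W b c d e * p W x j i b c d e := by
    simp only [hF]
    rw [mv0]
    refine Finset.sum_congr rfl fun b _ => Finset.sum_congr rfl fun c _ =>
      Finset.sum_congr rfl fun d _ => Finset.sum_congr rfl fun e _ => ?_
    rw [← pr_sum i (fun a => p W x j a b c d e) (p_kx hW hx hWx j b c d e), Finset.mul_sum]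
    refine Finset.sum_congr rfl fun a _ => ?_
    ring
  rw [hsum, hG0, hF1]
  -- the nine sums
  have hSS : ∀ i j, ∑ b, ∑ c, ∑ e, W b c i e * W b c j e = SS W i j := by
    intro i j
    unfold SS
    have h1 : ∀ b c e, W b c i e * W b c j e = W i e b c * W j e b c := by
      intro b c e
      rw [hW.pair i e b c, hW.pair j e b c]
    simp only [h1]
    exact sum_cyc' fun e b c => W i e b c * W j e b c
  have t2 : ∑ b, ∑ c, ∑ d, ∑ e, W b c d e * (pr x j b * W c i d e) = - SS W i j := by
    rw [mv1]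
    unfold SS
    simp only [← Finset.sum_neg_distrib]
    refine Finset.sum_congr rfl fun c _ => Finset.sum_congr rfl fun d _ =>
      Finset.sum_congr rfl fun e _ => ?_
    have h1 : ∀ b, W b c d e * (pr x j b * W c i d e) = W c i d e * (pr x j b * W b c d e) := by
      intro b; ring
    simp only [h1, ← Finset.mul_sum]
    rw [pr_sum j (fun b => W b c d e) (hWx c d e), hW.anti i c d e]
    ring
  have t3 : ∑ b, ∑ c, ∑ d, ∑ e, W b c d e * (pr x j c * W i b d e) = - SS W i j := by
    rw [mv2]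
    unfold SS
    simp only [← Finset.sum_neg_distrib]
    refine Finset.sum_congr rfl fun b _ => Finset.sum_congr rfl fun d _ =>
      Finset.sum_congr rfl fun e _ => ?_
    have h1 : ∀ c, W b c d e * (pr x j c * W i b d e) = W i b d e * (pr x j c * W b c d e) := by
      intro c; ring
    simp only [h1, ← Finset.mul_sum]
    rw [pr_sum j (fun c => W b c d e) (kx2 hW hWx b d e), hW.anti j b d e]
    ring
  have u1 : ∑ b, ∑ c, ∑ d, ∑ e, W b c d e * (pr x i d * W b c j e) = SS W i j := by
    rw [mv3, ← hSS i j]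
    refine Finset.sum_congr rfl fun b _ => Finset.sum_congr rfl fun c _ =>
      Finset.sum_congr rfl fun e _ => ?_
    have h1 : ∀ d, W b c d e * (pr x i d * W b c j e) = W b c j e * (pr x i d * W b c d e) := by
      intro d; ring
    simp only [h1, ← Finset.mul_sum]
    rw [pr_sum i (fun d => W b c d e) (kx3 hW hWx b c e)]
    ring
  have u2 : ∑ b, ∑ c, ∑ d, ∑ e, W b c d e * (pr x i e * W b c j d) = - SS W i j := by
    rw [← hSS i j]
    simp only [← Finset.sum_neg_distrib]
    refine Finset.sum_congr rfl fun b _ => Finset.sum_congr rfl fun c _ =>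
      Finset.sum_congr rfl fun d _ => ?_
    have h1 : ∀ e, W b c d e * (pr x i e * W b c j d) = W b c j d * (pr x i e * W b c d e) := by
      intro e; ring
    simp only [h1, ← Finset.mul_sum]
    rw [pr_sum i (fun e => W b c d e) (kx4 hW hWx b c d), anti2 hW b c i d]
    ring
  have v1 : ∑ b, ∑ c, ∑ d, ∑ e, W b c d e * (pr x b d * W c i j e) = 0 := by
    rw [mv1]
    refine Finset.sum_eq_zero fun c _ => ?_
    rw [Finset.sum_comm]
    refine Finset.sum_eq_zero fun e _ => ?_
    have h1 : ∀ d, ∑ b, W b c d e * (pr x b d * W c i j e) = W c i j e * W d c d e := by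
      intro d
      have h2 : ∀ b, W b c d e * (pr x b d * W c i j e) =
          W c i j e * (pr x b d * W b c d e) := by
        intro b; ring
      simp only [h2, ← Finset.mul_sum]
      rw [pr_sum' d (fun b => W b c d e) (hWx c d e)]
    simp only [h1, ← Finset.mul_sum, htr, mul_zero]
  have v2 : ∑ b, ∑ c, ∑ d, ∑ e, W b c d e * (pr x b e * W c i j d) = 0 := by
    rw [mv1]
    refine Finset.sum_eq_zero fun c _ => Finset.sum_eq_zero fun d _ => ?_
    have h1 : ∀ e, ∑ b, W b c d e * (pr x b e * W c i j d) = W c i j d * W e c d e := by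
      intro e
      have h2 : ∀ b, W b c d e * (pr x b e * W c i j d) =
          W c i j d * (pr x b e * W b c d e) := by
        intro b; ring
      simp only [h2, ← Finset.mul_sum]
      rw [pr_sum' e (fun b => W b c d e) (hWx c d e)]
    simp only [h1, ← Finset.mul_sum, tr14 hW htr, mul_zero]
  have v3 : ∑ b, ∑ c, ∑ d, ∑ e, W b c d e * (pr x c d * W i b j e) = 0 := by
    rw [mv2]
    refine Finset.sum_eq_zero fun b _ => ?_
    rw [Finset.sum_comm]
    refine Finset.sum_eq_zero fun e _ => ?_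
    have h1 : ∀ d, ∑ c, W b c d e * (pr x c d * W i b j e) = W i b j e * W b d d e := by
      intro d
      have h2 : ∀ c, W b c d e * (pr x c d * W i b j e) =
          W i b j e * (pr x c d * W b c d e) := by
        intro c; ring
      simp only [h2, ← Finset.mul_sum]
      rw [pr_sum' d (fun c => W b c d e) (kx2 hW hWx b d e)]
    simp only [h1, ← Finset.mul_sum, tr23 hW htr, mul_zero]
  have v4 : ∑ b, ∑ c, ∑ d, ∑ e, W b c d e * (pr x c e * W i b j d) = 0 := by
    rw [mv2]
    refine Finset.sum_eq_zero fun b _ => Finset.sum_eq_zero fun d _ => ?_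
    have h1 : ∀ e, ∑ c, W b c d e * (pr x c e * W i b j d) = W i b j d * W b e d e := by
      intro e
      have h2 : ∀ c, W b c d e * (pr x c e * W i b j d) =
          W i b j d * (pr x c e * W b c d e) := by
        intro c; ring
      simp only [h2, ← Finset.mul_sum]
      rw [pr_sum' e (fun c => W b c d e) (kx2 hW hWx b d e)]
    simp only [h1, ← Finset.mul_sum, tr24 hW htr, mul_zero]
  have hexp : ∀ b c d e, W b c d e * p W x j i b c d e =
      (pr x i j * (W b c d e * W b c d e) + W b c d e * (pr x j b * W c i d e) +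
        W b c d e * (pr x j c * W i b d e)) -
      1 / 2 * ((W b c d e * (pr x i d * W b c j e) - W b c d e * (pr x i e * W b c j d)) +
        (W b c d e * (pr x b d * W c i j e) - W b c d e * (pr x b e * W c i j d)) +
        (W b c d e * (pr x c d * W i b j e) - W b c d e * (pr x c e * W i b j d))) := by
    intro b c d e
    unfold p
    rw [pr_symm i j]
    ring
  have hnS : ∑ b, ∑ c, ∑ d, ∑ e, W b c d e * W b c d e = nS W := rfl
  simp only [hexp, Finset.sum_sub_distrib, Finset.sum_add_distrib, ← Finset.mul_sum, t2, t3, u1,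
    u2, v1, v2, v3, v4, hnS]
  ring

end B1

open B1 in
theorem weyl_ineq {W : Ten} (hW : IsCurv W) {x : Fin 6 → ℝ} (hx : ∑ a, x a ^ 2 = 1)
    (hWx : ∀ b c d, ∑ a, x a * W a b c d = 0) (htr : ∀ b d, ∑ a, W a b a d = 0)
    {K : Fin 6 → Fin 6 → ℝ} (hK : ∀ y : Fin 6 → ℝ, 0 ≤ ∑ a, ∑ b, K a b * (y a * y b))
    (hKx : ∀ b, ∑ a, K a b * x a = 0) (hKx' : ∀ a, ∑ b, K a b * x b = 0) :
    3 * ∑ a, ∑ b, K a b * SS W a b ≤ (∑ a, K a a) * nS W := by
  have h0 : 0 ≤ ∑ a, ∑ b, ∑ c, ∑ d, ∑ e, ∑ i, ∑ j,
      K i j * (p W x i a b c d e * p W x j a b c d e) :=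
    Finset.sum_nonneg fun a _ => Finset.sum_nonneg fun b _ => Finset.sum_nonneg fun c _ =>
      Finset.sum_nonneg fun d _ => Finset.sum_nonneg fun e _ => hK fun i => p W x i a b c d e
  have h1 : ∑ a, ∑ b, ∑ c, ∑ d, ∑ e, ∑ i, ∑ j,
      K i j * (p W x i a b c d e * p W x j a b c d e) =
      ∑ i, ∑ j, K i j * ∑ a, ∑ b, ∑ c, ∑ d, ∑ e, p W x i a b c d e * p W x j a b c d e := by
    have sw : ∀ f : Fin 6 → Fin 6 → Fin 6 → ℝ,
        ∑ a, ∑ i, ∑ j, f a i j = ∑ i, ∑ j, ∑ a, f a i j := by
      intro f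
      exact sum_cyc fun i j a => f a i j
    have e1 := fun a b c d => sw fun e i j =>
      K i j * (p W x i a b c d e * p W x j a b c d e)
    have e2 := fun a b c => sw fun d i j =>
      ∑ e, K i j * (p W x i a b c d e * p W x j a b c d e)
    have e3 := fun a b => sw fun c i j =>
      ∑ d, ∑ e, K i j * (p W x i a b c d e * p W x j a b c d e)
    have e4 := fun a => sw fun b i j =>
      ∑ c, ∑ d, ∑ e, K i j * (p W x i a b c d e * p W x j a b c d e)
    have e5 := sw fun a i j =>
      ∑ b, ∑ c, ∑ d, ∑ e, K i j * (p W x i a b c d e * p W x j a b c d e)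
    simp only [e1, e2, e3, e4]
    rw [e5]
    simp only [Finset.mul_sum]
  rw [h1] at h0
  simp only [gram hW hx hWx htr] at h0
  have h2 : ∑ i, ∑ j, K i j * (3 * (pr x i j * nS W - 3 * SS W i j)) =
      3 * ((∑ i, ∑ j, K i j * pr x i j) * nS W - 3 * ∑ i, ∑ j, K i j * SS W i j) := by
    simp only [Finset.mul_sum, Finset.sum_mul, ← Finset.sum_sub_distrib]
    refine Finset.sum_congr rfl fun i _ => Finset.sum_congr rfl fun j _ => ?_
    ring
  have h3 : ∑ i, ∑ j, K i j * pr x i j = ∑ i, K i i := by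
    refine Finset.sum_congr rfl fun i _ => ?_
    have h4 : ∀ j, K i j * pr x i j = (if i = j then K i j else 0) - x i * (K i j * x j) := by
      intro j
      unfold pr
      split_ifs <;> ring
    simp only [h4, Finset.sum_sub_distrib, ← Finset.mul_sum, hKx', mul_zero, sub_zero]
    simp
  rw [h2, h3] at h0
  linarith

end Hopf6
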