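import Pool.Agent.H933R2.Hopf.B2a

/-!
# The Weyl part of the restriction of a curvature tensor to a hyperplane (task B2), part 2
-/

open scoped BigOperators

namespace Hopf6

namespace B2

section
variable {R : Ten} (hR : IsCurv R) {x : Fin 6 → ℝ} (hx : ∑ a, x a ^ 2 = 1)

/-- `H_ade H_bde` -/
def HH1 (R : Ten) (x : Fin 6 → ℝ) (a b : Fin 6) : ℝ := ∑ d, ∑ e, Hx R x a d e * Hx R x b d e
/-- `H_eac H_ebc` -/
def HH2 (R : Ten) (x : Fin 6 → ℝ) (a b : Fin 6) : ℝ := ∑ c, ∑ e, Hx R x e a c * Hx R x e b c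
/-- `J_ae J_be` -/
def JJm (R : Ten) (x : Fin 6 → ℝ) (a b : Fin 6) : ℝ := ∑ e, Jm R x a e * Jm R x b e
/-- auxiliary vector -/
def yv (R : Ten) (x : Fin 6 → ℝ) (b : Fin 6) : ℝ :=
  - (∑ c, ∑ d, ∑ e, Hx R x c d e * R b c d e) + 2 * ∑ c, ∑ e, Jm R x c e * Hx R x e b c

omit hR hx in
theorem mJH1_eq : mJH1 R x = wt (Jm R x) (HH1 R x) := by
  unfold mJH1 wt HH1
  refine Finset.sum_congr rfl fun a _ => Finset.sum_congr rfl fun b _ => ?_
  rw [vsum x (fun p d e => R p a d e) (fun q d e => R q b d e)]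
  rfl

include hR in
theorem mJH2_eq : mJH2 R x = wt (Jm R x) (HH2 R x) := by
  unfold mJH2 wt HH2
  refine Finset.sum_congr rfl fun a _ => Finset.sum_congr rfl fun b _ => ?_
  rw [vsum x (fun p c e => R a c p e) (fun q c e => R b c q e)]
  congr 1
  refine Finset.sum_congr rfl fun c _ => Finset.sum_congr rfl fun e _ => ?_
  rw [c3 hR a c e, c3 hR b c e]

omit hR hx in
theorem s3_rot (F : Fin 6 → Fin 6 → Fin 6 → ℝ) :
    ∑ a, ∑ b, ∑ c, F a b c = ∑ c, ∑ a, ∑ b, F a b c := by
  rw [show (∑ c, ∑ a, ∑ b, F a b c) = ∑ a, ∑ c, ∑ b, F a b c from Finset.sum_comm]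
  exact Finset.sum_congr rfl fun a _ => Finset.sum_comm

omit hR hx in
theorem mSx_eq : mSx R x = ∑ c, ∑ d, ∑ e, Hx R x c d e * Hx R x c d e := by
  have h : ∀ c, ∑ p, ∑ q, (∑ d, ∑ e, R p c d e * R q c d e) * (x p * x q) =
      ∑ d, ∑ e, Hx R x c d e * Hx R x c d e := fun c =>
    vsum x (fun p d e => R p c d e) (fun q d e => R q c d e)
  simp only [← h]
  unfold mSx SS
  rw [← s3_rot]
  exact Finset.sum_congr rfl fun p _ => Finset.sum_congr rfl fun q _ => Finset.sum_mul _ _ _

omit hR hx in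
theorem r1 (F : Fin 6 → Fin 6 → Fin 6 → ℝ) :
    ∑ a, ∑ b, ∑ c, F a b c = ∑ b, ∑ c, ∑ a, F a b c := by
  rw [Finset.sum_comm]
  exact Finset.sum_congr rfl fun b _ => Finset.sum_comm

omit hR hx in
theorem r2 (F : Fin 6 → Fin 6 → Fin 6 → ℝ) :
    ∑ a, ∑ b, ∑ c, F a b c = ∑ a, ∑ c, ∑ b, F a b c :=
  Finset.sum_congr rfl fun _ _ => Finset.sum_comm

omit hR hx in
theorem fac (f g : Fin 6 → ℝ) (k : ℝ) (h : ∀ c, f c = k * g c) :
    ∑ c, f c = k * ∑ c, g c := by
  rw [Finset.mul_sum]; exact Finset.sum_congr rfl fun c _ => h c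

include hR in
/-- `R1_acde R_bcde` -/
theorem Mform (a b : Fin 6) : ∑ c, ∑ d, ∑ e, R1 R x a c d e * R b c d e =
    SS R a b - HH1 R x a b - 2 * HH2 R x a b + 2 * JJm R x a b + x a * yv R x b := by
  have e : ∀ c d e, R1 R x a c d e * R b c d e = R a c d e * R b c d e
      - x a * Hx R x c d e * R b c d e + x c * Hx R x a d e * R b c d e
      - x d * Hx R x e a c * R b c d e + x e * Hx R x d a c * R b c d e
      + x a * x d * Jm R x c e * R b c d e - x a * x e * Jm R x c d * R b c d e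
      - x c * x d * Jm R x a e * R b c d e + x c * x e * Jm R x a d * R b c d e := by
    intro c d e; simp only [R1]; ring
  simp only [e, Finset.sum_add_distrib, Finset.sum_sub_distrib]
  have g1 : ∑ c, ∑ d, ∑ e, x a * Hx R x c d e * R b c d e =
      x a * ∑ c, ∑ d, ∑ e, Hx R x c d e * R b c d e := by
    simp only [Finset.mul_sum, mul_assoc]
  have g2 : ∑ c, ∑ d, ∑ e, x c * Hx R x a d e * R b c d e = - HH1 R x a b := by
    rw [r1]; unfold HH1; rw [← Finset.sum_neg_distrib]
    refine Finset.sum_congr rfl fun d _ => ?_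
    rw [← Finset.sum_neg_distrib]
    refine Finset.sum_congr rfl fun e _ => ?_
    rw [fac _ (fun c => x c * R b c d e) (Hx R x a d e) (fun c => by ring), c2 hR]; ring
  have g3 : ∑ c, ∑ d, ∑ e, x d * Hx R x e a c * R b c d e = HH2 R x a b := by
    rw [r2]; unfold HH2
    refine Finset.sum_congr rfl fun c _ => Finset.sum_congr rfl fun e _ => ?_
    rw [fac _ (fun d => x d * R b c d e) (Hx R x e a c) (fun d => by ring), c3 hR]
  have g4 : ∑ c, ∑ d, ∑ e, x e * Hx R x d a c * R b c d e = - HH2 R x a b := by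
    unfold HH2; rw [← Finset.sum_neg_distrib]
    refine Finset.sum_congr rfl fun c _ => ?_
    rw [← Finset.sum_neg_distrib]
    refine Finset.sum_congr rfl fun d _ => ?_
    rw [fac _ (fun e => x e * R b c d e) (Hx R x d a c) (fun e => by ring), c4 hR]; ring
  have g5 : ∑ c, ∑ d, ∑ e, x a * x d * Jm R x c e * R b c d e =
      x a * ∑ c, ∑ e, Jm R x c e * Hx R x e b c := by
    rw [r2]
    refine fac _ _ _ fun c => ?_
    refine fac _ _ _ fun e => ?_
    rw [fac _ (fun d => x d * R b c d e) (x a * Jm R x c e) (fun d => by ring), c3 hR]; ring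
  have g6 : ∑ c, ∑ d, ∑ e, x a * x e * Jm R x c d * R b c d e =
      - (x a * ∑ c, ∑ e, Jm R x c e * Hx R x e b c) := by
    rw [← neg_mul]
    refine fac _ _ _ fun c => ?_
    refine fac _ _ _ fun d => ?_
    rw [fac _ (fun e => x e * R b c d e) (x a * Jm R x c d) (fun d => by ring), c4 hR]; ring
  have g7 : ∑ c, ∑ d, ∑ e, x c * x d * Jm R x a e * R b c d e = - JJm R x a b := by
    unfold JJm; rw [← Finset.sum_neg_distrib]
    rw [r1, Finset.sum_comm]
    refine Finset.sum_congr rfl fun e _ => ?_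
    calc ∑ d, ∑ c, x c * x d * Jm R x a e * R b c d e
        = ∑ d, (- Jm R x a e) * (x d * Hx R x b d e) := by
          refine Finset.sum_congr rfl fun d _ => ?_
          rw [fac _ (fun c => x c * R b c d e) (x d * Jm R x a e) (fun c => by ring), c2 hR]; ring
      _ = _ := by rw [← Finset.mul_sum, ← Jdef]; ring
  have g8 : ∑ c, ∑ d, ∑ e, x c * x e * Jm R x a d * R b c d e = JJm R x a b := by
    unfold JJm
    rw [r1]
    refine Finset.sum_congr rfl fun d _ => ?_
    calc ∑ e, ∑ c, x c * x e * Jm R x a d * R b c d e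
        = ∑ e, (- Jm R x a d) * (x e * Hx R x b d e) := by
          refine Finset.sum_congr rfl fun e _ => ?_
          rw [fac _ (fun c => x c * R b c d e) (x e * Jm R x a d) (fun c => by ring), c2 hR]; ring
      _ = _ := by rw [← Finset.mul_sum, H3 hR]; ring
  rw [g1, g2, g3, g4, g5, g6, g7, g8]
  unfold SS yv
  ring

include hR hx in
/-- `R1_acde R1_bcde` -/
theorem Nform (a b : Fin 6) : SS (R1 R x) a b =
    SS R a b - HH1 R x a b - 2 * HH2 R x a b + 2 * JJm R x a b + x a * yv R x b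
      - (∑ c, ∑ d, ∑ e, R1 R x a c d e * Hx R x c d e) * x b := by
  have hF := R1curv hR (x := x)
  have hFx := R1kill hR hx
  rw [← Mform hR]
  have e : ∀ c d e, R1 R x a c d e * R1 R x b c d e = R1 R x a c d e * R b c d e
      - R1 R x a c d e * Hx R x c d e * x b
      + x c * R1 R x a c d e * (Hx R x b d e - x d * Jm R x b e + x e * Jm R x b d)
      + x d * R1 R x a c d e * (- Hx R x e b c + x b * Jm R x c e)
      + x e * R1 R x a c d e * (Hx R x d b c - x b * Jm R x c d) := by
    intro c d e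
    rw [show R1 R x b c d e = R b c d e - x b * Hx R x c d e + x c * Hx R x b d e
      - x d * Hx R x e b c + x e * Hx R x d b c
      + x b * x d * Jm R x c e - x b * x e * Jm R x c d - x c * x d * Jm R x b e
      + x c * x e * Jm R x b d from rfl]
    ring
  unfold SS
  simp only [e, Finset.sum_add_distrib, Finset.sum_sub_distrib]
  have g2 : ∑ c, ∑ d, ∑ e, x c * R1 R x a c d e *
      (Hx R x b d e - x d * Jm R x b e + x e * Jm R x b d) = 0 := by
    rw [r1]
    refine Finset.sum_eq_zero fun d _ => Finset.sum_eq_zero fun e _ => ?_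
    rw [← Finset.sum_mul, k2 hF hFx, zero_mul]
  have g3 : ∑ c, ∑ d, ∑ e, x d * R1 R x a c d e * (- Hx R x e b c + x b * Jm R x c e) = 0 := by
    rw [r2]
    refine Finset.sum_eq_zero fun c _ => Finset.sum_eq_zero fun e _ => ?_
    rw [← Finset.sum_mul, k3 hF hFx, zero_mul]
  have g4 : ∑ c, ∑ d, ∑ e, x e * R1 R x a c d e * (Hx R x d b c - x b * Jm R x c d) = 0 := by
    refine Finset.sum_eq_zero fun c _ => Finset.sum_eq_zero fun d _ => ?_
    rw [← Finset.sum_mul, k4 hF hFx, zero_mul]
  rw [g2, g3, g4]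
  simp only [Finset.sum_mul]
  ring

omit hR hx in
theorem xsum (x g : Fin 6 → ℝ) (k : ℝ) : k * (∑ a, x a * g a) = ∑ a, x a * (k * g a) := by
  rw [Finset.mul_sum]; exact Finset.sum_congr rfl fun a _ => by ring

include hR hx in
theorem nS_R1 : nS (R1 R x) = nS R - 4 * mSx R x + 4 * mJJ R x := by
  have e0 : nS (R1 R x) = ∑ a, SS (R1 R x) a a := rfl
  have e1 : nS R = ∑ a, SS R a a := rfl
  have h1 : ∑ a, HH1 R x a a = mSx R x := by rw [mSx_eq]; rfl
  have h2 : ∑ a, HH2 R x a a = mSx R x := by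
    rw [mSx_eq]; unfold HH2
    exact s3_rot (fun a c e => Hx R x e a c * Hx R x e a c)
  have h3 : ∑ a, JJm R x a a = mJJ R x := rfl
  have h4 : ∑ a, x a * yv R x a = - mSx R x + 2 * mJJ R x := by
    unfold yv
    simp only [mul_add, Finset.sum_add_distrib, mul_neg, Finset.sum_neg_distrib]
    congr 1
    · congr 1
      rw [mSx_eq]
      simp only [Finset.mul_sum]
      rw [s4_1 (fun a c d e => x a * (Hx R x c d e * R a c d e))]
      refine Finset.sum_congr rfl fun c _ => Finset.sum_congr rfl fun d _ =>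
        Finset.sum_congr rfl fun e _ => ?_
      rw [fac _ (fun a => x a * R a c d e) (Hx R x c d e) (fun c => by ring)]; rfl
    · simp only [Finset.mul_sum]
      rw [r1]
      unfold mJJ
      rw [Finset.mul_sum]
      refine Finset.sum_congr rfl fun c _ => ?_
      rw [Finset.mul_sum]
      refine Finset.sum_congr rfl fun e _ => ?_
      rw [fac _ (fun a => x a * Hx R x e a c) (2 * Jm R x c e) (fun c => by ring), H2,
        Jsymm hR c e]
      ring
  have h5 : ∑ a, (∑ c, ∑ d, ∑ e, R1 R x a c d e * Hx R x c d e) * x a = 0 := by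
    simp only [Finset.sum_mul]
    rw [s4_1 (fun a c d e => R1 R x a c d e * Hx R x c d e * x a)]
    refine Finset.sum_eq_zero fun c _ => Finset.sum_eq_zero fun d _ =>
      Finset.sum_eq_zero fun e _ => ?_
    rw [fac _ (fun a => x a * R1 R x a c d e) (Hx R x c d e) (fun c => by ring), R1kill hR hx,
      mul_zero]
  rw [e0, e1]
  simp only [Nform hR hx, Finset.sum_add_distrib, Finset.sum_sub_distrib]
  rw [h1, h4, h5]
  simp only [← Finset.mul_sum]
  rw [h2, h3]
  ring

include hR hx in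
theorem wt_SS_R1 : wt (Jm R x) (SS (R1 R x)) =
    mJSS R x - mJH1 R x - 2 * mJH2 R x + 2 * mJJJ R x := by
  have h3 : wt (Jm R x) (JJm R x) = mJJJ R x := by
    unfold wt JJm mJJJ
    refine Finset.sum_congr rfl fun a _ => Finset.sum_congr rfl fun b _ => ?_
    rw [Finset.mul_sum]
    exact Finset.sum_congr rfl fun e _ => by rw [Jsymm hR a e]; ring
  have e : SS (R1 R x) = fun a b => SS R a b - HH1 R x a b - 2 * HH2 R x a b + 2 * JJm R x a b
      + x a * yv R x b - (∑ c, ∑ d, ∑ e, R1 R x a c d e * Hx R x c d e) * x b := by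
    funext a b; exact Nform hR hx a b
  rw [e, wt_sub, wt_add, wt_add, wt_sub, wt_sub, wt_smul, wt_smul,
    wt_x1 (J1 hR), wt_x2 (J2 hR) (fun a => ∑ c, ∑ d, ∑ e, R1 R x a c d e * Hx R x c d e), h3,
    ← mJH1_eq, ← mJH2_eq hR]
  unfold mJSS wt
  ring

/-- `rho_ad rho_bd` -/
noncomputable def rr (R : Ten) (x : Fin 6 → ℝ) (a b : Fin 6) : ℝ := ∑ d, rho R x a d * rho R x b d
/-- `R1_acbe rho_ce` -/
noncomputable def TT (R : Ten) (x : Fin 6 → ℝ) (a b : Fin 6) : ℝ :=
  ∑ c, ∑ e, R1 R x a c b e * rho R x c e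

include hR hx in
theorem rho_norm : ∑ a, rr R x a a =
    nR R - 2 * muu R x + jx R x ^ 2 - 2 * mJR R x + mJJ R x := by
  have e : ∀ a d, rho R x a d * rho R x a d = Rc R a d * Rc R a d - 2 * (Jm R x a d * Rc R a d)
      + Jm R x a d * Jm R x a d - x a * Rc R a d * ux R x d - ux R x a * (x d * Rc R a d)
      + jx R x * x a * (x d * Rc R a d) + x a * Jm R x a d * ux R x d
      + ux R x a * (x d * Jm R x a d) - jx R x * x a * (x d * Jm R x a d)
      - (x a * rho R x a d) * ux R x d - ux R x a * (x d * rho R x a d)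
      + jx R x * x a * (x d * rho R x a d) := by
    intro a d; simp only [rho]; ring
  unfold rr
  simp only [e, Finset.sum_add_distrib, Finset.sum_sub_distrib, ← Finset.mul_sum, J2 hR, mul_zero]
  have k1 : ∀ d, ∑ a, x a * rho R x a d = 0 := rhokill hR hx
  have k2 : ∀ a, ∑ d, x d * rho R x a d = 0 := fun a => by
    rw [← k1 a]; exact Finset.sum_congr rfl fun d _ => by rw [rhosymm hR a d]
  have g1 : ∑ a, ∑ d, x a * Rc R a d * ux R x d = muu R x := by
    rw [Finset.sum_comm]; unfold muu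
    refine Finset.sum_congr rfl fun d _ => ?_
    rw [← Finset.sum_mul, usum' hR]
  have g2 : ∑ a, ux R x a * (∑ d, x d * Rc R a d) = muu R x := by
    unfold muu
    exact Finset.sum_congr rfl fun a _ => by rw [usum]
  have g3 : ∑ a, jx R x * x a * (∑ d, x d * Rc R a d) = jx R x ^ 2 := by
    have : ∀ a, jx R x * x a * (∑ d, x d * Rc R a d) = jx R x * (x a * ux R x a) := fun a => by
      rw [usum]; ring
    simp only [this, ← Finset.mul_sum]
    rw [jsum]; ring
  have g4 : ∑ a, ∑ d, x a * Jm R x a d * ux R x d = 0 := by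
    rw [Finset.sum_comm]
    refine Finset.sum_eq_zero fun d _ => ?_
    rw [← Finset.sum_mul, J1 hR, zero_mul]
  have g5 : ∑ a, ∑ d, x a * rho R x a d * ux R x d = 0 := by
    rw [Finset.sum_comm]
    refine Finset.sum_eq_zero fun d _ => ?_
    rw [← Finset.sum_mul, k1, zero_mul]
  simp only [k2, mul_zero, Finset.sum_const_zero]
  rw [g1, g2, g3, g4, g5]
  unfold nR mJR mJJ
  ring

include hR in
theorem wt_rho : wt (Jm R x) (rho R x) = mJR R x - mJJ R x := by
  have e : rho R x = fun b d => Rc R b d - x b * ux R x d - ux R x b * x d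
      + x b * (jx R x * x d) - Jm R x b d := by
    funext b d; unfold rho; ring
  rw [e, wt_sub, wt_add, wt_sub, wt_sub, wt_x1 (J1 hR), wt_x1 (J1 hR), wt_x2 (J2 hR)]
  unfold mJR mJJ wt
  ring

include hR in
theorem wt_pr : wt (Jm R x) (pr x) = jx R x := by
  have e : pr x = fun a b => (if a = b then 1 else 0) - x a * x b := rfl
  rw [e, wt_sub, wt_x1 (J1 hR), sub_zero, ← trJ]
  unfold wt
  refine Finset.sum_congr rfl fun a _ => ?_
  simp

include hR hx in
theorem wt_rr : wt (Jm R x) (rr R x) = mJRR R x - mJuu R x - 2 * mJJR R x + mJJJ R x := by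
  have hxx : ∑ d, x d * x d = 1 := by
    rw [← hx]; exact Finset.sum_congr rfl fun b _ => by ring
  -- modulo terms killed by `J`
  have e1 : ∀ a b, rr R x a b = (∑ d, Rc R a d * Rc R b d) - ux R x a * ux R x b
      - (∑ d, Rc R a d * Jm R x b d) - (∑ d, Jm R x a d * Rc R b d) + JJm R x a b
      + x a * (∑ d, (- ux R x d + jx R x * x d) * rho R x b d)
      + (∑ d, (- ux R x d + jx R x * x d) * (Rc R a d - ux R x a * x d - Jm R x a d)) * x b := by
    intro a b
    have t : ∀ d, rho R x a d * rho R x b d = Rc R a d * Rc R b d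
        - x d * Rc R a d * ux R x b - ux R x a * (x d * Rc R b d) + ux R x a * ux R x b * (x d * x d)
        - Rc R a d * Jm R x b d - Jm R x a d * Rc R b d + Jm R x a d * Jm R x b d
        + ux R x a * (x d * Jm R x b d) + ux R x b * (x d * Jm R x a d)
        + x a * ((- ux R x d + jx R x * x d) * rho R x b d)
        + (- ux R x d + jx R x * x d) * (Rc R a d - ux R x a * x d - Jm R x a d) * x b := by
      intro d; simp only [rho]; ring
    unfold rr
    simp only [t, Finset.sum_add_distrib, Finset.sum_sub_distrib, ← Finset.mul_sum,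
      ← Finset.sum_mul, J2 hR, mul_zero, hxx, usum]
    unfold JJm
    ring
  have e : rr R x = fun a b => (∑ d, Rc R a d * Rc R b d) - ux R x a * ux R x b
      - (∑ d, Rc R a d * Jm R x b d) - (∑ d, Jm R x a d * Rc R b d) + JJm R x a b
      + x a * (∑ d, (- ux R x d + jx R x * x d) * rho R x b d)
      + (∑ d, (- ux R x d + jx R x * x d) * (Rc R a d - ux R x a * x d - Jm R x a d)) * x b := by
    funext a b; exact e1 a b
  rw [e, wt_add, wt_add, wt_add, wt_sub, wt_sub, wt_sub,
    wt_x1 (J1 hR) (fun b => ∑ d, (- ux R x d + jx R x * x d) * rho R x b d),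
    wt_x2 (J2 hR) (fun a => ∑ d, (- ux R x d + jx R x * x d) *
      (Rc R a d - ux R x a * x d - Jm R x a d))]
  have h1 : wt (Jm R x) (fun a b => ∑ d, Rc R a d * Rc R b d) = mJRR R x := by
    unfold wt mJRR
    refine Finset.sum_congr rfl fun a _ => Finset.sum_congr rfl fun b _ => ?_
    rw [Finset.mul_sum]
    exact Finset.sum_congr rfl fun e _ => by rw [Rcsymm hR e a]; ring
  have h2 : wt (Jm R x) (fun a b => ∑ d, Jm R x a d * Rc R b d) = mJJR R x := by
    unfold wt mJJR
    rw [Finset.sum_comm]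
    refine Finset.sum_congr rfl fun b _ => Finset.sum_congr rfl fun a _ => ?_
    rw [Finset.mul_sum]
    exact Finset.sum_congr rfl fun d _ => by rw [Jsymm hR a b, Rcsymm hR b d]; ring
  have h3 : wt (Jm R x) (fun a b => ∑ d, Rc R a d * Jm R x b d) = mJJR R x := by
    rw [← h2, ← wt_symm (Jsymm hR)]
    congr 1
    funext a b
    exact Finset.sum_congr rfl fun d _ => by ring
  have h4 : wt (Jm R x) (JJm R x) = mJJJ R x := by
    unfold wt JJm mJJJ
    refine Finset.sum_congr rfl fun a _ => Finset.sum_congr rfl fun b _ => ?_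
    rw [Finset.mul_sum]
    exact Finset.sum_congr rfl fun e _ => by rw [Jsymm hR a e]; ring
  rw [h1, h2, h3, h4]
  unfold mJuu wt
  ring

include hR hx in
theorem wt_TT : wt (Jm R x) (TT R x) =
    mJSR R x - 2 * mJSu R x + jx R x * mJJ R x - mJSJ R x := by
  have kr2 : ∀ a, ∑ d, x d * rho R x a d = 0 := fun a => by
    rw [← rhokill hR hx a]; exact Finset.sum_congr rfl fun d _ => by rw [rhosymm hR a d]
  -- step 1: replace `R1` by `R`
  have e1 : ∀ a b, TT R x a b = (∑ c, ∑ e, R a c b e * rho R x c e)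
      + x a * (∑ c, ∑ e, (- Hx R x c b e) * rho R x c e)
      + (∑ c, ∑ e, (- Hx R x e a c + x a * Jm R x c e) * rho R x c e) * x b := by
    intro a b
    have t : ∀ c e, R1 R x a c b e * rho R x c e = R a c b e * rho R x c e
        + x a * ((- Hx R x c b e) * rho R x c e)
        + (- Hx R x e a c + x a * Jm R x c e) * rho R x c e * x b
        + (Hx R x a b e - x b * Jm R x a e) * (x c * rho R x c e)
        + (Hx R x b a c - x a * Jm R x c b + x c * Jm R x a b) * (x e * rho R x c e) := by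
      intro c e; simp only [R1]; ring
    unfold TT
    simp only [t, Finset.sum_add_distrib]
    have g1 : ∑ c, ∑ e, (Hx R x a b e - x b * Jm R x a e) * (x c * rho R x c e) = 0 := by
      rw [Finset.sum_comm]
      refine Finset.sum_eq_zero fun e _ => ?_
      rw [← Finset.mul_sum, rhokill hR hx, mul_zero]
    have g2 : ∑ c, ∑ e, (Hx R x b a c - x a * Jm R x c b + x c * Jm R x a b) *
        (x e * rho R x c e) = 0 := by
      refine Finset.sum_eq_zero fun c _ => ?_
      rw [← Finset.mul_sum, kr2, mul_zero]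
    rw [g1, g2]
    simp only [Finset.mul_sum, Finset.sum_mul]
    ring
  have e : TT R x = fun a b => (∑ c, ∑ e, R a c b e * rho R x c e)
      + x a * (∑ c, ∑ e, (- Hx R x c b e) * rho R x c e)
      + (∑ c, ∑ e, (- Hx R x e a c + x a * Jm R x c e) * rho R x c e) * x b := by
    funext a b; exact e1 a b
  rw [e, wt_add, wt_add, wt_x1 (J1 hR) (fun b => ∑ c, ∑ e, (- Hx R x c b e) * rho R x c e),
    wt_x2 (J2 hR) (fun a => ∑ c, ∑ e, (- Hx R x e a c + x a * Jm R x c e) * rho R x c e)]
  -- step 2: expand `rho`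
  have hJ : ∀ a b, ∑ c, ∑ e, R a c b e * (x c * x e) = Jm R x a b := by
    intro a b
    unfold Jm
    refine Finset.sum_congr rfl fun p _ => Finset.sum_congr rfl fun q _ => ?_
    rw [hR.anti p a b q, anti' hR p a q b]; ring
  have e2 : (fun a b => ∑ c, ∑ e, R a c b e * rho R x c e) =
      fun a b => (∑ c, ∑ e, R a c b e * Rc R c e) - (∑ c, ∑ e, R a c b e * (x c * ux R x e))
        - (∑ c, ∑ e, R b c a e * (x c * ux R x e)) + jx R x * Jm R x a b
        - (∑ c, ∑ e, R a c b e * Jm R x c e) := by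
    funext a b
    have t : ∀ c e, R a c b e * rho R x c e = R a c b e * Rc R c e
        - R a c b e * (x c * ux R x e) - R a c b e * (ux R x c * x e)
        + jx R x * (R a c b e * (x c * x e)) - R a c b e * Jm R x c e := by
      intro c e; simp only [rho]; ring
    simp only [t, Finset.sum_add_distrib, Finset.sum_sub_distrib, ← Finset.mul_sum, hJ]
    have g : ∑ c, ∑ e, R a c b e * (ux R x c * x e) = ∑ c, ∑ e, R b c a e * (x c * ux R x e) := by
      rw [Finset.sum_comm]
      refine Finset.sum_congr rfl fun c _ => Finset.sum_congr rfl fun e _ => ?_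
      rw [← hR.pair b c a e]; ring
    rw [g]
  rw [e2, wt_sub, wt_add, wt_sub, wt_sub, wt_smul]
  have h1 : wt (Jm R x) (fun a b => ∑ c, ∑ e, R a c b e * Rc R c e) = mJSR R x := rfl
  have h2 : wt (Jm R x) (fun a b => ∑ c, ∑ e, R a c b e * (x c * ux R x e)) = mJSu R x := by
    unfold wt mJSu
    refine Finset.sum_congr rfl fun a _ => Finset.sum_congr rfl fun b _ => ?_
    congr 1
    refine Finset.sum_congr rfl fun p _ => ?_
    simp only [Finset.sum_mul]
    rw [Finset.sum_comm]
    refine Finset.sum_congr rfl fun d _ => ?_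
    unfold ux
    simp only [Finset.mul_sum]
    exact Finset.sum_congr rfl fun q _ => by ring
  have h3 : wt (Jm R x) (fun a b => ∑ c, ∑ e, R b c a e * (x c * ux R x e)) = mJSu R x := by
    rw [← h2]
    exact wt_symm (Jsymm hR) (fun a b => ∑ c, ∑ e, R a c b e * (x c * ux R x e))
  have h4 : wt (Jm R x) (Jm R x) = mJJ R x := rfl
  have h5 : wt (Jm R x) (fun a b => ∑ c, ∑ e, R a c b e * Jm R x c e) = mJSJ R x := by
    unfold wt mJSJ
    refine Finset.sum_congr rfl fun a _ => Finset.sum_congr rfl fun b _ => ?_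
    simp only [Finset.mul_sum]
    exact Finset.sum_congr rfl fun c _ => Finset.sum_congr rfl fun d _ => by ring
  rw [h1, h2, h3, h4, h5]
  ring

end

section
variable {x : Fin 6 → ℝ} (hx : ∑ a, x a ^ 2 = 1) {A : Fin 6 → Fin 6 → ℝ}
  (hA : ∀ a b, A b a = A a b) (hAx : ∀ b, ∑ a, x a * A a b = 0)

include hAx in
theorem prA (b d : Fin 6) : ∑ a, pr x b a * A a d = A b d := by
  rw [prsum (x := x) b (fun a => A a d), hAx d, mul_zero, sub_zero]

include hA hAx in
theorem prA' (b d : Fin 6) : ∑ a, pr x b a * A d a = A b d := by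
  rw [← prA hAx b d]
  exact Finset.sum_congr rfl fun a _ => by rw [hA a d]

include hx hA hAx in
theorem KNKN (a b : Fin 6) : ∑ c, ∑ d, ∑ e, KN x A a c d e * KN x A b c d e =
    2 * (∑ c, ∑ e, A c e * A c e) * pr x a b + 2 * (∑ c, A a c * A b c)
      + 4 * (∑ c, A c c) * A a b := by
  rw [Qlem (KNcurv hA) (KNkill hx hAx) (KNtr hx hA hAx)]
  have e : ∀ c e, KN x A a c b e * A c e = pr x a b * (A c e * A c e)
      - pr x a e * A c e * A c b + pr x c e * A c e * A a b - pr x c b * A c e * A a e := by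
    intro c e; simp only [KN]; rw [prsymm b c]; ring
  simp only [e, Finset.sum_add_distrib, Finset.sum_sub_distrib, ← Finset.mul_sum]
  have g1 : ∑ c, ∑ e, pr x a e * A c e * A c b = ∑ c, A a c * A b c := by
    refine Finset.sum_congr rfl fun c _ => ?_
    rw [← Finset.sum_mul, prA' hA hAx, hA c b]
  have g2 : ∑ c, ∑ e, pr x c e * A c e * A a b = (∑ c, A c c) * A a b := by
    rw [Finset.sum_mul]
    refine Finset.sum_congr rfl fun c _ => ?_
    rw [← Finset.sum_mul, prA' hA hAx]
  have g3 : ∑ c, ∑ e, pr x c b * A c e * A a e = ∑ c, A a c * A b c := by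
    rw [Finset.sum_comm]
    refine Finset.sum_congr rfl fun e _ => ?_
    rw [← Finset.sum_mul]
    have : ∑ c, pr x c b * A c e = A b e := by
      rw [← prA hAx b e]
      exact Finset.sum_congr rfl fun c _ => by rw [prsymm]
    rw [this]; ring
  have g4 : ∑ d, (3 * A a d + (∑ a, A a a) * pr x a d) * A b d =
      3 * (∑ c, A a c * A b c) + (∑ c, A c c) * A a b := by
    have t : ∀ d, (3 * A a d + (∑ a, A a a) * pr x a d) * A b d =
        3 * (A a d * A b d) + (∑ a, A a a) * (pr x a d * A b d) := by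
      intro d; ring
    simp only [t, Finset.sum_add_distrib, ← Finset.mul_sum, prA' hA hAx]
  rw [g1, g2, g3, g4]
  ring

end

section
variable {R : Ten} (hR : IsCurv R) {x : Fin 6 → ℝ} (hx : ∑ a, x a ^ 2 = 1)

/-- minus the Schouten tensor of `R1` -/
noncomputable def Am (R : Ten) (x : Fin 6 → ℝ) (b d : Fin 6) : ℝ :=
  - (1 / 3) * rho R x b d + (sc R - 2 * jx R x) / 24 * pr x b d

/-- the Weyl part of the restriction -/
noncomputable def Wt (R : Ten) (x : Fin 6 → ℝ) : Ten := fun a b c d =>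
  R1 R x a b c d + KN x (Am R x) a b c d

include hR in
theorem Amsymm (a b : Fin 6) : Am R x b a = Am R x a b := by
  unfold Am; rw [rhosymm hR a b, prsymm a b]

include hR hx in
theorem Amkill (b : Fin 6) : ∑ a, x a * Am R x a b = 0 := by
  have t : ∀ a, x a * Am R x a b = - (1 / 3) * (x a * rho R x a b)
      + (sc R - 2 * jx R x) / 24 * (x a * pr x a b) := by
    intro a; unfold Am; ring
  simp only [t, Finset.sum_add_distrib, ← Finset.mul_sum, rhokill hR hx, prkill hx, mul_zero,
    add_zero]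

omit hR in
include hx in
theorem Amtr : ∑ a, Am R x a a = - (sc R - 2 * jx R x) / 8 := by
  unfold Am
  simp only [Finset.sum_add_distrib, ← Finset.mul_sum, rhotr hx, prtr hx]
  ring

include hR hx in
theorem AmAm (a b : Fin 6) : ∑ c, Am R x a c * Am R x b c = 1 / 9 * rr R x a b
    - (sc R - 2 * jx R x) / 36 * rho R x a b + (sc R - 2 * jx R x) ^ 2 / 576 * pr x a b := by
  have hk := rhokill hR hx
  have t : ∀ c, Am R x a c * Am R x b c = 1 / 9 * (rho R x a c * rho R x b c)
      - (sc R - 2 * jx R x) / 72 * (pr x b c * rho R x a c)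
      - (sc R - 2 * jx R x) / 72 * (pr x a c * rho R x b c)
      + (sc R - 2 * jx R x) ^ 2 / 576 * (pr x a c * pr x b c) := by
    intro c; unfold Am; ring
  simp only [t, Finset.sum_add_distrib, Finset.sum_sub_distrib, ← Finset.mul_sum]
  have g1 : ∑ c, rho R x a c * rho R x b c = rr R x a b := rfl
  have g2 : ∑ c, pr x b c * rho R x a c = rho R x a b := by
    rw [prA' (rhosymm hR) hk, rhosymm hR]
  have g3 : ∑ c, pr x a c * rho R x b c = rho R x a b := by
    rw [prA' (rhosymm hR) hk]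
  have g4 : ∑ c, pr x a c * pr x b c = pr x a b := by
    rw [prA' (A := pr x) prsymm (prkill hx)]
  rw [g1, g2, g3, g4]
  ring

include hR in
theorem TTsymm (a b : Fin 6) : TT R x b a = TT R x a b := by
  have hF := R1curv hR (x := x)
  unfold TT
  rw [Finset.sum_comm]
  refine Finset.sum_congr rfl fun c _ => Finset.sum_congr rfl fun e _ => ?_
  rw [hF.pair a c b e, rhosymm hR c e]

include hR hx in
theorem TTtr : ∑ a, TT R x a a = ∑ a, rr R x a a := by
  have h := R1tr hR hx
  unfold TT rr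
  rw [r1]
  refine Finset.sum_congr rfl fun c _ => Finset.sum_congr rfl fun e _ => ?_
  rw [← Finset.sum_mul, h]

include hR hx in
theorem RA (a b : Fin 6) : ∑ c, ∑ e, R1 R x a c b e * Am R x c e =
    - (1 / 3) * TT R x a b + (sc R - 2 * jx R x) / 24 * rho R x a b := by
  have hF := R1curv hR (x := x)
  have hFx := R1kill hR hx
  have hτ := R1tr hR hx
  have t : ∀ c e, R1 R x a c b e * Am R x c e = - (1 / 3) * (R1 R x a c b e * rho R x c e)
      + (sc R - 2 * jx R x) / 24 * (pr x c e * R1 R x a c b e) := by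
    intro c e; unfold Am; ring
  simp only [t, Finset.sum_add_distrib, ← Finset.mul_sum, p4 hF hFx]
  rw [t1 hF hτ]
  rfl

include hR hx in
theorem rA (a b : Fin 6) : ∑ d, rho R x a d * Am R x b d =
    - (1 / 3) * rr R x a b + (sc R - 2 * jx R x) / 24 * rho R x a b := by
  have hk := rhokill hR hx
  have t : ∀ d, rho R x a d * Am R x b d = - (1 / 3) * (rho R x a d * rho R x b d)
      + (sc R - 2 * jx R x) / 24 * (pr x b d * rho R x a d) := by
    intro d; unfold Am; ring
  simp only [t, Finset.sum_add_distrib, ← Finset.mul_sum]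
  rw [prA' (rhosymm hR) hk, rhosymm hR]
  rfl

include hR hx in
theorem SSW (a b : Fin 6) : SS (Wt R x) a b = SS (R1 R x) a b - 4 / 3 * TT R x a b
    - 10 / 9 * rr R x a b + 4 / 9 * (sc R - 2 * jx R x) * rho R x a b
    + (2 / 9 * (∑ a, rr R x a a) - (sc R - 2 * jx R x) ^ 2 / 18) * pr x a b := by
  have hF := R1curv hR (x := x)
  have hFx := R1kill hR hx
  have hτ := R1tr hR hx
  have t : ∀ c d e, Wt R x a c d e * Wt R x b c d e = R1 R x a c d e * R1 R x b c d e
      + R1 R x a c d e * KN x (Am R x) b c d e + R1 R x b c d e * KN x (Am R x) a c d e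
      + KN x (Am R x) a c d e * KN x (Am R x) b c d e := by
    intro c d e; unfold Wt; ring
  have hP : ∑ c, ∑ e, Am R x c e * Am R x c e = 1 / 9 * (∑ a, rr R x a a)
      - (sc R - 2 * jx R x) ^ 2 / 36 + 5 * (sc R - 2 * jx R x) ^ 2 / 576 := by
    simp only [AmAm hR hx, Finset.sum_add_distrib, Finset.sum_sub_distrib, ← Finset.mul_sum,
      rhotr hx, prtr hx]
    ring
  unfold SS
  simp only [t, Finset.sum_add_distrib]
  rw [Qlem hF hFx hτ a b, Qlem hF hFx hτ b a, KNKN hx (Amsymm hR) (Amkill hR hx), RA hR hx,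
    RA hR hx, rA hR hx, rA hR hx, Amtr hx, AmAm hR hx, hP, TTsymm hR a b, rhosymm hR a b]
  have h1 : rr R x b a = rr R x a b := by
    unfold rr; exact Finset.sum_congr rfl fun d _ => by ring
  rw [h1]
  unfold Am
  ring

end

end B2

open B2 in
theorem weyl_part {R : Ten} (hR : IsCurv R) {x : Fin 6 → ℝ} (hx : ∑ a, x a ^ 2 = 1) :
    ∃ W : Ten, IsCurv W ∧ (∀ b c d, ∑ a, x a * W a b c d = 0) ∧
      (∀ b d, ∑ a, W a b a d = 0) ∧ nS W = nW R x ∧
      jx R x * nS W - 3 * ∑ a, ∑ b, Jm R x a b * SS W a b = g221 R x := by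
  have hF := R1curv hR (x := x)
  have hK := KNcurv (x := x) (Amsymm hR (x := x))
  have hnS : nS (Wt R x) = nW R x := by
    have e0 : nS (Wt R x) = ∑ a, SS (Wt R x) a a := rfl
    have e1 : nS (R1 R x) = ∑ a, SS (R1 R x) a a := rfl
    rw [e0]
    simp only [SSW hR hx, Finset.sum_add_distrib, Finset.sum_sub_distrib, ← Finset.mul_sum,
      TTtr hR hx, rhotr hx, prtr hx]
    rw [← e1, nS_R1 hR hx, rho_norm hR hx]
    unfold nW
    ring
  refine ⟨Wt R x, ?_, ?_, ?_, hnS, ?_⟩
  · constructor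
    · intro a b c d; unfold Wt; rw [hF.anti, hK.anti]; ring
    · intro a b c d; unfold Wt; rw [hF.pair, hK.pair]
    · intro a b c d; unfold Wt
      linear_combination hF.bianchi a b c d + hK.bianchi a b c d
  · intro b c d
    unfold Wt
    simp only [mul_add, Finset.sum_add_distrib]
    rw [R1kill hR hx, KNkill hx (Amkill hR hx), add_zero]
  · intro b d
    unfold Wt
    simp only [Finset.sum_add_distrib]
    rw [R1tr hR hx, KNtr hx (Amsymm hR) (Amkill hR hx), Amtr hx]
    unfold Am
    ring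
  · have hw : ∑ a, ∑ b, Jm R x a b * SS (Wt R x) a b = wt (Jm R x) (SS (Wt R x)) := rfl
    have e : SS (Wt R x) = fun a b => SS (R1 R x) a b - 4 / 3 * TT R x a b
        - 10 / 9 * rr R x a b + 4 / 9 * (sc R - 2 * jx R x) * rho R x a b
        + (2 / 9 * (∑ a, rr R x a a) - (sc R - 2 * jx R x) ^ 2 / 18) * pr x a b := by
      funext a b; exact SSW hR hx a b
    rw [hw, hnS, e, wt_add, wt_add, wt_sub, wt_sub, wt_smul, wt_smul, wt_smul, wt_smul,
      wt_SS_R1 hR hx, wt_TT hR hx, wt_rr hR hx, wt_rho hR, wt_pr hR, rho_norm hR hx]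
    unfold nW g221
    ring

end Hopf6
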