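import Pool.Agent.H933R2.Hopf.Defs

/-!
# The Weyl part of the restriction of a curvature tensor to a hyperplane (task B2)
-/

open scoped BigOperators

namespace Hopf6

namespace B2

/-! ### generic reordering of sums -/

theorem s4_1 (F : Ten) : ∑ a, ∑ b, ∑ c, ∑ d, F a b c d = ∑ b, ∑ c, ∑ d, ∑ a, F a b c d := by
  rw [Finset.sum_comm]
  refine Finset.sum_congr rfl fun b _ => ?_
  rw [Finset.sum_comm]
  refine Finset.sum_congr rfl fun c _ => ?_
  rw [Finset.sum_comm]

theorem s4_2 (F : Ten) : ∑ a, ∑ b, ∑ c, ∑ d, F a b c d = ∑ a, ∑ c, ∑ d, ∑ b, F a b c d := by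
  refine Finset.sum_congr rfl fun a _ => ?_
  rw [Finset.sum_comm]
  refine Finset.sum_congr rfl fun c _ => ?_
  rw [Finset.sum_comm]

theorem s4_3 (F : Ten) : ∑ a, ∑ b, ∑ c, ∑ d, F a b c d = ∑ a, ∑ b, ∑ d, ∑ c, F a b c d := by
  refine Finset.sum_congr rfl fun a _ => Finset.sum_congr rfl fun b _ => ?_
  rw [Finset.sum_comm]

theorem mulsum {f g : Fin 6 → ℝ} (k : ℝ) (h : ∀ a, f a = g a * k) :
    ∑ a, f a = (∑ a, g a) * k := by
  rw [Finset.sum_mul]; exact Finset.sum_congr rfl fun a _ => h a

/-! ### contractions with `x` -/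

section
variable {R : Ten} (hR : IsCurv R) {x : Fin 6 → ℝ} (hx : ∑ a, x a ^ 2 = 1)

/-- `R(x, b, c, d)` -/
def Hx (R : Ten) (x : Fin 6 → ℝ) (b c d : Fin 6) : ℝ := ∑ a, x a * R a b c d

include hR

theorem c2 (a c d : Fin 6) : ∑ b, x b * R a b c d = - Hx R x a c d := by
  unfold Hx
  rw [← Finset.sum_neg_distrib]
  refine Finset.sum_congr rfl fun b _ => ?_
  rw [hR.anti b a c d]; ring

theorem c3 (a b d : Fin 6) : ∑ c, x c * R a b c d = Hx R x d a b := by
  unfold Hx
  refine Finset.sum_congr rfl fun c _ => ?_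
  rw [hR.pair c d a b]

theorem c4 (a b c : Fin 6) : ∑ d, x d * R a b c d = - Hx R x c a b := by
  unfold Hx
  rw [← Finset.sum_neg_distrib]
  refine Finset.sum_congr rfl fun d _ => ?_
  rw [← hR.pair a b c d, hR.anti d c a b]; ring

theorem Hanti (b c d : Fin 6) : Hx R x b d c = - Hx R x b c d := by
  unfold Hx
  rw [← Finset.sum_neg_distrib]
  refine Finset.sum_congr rfl fun a _ => ?_
  rw [← hR.pair a b d c, hR.anti c d a b, hR.pair a b c d]; ring

theorem Hbianchi (a b c : Fin 6) : Hx R x c a b + Hx R x a b c + Hx R x b c a = 0 := by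
  unfold Hx
  rw [← Finset.sum_add_distrib, ← Finset.sum_add_distrib]
  refine Finset.sum_eq_zero fun d _ => ?_
  have h := hR.bianchi a b c d
  have e1 : R d c a b = - R a b c d := by rw [hR.anti c d a b, hR.pair a b c d]
  have e2 : R d a b c = - R b c a d := by rw [hR.anti a d b c, hR.pair b c a d]
  have e3 : R d b c a = - R c a b d := by rw [hR.anti b d c a, hR.pair c a b d]
  rw [e1, e2, e3]; linear_combination (- x d) * h


omit hR in
theorem Jdef (b d : Fin 6) : Jm R x b d = ∑ c, x c * Hx R x b c d := by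
  unfold Jm Hx
  rw [Finset.sum_comm]
  refine Finset.sum_congr rfl fun c _ => ?_
  rw [Finset.mul_sum]
  exact Finset.sum_congr rfl fun a _ => by ring

theorem Jsymm (b d : Fin 6) : Jm R x d b = Jm R x b d := by
  unfold Jm
  rw [Finset.sum_comm]
  refine Finset.sum_congr rfl fun c _ => Finset.sum_congr rfl fun a _ => ?_
  rw [hR.pair c b a d]; ring

theorem H1 (c d : Fin 6) : ∑ b, x b * Hx R x b c d = 0 := by
  have h : ∑ b, x b * Hx R x b c d = - ∑ b, x b * Hx R x b c d := by
    calc ∑ b, x b * Hx R x b c d = ∑ b, ∑ a, x b * (x a * R a b c d) := by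
          simp only [Hx, Finset.mul_sum]
      _ = ∑ a, ∑ b, x b * (x a * R a b c d) := Finset.sum_comm
      _ = - ∑ b, x b * Hx R x b c d := by
          rw [← Finset.sum_neg_distrib]
          refine Finset.sum_congr rfl fun a _ => ?_
          simp only [Hx, Finset.mul_sum]
          rw [← Finset.sum_neg_distrib]
          refine Finset.sum_congr rfl fun b _ => ?_
          rw [hR.anti b a c d]; ring
  linarith

omit hR in
theorem H2 (b d : Fin 6) : ∑ c, x c * Hx R x b c d = Jm R x b d := (Jdef b d).symm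

theorem H3 (b c : Fin 6) : ∑ d, x d * Hx R x b c d = - Jm R x b c := by
  rw [Jdef b c, ← Finset.sum_neg_distrib]
  refine Finset.sum_congr rfl fun d _ => ?_
  rw [Hanti hR b c d]; ring

theorem J1 (d : Fin 6) : ∑ b, x b * Jm R x b d = 0 := by
  calc ∑ b, x b * Jm R x b d = ∑ b, ∑ c, x b * (x c * Hx R x b c d) := by
        refine Finset.sum_congr rfl fun b _ => ?_
        rw [Jdef, Finset.mul_sum]
    _ = ∑ c, x c * ∑ b, x b * Hx R x b c d := by
        rw [Finset.sum_comm]
        refine Finset.sum_congr rfl fun c _ => ?_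
        rw [Finset.mul_sum]
        exact Finset.sum_congr rfl fun b _ => by ring
    _ = 0 := Finset.sum_eq_zero fun c _ => by rw [H1 hR, mul_zero]

theorem J2 (b : Fin 6) : ∑ d, x d * Jm R x b d = 0 := by
  rw [← J1 hR (x := x) b]
  exact Finset.sum_congr rfl fun d _ => by rw [Jsymm hR]

theorem Rcsymm (a b : Fin 6) : Rc R b a = Rc R a b := by
  unfold Rc
  exact Finset.sum_congr rfl fun c _ => hR.pair a c b c

theorem tr1 (b d : Fin 6) : ∑ a, R a b a d = Rc R b d := by
  unfold Rc
  refine Finset.sum_congr rfl fun a _ => ?_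
  rw [hR.anti b a a d, ← hR.pair b a a d, hR.anti d a b a, hR.pair b a d a]; ring

omit hR in
theorem usum (a : Fin 6) : ∑ b, x b * Rc R a b = ux R x a := by
  unfold ux
  exact Finset.sum_congr rfl fun b _ => by ring

theorem usum' (a : Fin 6) : ∑ b, x b * Rc R b a = ux R x a := by
  rw [← usum (R := R) (x := x) a]
  exact Finset.sum_congr rfl fun b _ => by rw [Rcsymm hR]

omit hR in
theorem jsum : ∑ a, x a * ux R x a = jx R x := by
  unfold jx ux
  refine Finset.sum_congr rfl fun a _ => ?_
  rw [Finset.mul_sum]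
  exact Finset.sum_congr rfl fun b _ => by ring

omit hR in
theorem trJ : ∑ a, Jm R x a a = jx R x := by
  unfold jx Jm
  calc ∑ a, ∑ p, ∑ q, R p a q a * (x p * x q) = ∑ p, ∑ q, ∑ a, R p a q a * (x p * x q) := by
        rw [Finset.sum_comm]
        exact Finset.sum_congr rfl fun p _ => Finset.sum_comm
    _ = _ := by
        refine Finset.sum_congr rfl fun p _ => Finset.sum_congr rfl fun q _ => ?_
        unfold Rc
        rw [Finset.sum_mul]


theorem Htr (d : Fin 6) : ∑ a, Hx R x a a d = - ux R x d := by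
  calc ∑ a, Hx R x a a d = ∑ p, x p * (∑ a, R p a a d) := by
        unfold Hx
        rw [Finset.sum_comm]
        exact Finset.sum_congr rfl fun p _ => by rw [Finset.mul_sum]
    _ = ∑ p, x p * (- Rc R p d) := by
        refine Finset.sum_congr rfl fun p _ => ?_
        rw [← tr1 hR p d, ← Finset.sum_neg_distrib]
        congr 1
        exact Finset.sum_congr rfl fun a _ => by rw [hR.anti a p a d]
    _ = - ∑ p, x p * Rc R p d := by
        rw [← Finset.sum_neg_distrib]
        exact Finset.sum_congr rfl fun p _ => by ring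
    _ = _ := by rw [usum' hR]

end

/-- the projection of `R` to `x^⊥` -/
def R1 (R : Ten) (x : Fin 6 → ℝ) : Ten := fun a b c d =>
  R a b c d - x a * Hx R x b c d + x b * Hx R x a c d - x c * Hx R x d a b + x d * Hx R x c a b
    + x a * x c * Jm R x b d - x a * x d * Jm R x b c - x b * x c * Jm R x a d
    + x b * x d * Jm R x a c

/-- Ricci contraction of `R1` -/
noncomputable def rho (R : Ten) (x : Fin 6 → ℝ) (b d : Fin 6) : ℝ :=
  Rc R b d - x b * ux R x d - ux R x b * x d + jx R x * (x b * x d) - Jm R x b d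

section
variable {R : Ten} (hR : IsCurv R) {x : Fin 6 → ℝ} (hx : ∑ a, x a ^ 2 = 1)
include hR

theorem R1curv : IsCurv (R1 R x) where
  anti a b c d := by
    have h1 := hR.anti a b c d
    have h2 := Hanti hR (x := x) d a b
    have h3 := Hanti hR (x := x) c a b
    simp only [R1]
    linear_combination h1 - x c * h2 + x d * h3
  pair a b c d := by
    have h1 := hR.pair a b c d
    have s1 := Jsymm hR (x := x) b d
    have s2 := Jsymm hR (x := x) b c
    have s3 := Jsymm hR (x := x) a d
    have s4 := Jsymm hR (x := x) a c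
    simp only [R1]
    linear_combination h1 + x a * x c * s1 - x a * x d * s2 - x b * x c * s3 + x b * x d * s4
  bianchi a b c d := by
    have h1 := hR.bianchi a b c d
    have h2 := Hbianchi hR (x := x) a b c
    have s1 := Jsymm hR (x := x) b c
    have s2 := Jsymm hR (x := x) a b
    have s3 := Jsymm hR (x := x) a c
    have g1 := Hanti hR (x := x) d a c
    have g2 := Hanti hR (x := x) b a d
    have g3 := Hanti hR (x := x) c a d
    have g4 := Hanti hR (x := x) c b d
    have k1 := Hbianchi hR (x := x) a b d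
    have k2 := Hbianchi hR (x := x) b c d
    have k3 := Hbianchi hR (x := x) a c d
    simp only [R1]
    linear_combination h1 + x d * h2 - x a * k2 + x a * g4 + x b * k3 - x b * g3 - x b * g1
      - x c * k1 + x c * g2 + x a * x d * s1 - x b * x d * s3 + x c * x d * s2

include hx in
theorem R1kill (b c d : Fin 6) : ∑ a, x a * R1 R x a b c d = 0 := by
  have h1 : ∑ a, x a * R a b c d = Hx R x b c d := rfl
  have h3 := H1 hR (x := x) c d
  have h4 := H2 (R := R) (x := x) d b
  have h5 := H2 (R := R) (x := x) c b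
  have h6 := J1 hR (x := x) d
  have h7 := J1 hR (x := x) c
  have s1 := Jsymm hR (x := x) b d
  have s2 := Jsymm hR (x := x) b c
  simp only [R1, Fin.sum_univ_six] at *
  linear_combination h1 + (- Hx R x b c d + x c * Jm R x b d - x d * Jm R x b c) * hx + x b * h3
    - x c * h4 + x d * h5 - x b * x c * h6 + x b * x d * h7 - x c * s1 + x d * s2

include hx in
theorem R1tr (b d : Fin 6) : ∑ a, R1 R x a b a d = rho R x b d := by
  have h1 := tr1 hR b d
  have h2 := H2 (R := R) (x := x) b d
  have h3 := Htr hR (x := x) d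
  have h4 := H2 (R := R) (x := x) d b
  have h5 := Htr hR (x := x) b
  have h6 := J2 hR (x := x) b
  have h7 := J1 hR (x := x) d
  have h8 := trJ (R := R) (x := x)
  have s1 := Jsymm hR (x := x) b d
  simp only [R1, rho, Fin.sum_univ_six] at *
  linear_combination h1 - h2 + x b * h3 - h4 + x d * h5 + Jm R x b d * hx - x d * h6 - x b * h7
    + x b * x d * h8 - s1

theorem rhosymm (b d : Fin 6) : rho R x d b = rho R x b d := by
  have s1 := Jsymm hR (x := x) b d
  have s2 := Rcsymm hR b d
  simp only [rho]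
  linear_combination s2 - s1

include hx in
theorem rhokill (d : Fin 6) : ∑ b, x b * rho R x b d = 0 := by
  have h1 := usum' hR (x := x) d
  have h2 := jsum (R := R) (x := x)
  have h3 := J1 hR (x := x) d
  simp only [rho, Fin.sum_univ_six] at *
  linear_combination h1 - (ux R x d) * hx - x d * h2 + jx R x * x d * hx - h3

omit hR in
include hx in
theorem rhotr : ∑ b, rho R x b b = sc R - 2 * jx R x := by
  have h1 : ∑ b, Rc R b b = sc R := rfl
  have h2 := jsum (R := R) (x := x)
  have h3 := trJ (R := R) (x := x)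
  simp only [rho, Fin.sum_univ_six] at *
  linear_combination h1 - 2 * h2 + jx R x * hx - h3


end

/-! ### the projection `pr` -/

section
variable {x : Fin 6 → ℝ} (hx : ∑ a, x a ^ 2 = 1)

theorem prsymm (a b : Fin 6) : pr x b a = pr x a b := by
  unfold pr
  by_cases h : a = b
  · subst h; rfl
  · rw [if_neg h, if_neg (Ne.symm h)]; ring

theorem prsum (a : Fin 6) (F : Fin 6 → ℝ) :
    ∑ b, pr x a b * F b = F a - x a * ∑ b, x b * F b := by
  unfold pr
  simp only [sub_mul, ite_mul, one_mul, zero_mul, Finset.sum_sub_distrib, Finset.sum_ite_eq,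
    Finset.mem_univ, if_true, mul_assoc, Finset.mul_sum]

include hx in
theorem prkill (a : Fin 6) : ∑ b, x b * pr x b a = 0 := by
  have h := prsum (x := x) a x
  have e : ∑ b, x b * x b = 1 := by
    rw [← hx]; exact Finset.sum_congr rfl fun b _ => by ring
  rw [e, mul_one, sub_self] at h
  rw [← h]
  exact Finset.sum_congr rfl fun b _ => by rw [prsymm]; ring

include hx in
theorem prtr : ∑ a, pr x a a = 5 := by
  unfold pr
  simp only [if_true, Finset.sum_sub_distrib, Finset.sum_const, Finset.card_univ, Fintype.card_fin]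
  have e : ∑ b, x b * x b = 1 := by
    rw [← hx]; exact Finset.sum_congr rfl fun b _ => by ring
  rw [e]; norm_num

end

/-- Kulkarni-Nomizu product of `pr x` and `A` -/
def KN (x : Fin 6 → ℝ) (A : Fin 6 → Fin 6 → ℝ) : Ten := fun a b c d =>
  pr x a c * A b d - pr x a d * A b c + pr x b d * A a c - pr x b c * A a d

section
variable {x : Fin 6 → ℝ} (hx : ∑ a, x a ^ 2 = 1) {A : Fin 6 → Fin 6 → ℝ}
  (hA : ∀ a b, A b a = A a b) (hAx : ∀ b, ∑ a, x a * A a b = 0)

include hA in
theorem KNcurv : IsCurv (KN x A) where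
  anti a b c d := by simp only [KN]; ring
  pair a b c d := by
    simp only [KN]
    rw [prsymm a c, hA b d, prsymm b c, hA a d, prsymm b d, hA a c, prsymm a d, hA b c]; ring
  bianchi a b c d := by
    simp only [KN]
    rw [prsymm a b, prsymm a c, prsymm b c, hA a c, hA a b, hA b c]; ring

include hx hAx in
theorem KNkill (b c d : Fin 6) : ∑ a, x a * KN x A a b c d = 0 := by
  have h1 := prkill hx c
  have h2 := prkill hx d
  have h3 := hAx c
  have h4 := hAx d
  simp only [KN, Fin.sum_univ_six] at *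
  linear_combination A b d * h1 - A b c * h2 + pr x b d * h3 - pr x b c * h4

include hx hA hAx in
theorem KNtr (b d : Fin 6) : ∑ a, KN x A a b a d = 3 * A b d + (∑ a, A a a) * pr x b d := by
  have h1 := prtr hx
  have h2 : ∑ a, pr x a d * A b a = A b d := by
    have h := prsum (x := x) d (fun a => A b a)
    have e : ∑ a, x a * A b a = 0 := by
      rw [← hAx b]; exact Finset.sum_congr rfl fun a _ => by rw [hA a b]
    rw [e, mul_zero, sub_zero] at h
    rw [← h]
    exact Finset.sum_congr rfl fun a _ => by rw [prsymm d a]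
  have h3 : ∑ a, pr x b a * A a d = A b d := by
    have h := prsum (x := x) b (fun a => A a d)
    rw [hAx d, mul_zero, sub_zero] at h
    exact h
  simp only [KN, Finset.sum_add_distrib, Finset.sum_sub_distrib]
  rw [h2, h3, ← Finset.sum_mul, ← Finset.mul_sum, h1]
  ring

end

/-! ### contractions of curvature tensors killing `x` -/

section
variable {F : Ten} (hF : IsCurv F) {x : Fin 6 → ℝ} (hFx : ∀ b c d, ∑ a, x a * F a b c d = 0)
  {τ : Fin 6 → Fin 6 → ℝ} (hτ : ∀ b d, ∑ a, F a b a d = τ b d) {A : Fin 6 → Fin 6 → ℝ}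

include hF in
theorem anti' (a b c d : Fin 6) : F a b d c = - F a b c d := by
  rw [← hF.pair a b d c, hF.anti c d a b, hF.pair a b c d]

include hF hFx in
theorem k2 (a c d : Fin 6) : ∑ b, x b * F a b c d = 0 := by
  rw [c2 hF]; unfold Hx; rw [hFx]; simp

include hF hFx in
theorem k3 (a b d : Fin 6) : ∑ c, x c * F a b c d = 0 := by
  rw [c3 hF]; unfold Hx; rw [hFx]

include hF hFx in
theorem k4 (a b c : Fin 6) : ∑ d, x d * F a b c d = 0 := by
  rw [c4 hF]; unfold Hx; rw [hFx]; simp

include hF hFx in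
theorem p3 (e a b d : Fin 6) : ∑ c, pr x e c * F a b c d = F a b e d := by
  rw [prsum e (fun c => F a b c d), k3 hF hFx, mul_zero, sub_zero]

include hF hFx in
theorem p4 (e a b c : Fin 6) : ∑ d, pr x e d * F a b c d = F a b c e := by
  rw [prsum e (fun d => F a b c d), k4 hF hFx, mul_zero, sub_zero]

include hF hτ in
theorem t1 (a d : Fin 6) : ∑ c, F a c d c = τ a d := by
  rw [← hτ]
  refine Finset.sum_congr rfl fun c _ => ?_
  rw [hF.anti c a d c, anti' hF c a c d]; ring

include hF hτ in
theorem t2 (a d : Fin 6) : ∑ c, F a c c d = - τ a d := by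
  rw [← hτ, ← Finset.sum_neg_distrib]
  refine Finset.sum_congr rfl fun c _ => ?_
  rw [hF.anti c a c d]

/-- partial contraction with a Kulkarni-Nomizu product -/
theorem Qlem (hF : IsCurv F) (hFx : ∀ b c d, ∑ a, x a * F a b c d = 0)
    (hτ : ∀ b d, ∑ a, F a b a d = τ b d) (a b : Fin 6) :
    ∑ c, ∑ d, ∑ e, F a c d e * KN x A b c d e =
      2 * (∑ c, ∑ e, F a c b e * A c e) + 2 * ∑ d, τ a d * A b d := by
  have i1 : ∑ c, ∑ d, ∑ e, F a c d e * (pr x b d * A c e) = ∑ c, ∑ e, F a c b e * A c e := by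
    refine Finset.sum_congr rfl fun c _ => ?_
    rw [Finset.sum_comm]
    refine Finset.sum_congr rfl fun e _ => ?_
    rw [← p3 hF hFx b a c e, Finset.sum_mul]
    exact Finset.sum_congr rfl fun d _ => by ring
  have i2 : ∑ c, ∑ d, ∑ e, F a c d e * (pr x b e * A c d) = - ∑ c, ∑ e, F a c b e * A c e := by
    rw [← Finset.sum_neg_distrib]
    refine Finset.sum_congr rfl fun c _ => ?_
    rw [← Finset.sum_neg_distrib]
    refine Finset.sum_congr rfl fun d _ => ?_
    have h := p4 hF hFx b a c d
    rw [anti' hF a c b d] at h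
    rw [← neg_mul, ← h, Finset.sum_mul]
    exact Finset.sum_congr rfl fun e _ => by ring
  have i3 : ∑ c, ∑ d, ∑ e, F a c d e * (pr x c e * A b d) = ∑ d, τ a d * A b d := by
    rw [Finset.sum_comm]
    refine Finset.sum_congr rfl fun d _ => ?_
    rw [← t1 hF hτ a d, Finset.sum_mul]
    refine Finset.sum_congr rfl fun c _ => ?_
    rw [← p4 hF hFx c a c d, Finset.sum_mul]
    exact Finset.sum_congr rfl fun e _ => by ring
  have i4 : ∑ c, ∑ d, ∑ e, F a c d e * (pr x c d * A b e) = - ∑ d, τ a d * A b d := by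
    rw [← Finset.sum_neg_distrib]
    calc ∑ c, ∑ d, ∑ e, F a c d e * (pr x c d * A b e)
        = ∑ e, ∑ c, ∑ d, F a c d e * (pr x c d * A b e) := by
          rw [Finset.sum_comm]
          rw [Finset.sum_comm]
          rw [show (∑ e, ∑ c, ∑ d, F a c d e * (pr x c d * A b e)) =
            ∑ c, ∑ e, ∑ d, F a c d e * (pr x c d * A b e) from Finset.sum_comm]
          exact Finset.sum_congr rfl fun c _ => Finset.sum_comm
      _ = _ := by
          refine Finset.sum_congr rfl fun e _ => ?_
          rw [← neg_mul, ← t2 hF hτ a e, Finset.sum_mul]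
          refine Finset.sum_congr rfl fun c _ => ?_
          rw [← p3 hF hFx c a c e, Finset.sum_mul]
          exact Finset.sum_congr rfl fun d _ => by ring
  have e : ∀ c d e, F a c d e * KN x A b c d e = F a c d e * (pr x b d * A c e)
      - F a c d e * (pr x b e * A c d) + F a c d e * (pr x c e * A b d)
      - F a c d e * (pr x c d * A b e) := by
    intro c d e; simp only [KN]; ring
  simp only [e, Finset.sum_add_distrib, Finset.sum_sub_distrib]
  rw [i1, i2, i3, i4]; ring

end

/-! ### weighted traces -/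

/-- `K`-weighted trace of a matrix -/
def wt (K f : Fin 6 → Fin 6 → ℝ) : ℝ := ∑ a, ∑ b, K a b * f a b

theorem wt_add (K f g : Fin 6 → Fin 6 → ℝ) :
    wt K (fun a b => f a b + g a b) = wt K f + wt K g := by
  unfold wt; simp only [mul_add, Finset.sum_add_distrib]

theorem wt_sub (K f g : Fin 6 → Fin 6 → ℝ) :
    wt K (fun a b => f a b - g a b) = wt K f - wt K g := by
  unfold wt; simp only [mul_sub, Finset.sum_sub_distrib]

theorem wt_smul (K f : Fin 6 → Fin 6 → ℝ) (k : ℝ) :
    wt K (fun a b => k * f a b) = k * wt K f := by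
  unfold wt; simp only [Finset.mul_sum]
  exact Finset.sum_congr rfl fun a _ => Finset.sum_congr rfl fun b _ => by ring

theorem wt_x1 {K : Fin 6 → Fin 6 → ℝ} {x : Fin 6 → ℝ} (h : ∀ b, ∑ a, x a * K a b = 0)
    (g : Fin 6 → ℝ) : wt K (fun a b => x a * g b) = 0 := by
  unfold wt
  rw [Finset.sum_comm]
  refine Finset.sum_eq_zero fun b _ => ?_
  calc ∑ a, K a b * (x a * g b) = (∑ a, x a * K a b) * g b := by
        rw [Finset.sum_mul]; exact Finset.sum_congr rfl fun a _ => by ring
    _ = 0 := by rw [h, zero_mul]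

theorem wt_x2 {K : Fin 6 → Fin 6 → ℝ} {x : Fin 6 → ℝ} (h : ∀ a, ∑ b, x b * K a b = 0)
    (g : Fin 6 → ℝ) : wt K (fun a b => g a * x b) = 0 := by
  unfold wt
  refine Finset.sum_eq_zero fun a _ => ?_
  calc ∑ b, K a b * (g a * x b) = (∑ b, x b * K a b) * g a := by
        rw [Finset.sum_mul]; exact Finset.sum_congr rfl fun b _ => by ring
    _ = 0 := by rw [h, zero_mul]

theorem wt_symm {K : Fin 6 → Fin 6 → ℝ} (h : ∀ a b, K b a = K a b)
    (f : Fin 6 → Fin 6 → ℝ) : wt K (fun a b => f b a) = wt K f := by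
  unfold wt
  rw [Finset.sum_comm]
  exact Finset.sum_congr rfl fun a _ => Finset.sum_congr rfl fun b _ => by rw [h a b]

/-- weighted contraction of a product over two vector slots -/
theorem vsum (x : Fin 6 → ℝ) (f g : Fin 6 → Fin 6 → Fin 6 → ℝ) :
    ∑ p, ∑ q, (∑ d, ∑ e, f p d e * g q d e) * (x p * x q) =
      ∑ d, ∑ e, (∑ p, x p * f p d e) * (∑ q, x q * g q d e) := by
  have h : ∀ d e, (∑ p, x p * f p d e) * (∑ q, x q * g q d e) =
      ∑ p, ∑ q, (x p * f p d e) * (x q * g q d e) := fun d e => Finset.sum_mul_sum _ _ _ _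
  simp only [h]
  rw [s4_1 (fun d e p q => (x p * f p d e) * (x q * g q d e)),
    s4_1 (fun e p q d => (x p * f p d e) * (x q * g q d e))]
  refine Finset.sum_congr rfl fun p _ => Finset.sum_congr rfl fun q _ => ?_
  rw [Finset.sum_mul]
  refine Finset.sum_congr rfl fun d _ => ?_
  rw [Finset.sum_mul]
  exact Finset.sum_congr rfl fun e _ => by ring

end B2
end Hopf6
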