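import Pool.Agent.H933R2.Hopf.Comb

/-!
# Certificate for `1 ≤ sec ≤ 4`
-/

open scoped BigOperators

namespace Hopf6

theorem sharp_nonneg {R : Ten} (hR : IsCurv R) {x : Fin 6 → ℝ} (hx : ∑ a, x a ^ 2 = 1)
    (hl : ∀ y, area2 x y ≤ quad R x y) (hu : ∀ y, quad R x y ≤ (4) * area2 x y) :
    0 ≤ comb R ((-1) + (-41/1875) * sc R + (-56543/2430000) * sc R ^ 2 + (62099/607500) * nR R + (-32/405) * nS R) ((82/625) + (353/1944) * sc R + (20617/1215000) * sc R ^ 2 + (-32/405) * nR R + (16/405) * nS R) ((-50996/151875) + (-82711/1215000) * sc R) ((-49/4860)) ((1024/1215) + (119/67500) * sc R) ((15929/60750)) ((-2614/6075) + (-37589/607500) * sc R) ((3187/11250)) ((-62099/303750)) ((64/405)) ((128/405)) ((-64/405)) ((-16/81)) ((-9643/50625)) ((21022/151875)) ((-21022/151875)) ((-16/135)) ((16/135)) ((32/135)) ((64/405)) ((-64/405)) ((-128/405)) x := by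
  have a0 := low_ineq hR hx hl ((1791/2000) + (-287/2000) * jx R x + (13/240) * sc R) (-1601/4500) (-161/1800)
  have a1 := low_ineq hR hx hl ((387414497/183975118) + (42240271/183975118) * jx R x + (-28640575/183975118) * sc R) (82409274/91987559) (9578285/91987559)
  have a2 := low_ineq hR hx hl ((1120158428677/515944917152) + (390290321151/515944917152) * jx R x + (-5349364274/16123278661) * sc R) (-1) (1)
  have a3 := low_ineq hR hx hl ((1343140754785/14434589177747) + (21786197842099/14434589177747) * jx R x + (-3675804332176/14434589177747) * sc R) (0) (0)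
  have a4 := low_ineq hR hx hl ((-20) + (-2) * jx R x + (1) * sc R) (0) (0)
  have b0 := up_ineq hR hx hu ((-1781/2072) + (-195/2072) * jx R x + (19/1036) * sc R) (1093/1036) (-57/1036)
  have b1 := up_ineq hR hx hu ((-7241/5934) + (2353/5934) * jx R x + (-157/989) * sc R) (-1) (1)
  have b2 := up_ineq hR hx hu ((-3185/1522) + (3929/3044) * jx R x + (-885/6088) * sc R) (0) (0)
  have b3 := up_ineq hR hx hu ((-20) + (-2) * jx R x + (1) * sc R) (0) (0)
  have w := weyl_nonneg hR hx hl
  have e : comb R ((-1) + (-41/1875) * sc R + (-56543/2430000) * sc R ^ 2 + (62099/607500) * nR R + (-32/405) * nS R) ((82/625) + (353/1944) * sc R + (20617/1215000) * sc R ^ 2 + (-32/405) * nR R + (16/405) * nS R) ((-50996/151875) + (-82711/1215000) * sc R) ((-49/4860)) ((1024/1215) + (119/67500) * sc R) ((15929/60750)) ((-2614/6075) + (-37589/607500) * sc R) ((3187/11250)) ((-62099/303750)) ((64/405)) ((128/405)) ((-64/405)) ((-16/81)) ((-9643/50625)) ((21022/151875)) ((-21022/151875)) ((-16/135)) ((16/135)) ((32/135)) ((64/405)) ((-64/405))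 ((-128/405)) x =
      (3/5) * (fJ R x ((1791/2000) + (-287/2000) * jx R x + (13/240) * sc R) (-1601/4500) (-161/1800) - f0 R x ((1791/2000) + (-287/2000) * jx R x + (13/240) * sc R) (-1601/4500) (-161/1800))
      + (91987559/1215000000) * (fJ R x ((387414497/183975118) + (42240271/183975118) * jx R x + (-28640575/183975118) * sc R) (82409274/91987559) (9578285/91987559) - f0 R x ((387414497/183975118) + (42240271/183975118) * jx R x + (-28640575/183975118) * sc R) (82409274/91987559) (9578285/91987559))
      + (32246557322/13970610523125) * (fJ R x ((1120158428677/515944917152) + (390290321151/515944917152) * jx R x + (-5349364274/16123278661) * sc R) (-1) (1) - f0 R x ((1120158428677/515944917152) + (390290321151/515944917152) * jx R x + (-5349364274/16123278661) * sc R) (-1) (1))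
      + (245388016021699/417915382893120000) * (fJ R x ((1343140754785/14434589177747) + (21786197842099/14434589177747) * jx R x + (-3675804332176/14434589177747) * sc R) (0) (0) - f0 R x ((1343140754785/14434589177747) + (21786197842099/14434589177747) * jx R x + (-3675804332176/14434589177747) * sc R) (0) (0))
      + (88319829330607/7015210340385042000) * (fJ R x ((-20) + (-2) * jx R x + (1) * sc R) (0) (0) - f0 R x ((-20) + (-2) * jx R x + (1) * sc R) (0) (0))
      + (259/1250) * ((4) * f0 R x ((-1781/2072) + (-195/2072) * jx R x + (19/1036) * sc R) (1093/1036) (-57/1036) - fJ R x ((-1781/2072) + (-195/2072) * jx R x + (19/1036) * sc R) (1093/1036) (-57/1036))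
      + (2967/5180000) * ((4) * f0 R x ((-7241/5934) + (2353/5934) * jx R x + (-157/989) * sc R) (-1) (1) - fJ R x ((-7241/5934) + (2353/5934) * jx R x + (-157/989) * sc R) (-1) (1))
      + (761/1483500) * ((4) * f0 R x ((-3185/1522) + (3929/3044) * jx R x + (-885/6088) * sc R) (0) (0) - fJ R x ((-3185/1522) + (3929/3044) * jx R x + (-885/6088) * sc R) (0) (0))
      + (613/121760000) * ((4) * f0 R x ((-20) + (-2) * jx R x + (1) * sc R) (0) (0) - fJ R x ((-20) + (-2) * jx R x + (1) * sc R) (0) (0))
      + (16/405) * (g221 R x - 2 * nW R x) := by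
    unfold comb fJ f0 g221 nW
    ring
  rw [e]
  have a0' := mul_nonneg (show (0 : ℝ) ≤ (3/5) by norm_num) (sub_nonneg.2 a0)
  have a1' := mul_nonneg (show (0 : ℝ) ≤ (91987559/1215000000) by norm_num) (sub_nonneg.2 a1)
  have a2' := mul_nonneg (show (0 : ℝ) ≤ (32246557322/13970610523125) by norm_num) (sub_nonneg.2 a2)
  have a3' := mul_nonneg (show (0 : ℝ) ≤ (245388016021699/417915382893120000) by norm_num) (sub_nonneg.2 a3)
  have a4' := mul_nonneg (show (0 : ℝ) ≤ (88319829330607/7015210340385042000) by norm_num) (sub_nonneg.2 a4)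
  have b0' := mul_nonneg (show (0 : ℝ) ≤ (259/1250) by norm_num) (sub_nonneg.2 b0)
  have b1' := mul_nonneg (show (0 : ℝ) ≤ (2967/5180000) by norm_num) (sub_nonneg.2 b1)
  have b2' := mul_nonneg (show (0 : ℝ) ≤ (761/1483500) by norm_num) (sub_nonneg.2 b2)
  have b3' := mul_nonneg (show (0 : ℝ) ≤ (613/121760000) by norm_num) (sub_nonneg.2 b3)
  have w' := mul_nonneg (show (0 : ℝ) ≤ (16/405) by norm_num) w
  exact add_nonneg (add_nonneg (add_nonneg (add_nonneg (add_nonneg (add_nonneg (add_nonneg (add_nonneg (add_nonneg a0' a1') a2') a3') a4') b0') b1') b2') b3') w'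

theorem sharp_av {ι : Type} [Fintype ι] (D : Design ι) {R : Ten} (hR : IsCurv R) :
    D.av (comb R ((-1) + (-41/1875) * sc R + (-56543/2430000) * sc R ^ 2 + (62099/607500) * nR R + (-32/405) * nS R) ((82/625) + (353/1944) * sc R + (20617/1215000) * sc R ^ 2 + (-32/405) * nR R + (16/405) * nS R) ((-50996/151875) + (-82711/1215000) * sc R) ((-49/4860)) ((1024/1215) + (119/67500) * sc R) ((15929/60750)) ((-2614/6075) + (-37589/607500) * sc R) ((3187/11250)) ((-62099/303750)) ((64/405)) ((128/405)) ((-64/405)) ((-16/81)) ((-9643/50625)) ((21022/151875)) ((-21022/151875)) ((-16/135)) ((16/135)) ((32/135)) ((64/405)) ((-64/405)) ((-128/405))) = gb R / 5760 - (1) := by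
  rw [av_comb D hR, gb_eq hR]
  ring

end Hopf6
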