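import Pool.Agent.H933R2.Hopf.Point
import Pool.Agent.H933R2.Hopf.B1
import Pool.Agent.H933R2.Hopf.B2

/-!
# The Weyl part
-/

open scoped BigOperators

namespace Hopf6

theorem weyl_nonneg {R : Ten} (hR : IsCurv R) {x : Fin 6 → ℝ} (hx : ∑ a, x a ^ 2 = 1)
    (hl : ∀ y, area2 x y ≤ quad R x y) : 0 ≤ g221 R x - 2 * nW R x := by
  obtain ⟨W, hW, hWx, htr, h1, h2⟩ := weyl_part hR hx
  have hx' : ∑ a, x a * x a = 1 := by
    rw [← hx]
    exact Finset.sum_congr rfl fun a _ => (pow_two _).symm
  have hpr : ∀ F : Fin 6 → Fin 6 → ℝ, ∑ a, ∑ b, pr x a b * F a b =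
      (∑ a, F a a) - ∑ a, ∑ b, x a * x b * F a b := by
    intro F
    rw [← Finset.sum_sub_distrib]
    refine Finset.sum_congr rfl fun a _ => ?_
    unfold pr
    simp only [sub_mul, Finset.sum_sub_distrib, ite_mul, one_mul, zero_mul, Finset.sum_ite_eq,
      Finset.mem_univ, if_true]
  have hK : ∀ y : Fin 6 → ℝ, 0 ≤ ∑ a, ∑ b, (Jm R x a b - pr x a b) * (y a * y b) := by
    intro y
    have e1 : ∑ a, ∑ b, (Jm R x a b - pr x a b) * (y a * y b) = quad R x y - area2 x y := by
      simp only [sub_mul, Finset.sum_sub_distrib]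
      rw [← quad_J, hpr fun a b => y a * y b]
      unfold area2
      rw [hx, one_mul]
      congr 2
      · exact Finset.sum_congr rfl fun a _ => (pow_two _).symm
      · rw [pow_two, Finset.sum_mul_sum]
        refine Finset.sum_congr rfl fun a _ => Finset.sum_congr rfl fun b _ => ?_
        ring
    rw [e1]
    linarith [hl y]
  have hKx' : ∀ a, ∑ b, (Jm R x a b - pr x a b) * x b = 0 := by
    intro a
    simp only [sub_mul, Finset.sum_sub_distrib, Jm_x x hR a, pr, ite_mul, one_mul, zero_mul,
      Finset.sum_ite_eq, Finset.mem_univ, if_true]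
    have : ∑ b, x a * x b * x b = x a := by
      calc ∑ b, x a * x b * x b = x a * ∑ b, x b * x b := by
            rw [Finset.mul_sum]
            exact Finset.sum_congr rfl fun j _ => by ring
        _ = x a := by rw [hx', mul_one]
    rw [this]
    ring
  have hKx : ∀ b, ∑ a, (Jm R x a b - pr x a b) * x a = 0 := by
    intro b
    rw [← hKx' b]
    refine Finset.sum_congr rfl fun a _ => ?_
    rw [Jm_symm x hR a b]
    unfold pr
    simp only [eq_comm, mul_comm]
  have h := weyl_ineq hW hx hWx htr (K := fun a b => Jm R x a b - pr x a b) hK hKx hKx'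
  have e2 : ∑ a, ∑ b, (Jm R x a b - pr x a b) * SS W a b =
      ∑ a, ∑ b, Jm R x a b * SS W a b - nS W := by
    simp only [sub_mul, Finset.sum_sub_distrib]
    rw [hpr fun a b => SS W a b]
    have e3 : ∑ a, ∑ b, x a * x b * SS W a b = 0 := by
      have e4 : ∑ a, ∑ b, x a * x b * SS W a b =
          ∑ c, ∑ d, ∑ e, (∑ a, x a * W a c d e) * (∑ b, x b * W b c d e) := by
        unfold SS
        simp only [Finset.sum_mul_sum]
        simp only [Finset.mul_sum]
        have s1 : ∀ a, ∑ b, ∑ c, ∑ d, ∑ e, x a * x b * (W a c d e * W b c d e) =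
            ∑ c, ∑ b, ∑ d, ∑ e, x a * x b * (W a c d e * W b c d e) :=
          fun a => Finset.sum_comm
        simp only [s1]
        rw [Finset.sum_comm]
        refine Finset.sum_congr rfl fun c _ => ?_
        have s2 : ∀ a, ∑ b, ∑ d, ∑ e, x a * x b * (W a c d e * W b c d e) =
            ∑ d, ∑ b, ∑ e, x a * x b * (W a c d e * W b c d e) :=
          fun a => Finset.sum_comm
        simp only [s2]
        rw [Finset.sum_comm]
        refine Finset.sum_congr rfl fun d _ => ?_
        have s3 : ∀ a, ∑ b, ∑ e, x a * x b * (W a c d e * W b c d e) =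
            ∑ e, ∑ b, x a * x b * (W a c d e * W b c d e) :=
          fun a => Finset.sum_comm
        simp only [s3]
        rw [Finset.sum_comm]
        refine Finset.sum_congr rfl fun e _ => Finset.sum_congr rfl fun a _ =>
          Finset.sum_congr rfl fun b _ => ?_
        ring
      rw [e4]
      simp only [hWx, mul_zero, Finset.sum_const_zero]
    rw [e3, sub_zero]
    rfl
  have e5 : ∑ a, (Jm R x a a - pr x a a) = jx R x - 5 := by
    rw [Finset.sum_sub_distrib]
    have t1 : ∑ a, Jm R x a a = jx R x := by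
      have := tr_MJ (R := R) (x := x)
      simpa [Matrix.trace, MJ] using this
    have t2 : ∑ a, pr x a a = 5 := by
      unfold pr
      simp only [if_true, Finset.sum_sub_distrib, hx']
      norm_num
    rw [t1, t2]
  rw [e2, e5] at h
  rw [h1] at h h2
  linarith

end Hopf6
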