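import Pool.Agent.H933R2.Hopf.Mom
import Pool.Agent.H933R2.Hopf.GB
import Pool.Agent.H933R2.Hopf.Weyl

/-!
# Linear combinations of the monomials and their averages
-/

open scoped BigOperators

namespace Hopf6

/-- a linear combination of the monomials -/
def comb (R : Ten) (c0 c1 c2 c3 c4 c5 c6 c7 c8 c9 c10 c11 c12 c13 c14 c15 c16 c17 c18 c19 c20 c21 : ℝ) (x : Fin 6 → ℝ) : ℝ :=
  c0 + c1 * jx R x + c2 * jx R x ^ 2 + c3 * jx R x ^ 3 + c4 * mJJ R x + c5 * (jx R x * mJJ R x) + c6 * mJR R x + c7 * (jx R x * mJR R x) + c8 * muu R x + c9 * (jx R x * muu R x) + c10 * mSx R x + c11 * (jx R x * mSx R x) + c12 * mJJJ R x + c13 * mJJR R x + c14 * mJRR R x + c15 * mJuu R x + c16 * mJSS R x + c17 * mJH1 R x + c18 * mJH2 R x + c19 * mJSR R x + c20 * mJSJ R x + c21 * mJSu R x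

theorem av_comb {ι : Type} [Fintype ι] (D : Design ι) {R : Ten} (hR : IsCurv R)
    (c0 c1 c2 c3 c4 c5 c6 c7 c8 c9 c10 c11 c12 c13 c14 c15 c16 c17 c18 c19 c20 c21 : ℝ) : D.av (comb R c0 c1 c2 c3 c4 c5 c6 c7 c8 c9 c10 c11 c12 c13 c14 c15 c16 c17 c18 c19 c20 c21) =
  c0 + c1 * ((1/6) * (sc R)) + c2 * ((1/48) * (sc R ^ 2) + (1/24) * (nR R)) + c3 * ((1/480) * (sc R ^ 3) + (1/80) * (sc R * nR R) + (1/60) * (I4 R)) + c4 * ((1/48) * (nR R) + (1/32) * (nS R)) + c5 * ((1/480) * (sc R * nR R) + (1/320) * (sc R * nS R) + (1/120) * (I5 R) + (1/80) * (I6 R)) + c6 * ((1/6) * (nR R)) + c7 * ((1/48) * (sc R * nR R) + (1/24) * (I5 R)) + c8 * ((1/6) * (nR R)) + c9 * ((1/48) * (sc R * nR R) + (1/24) * (I4 R)) + c10 * ((1/6) * (nS R)) + c11 * ((1/48) * (sc R * nS R) + (1/24) * (I6 R)) + c12 * ((1/480) * (I4 R) + (3/320) * (I6 R) + (7/960) * (I7 R) + (-1/480) * (I8 R)) + c13 * ((1/48) * (I4 R) + (1/32) * (I6 R))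 + c14 * ((1/6) * (I4 R)) + c15 * ((1/48) * (I4 R) + (-1/48) * (I5 R)) + c16 * ((1/6) * (I6 R)) + c17 * ((1/48) * (I6 R) + (1/32) * (I7 R)) + c18 * ((1/48) * (I6 R) + (1/96) * (I7 R) + (-1/48) * (I8 R)) + c19 * ((1/6) * (I5 R)) + c20 * ((1/48) * (I5 R) + (-1/192) * (I7 R) + (1/24) * (I8 R)) + c21 * ((1/48) * (I5 R) + (1/32) * (I6 R)) := by
  have e : D.av (comb R c0 c1 c2 c3 c4 c5 c6 c7 c8 c9 c10 c11 c12 c13 c14 c15 c16 c17 c18 c19 c20 c21) = D.av (fun x => c0 + c1 * jx R x + c2 * jx R x ^ 2 + c3 * jx R x ^ 3 + c4 * mJJ R x + c5 * (jx R x * mJJ R x) + c6 * mJR R x + c7 * (jx R x * mJR R x) + c8 * muu R x + c9 * (jx R x * muu R x) + c10 * mSx R x + c11 * (jx R x * mSx R x) + c12 * mJJJ R x + c13 * mJJR R x + c14 * mJRR R x + c15 * mJuu R x + c16 * mJSS R x + c17 * mJH1 R x + c18 * mJH2 R x + c19 * mJSR R x + c20 * mJSJ R x + c21 * mJSu R x) := rfl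
  rw [e]
  simp only [Design.av_add, Design.av_cmul]
  rw [show D.av (fun _ => c0) = c0 from D.av_one c0,
    show D.av (fun x => jx R x) = _ from D.av_j R, D.av_jj hR, D.av_jjj hR,
    show D.av (fun x => mJJ R x) = _ from D.av_JJ hR, D.av_jJJ hR,
    show D.av (fun x => mJR R x) = _ from D.av_JR hR, D.av_jJR hR,
    show D.av (fun x => muu R x) = _ from D.av_uu R, D.av_juu hR,
    show D.av (fun x => mSx R x) = _ from D.av_Sx R, D.av_jSx hR,
    show D.av (fun x => mJJJ R x) = _ from D.av_JJJ hR,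
    show D.av (fun x => mJJR R x) = _ from D.av_JJR hR,
    show D.av (fun x => mJRR R x) = _ from D.av_JRR hR,
    show D.av (fun x => mJuu R x) = _ from D.av_Juu hR,
    show D.av (fun x => mJSS R x) = _ from D.av_JSS hR,
    show D.av (fun x => mJH1 R x) = _ from D.av_JH1 hR,
    show D.av (fun x => mJH2 R x) = _ from D.av_JH2 hR,
    show D.av (fun x => mJSR R x) = _ from D.av_JSR hR,
    show D.av (fun x => mJSJ R x) = _ from D.av_JSJ hR,
    show D.av (fun x => mJSu R x) = _ from D.av_JSu hR]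
  ring

end Hopf6
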