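import Mathlib

/-!
# Algebraic curvature tensors in dimension 6: basic definitions
-/

open scoped BigOperators

namespace Hopf6

/-- components of a `(0,4)`-tensor on `ℝ⁶` in an orthonormal basis -/
abbrev Ten : Type := Fin 6 → Fin 6 → Fin 6 → Fin 6 → ℝ

/-- algebraic curvature tensors -/
structure IsCurv (R : Ten) : Prop where
  anti : ∀ a b c d, R b a c d = - R a b c d
  pair : ∀ a b c d, R c d a b = R a b c d
  bianchi : ∀ a b c d, R a b c d + R b c a d + R c a b d = 0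

/-- `R(x, y, x, y)` -/
def quad (R : Ten) (x y : Fin 6 → ℝ) : ℝ :=
  ∑ a, ∑ b, ∑ c, ∑ d, R a b c d * x a * y b * x c * y d

/-- `|x ∧ y|²` -/
def area2 (x y : Fin 6 → ℝ) : ℝ :=
  (∑ a, x a ^ 2) * (∑ a, y a ^ 2) - (∑ a, x a * y a) ^ 2

/-- the Gauss-Bonnet-Chern integrand in dimension six -/
noncomputable def gb (R : Ten) : ℝ :=
  ∑ σ : Equiv.Perm (Fin 6), ∑ τ : Equiv.Perm (Fin 6),
    ((Equiv.Perm.sign σ : ℤ) : ℝ) * ((Equiv.Perm.sign τ : ℤ) : ℝ) *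
      (R (σ 0) (σ 1) (τ 0) (τ 1) * R (σ 2) (σ 3) (τ 2) (τ 3) * R (σ 4) (σ 5) (τ 4) (τ 5))

/-! ### contractions -/

section
variable (R : Ten)

/-- Ricci tensor -/
def Rc (a b : Fin 6) : ℝ := ∑ c, R a c b c
/-- scalar curvature -/
def sc : ℝ := ∑ a, Rc R a a
/-- `|Ric|²` -/
def nR : ℝ := ∑ a, ∑ b, Rc R a b * Rc R a b
/-- `|R|²` -/
def nS : ℝ := ∑ a, ∑ b, ∑ c, ∑ d, R a b c d * R a b c d
/-- `R_{acde} R_{bcde}` -/
def SS (a b : Fin 6) : ℝ := ∑ c, ∑ d, ∑ e, R a c d e * R b c d e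
def I4 : ℝ := ∑ a, ∑ b, ∑ c, Rc R a b * Rc R b c * Rc R c a
def I5 : ℝ := ∑ a, ∑ b, ∑ c, ∑ d, Rc R a b * R a c b d * Rc R c d
def I6 : ℝ := ∑ a, ∑ b, Rc R a b * SS R a b
def I7 : ℝ := ∑ a, ∑ b, ∑ c, ∑ d, ∑ e, ∑ f, R a b c d * R c d e f * R e f a b
def I8 : ℝ := ∑ a, ∑ b, ∑ c, ∑ d, ∑ e, ∑ f, R a c b d * R c e d f * R e a f b

/-! ### functions of a vector `x` -/

/-- Jacobi operator `J_ab = R(x, e_a, x, e_b)` -/
def Jm (x : Fin 6 → ℝ) (a b : Fin 6) : ℝ := ∑ p, ∑ q, R p a q b * (x p * x q)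
/-- `Ric(x, ·)` -/
def ux (x : Fin 6 → ℝ) (a : Fin 6) : ℝ := ∑ p, Rc R a p * x p
/-- `tr J = Ric(x, x)` -/
def jx (x : Fin 6 → ℝ) : ℝ := ∑ p, ∑ q, Rc R p q * (x p * x q)

def mJJ (x : Fin 6 → ℝ) : ℝ := ∑ a, ∑ b, Jm R x a b * Jm R x a b
def mJR (x : Fin 6 → ℝ) : ℝ := ∑ a, ∑ b, Jm R x a b * Rc R a b
def mJJJ (x : Fin 6 → ℝ) : ℝ := ∑ a, ∑ b, ∑ c, Jm R x a b * Jm R x b c * Jm R x c a
def mJJR (x : Fin 6 → ℝ) : ℝ := ∑ a, ∑ b, ∑ c, Jm R x a b * Jm R x b c * Rc R c a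
def mJRR (x : Fin 6 → ℝ) : ℝ := ∑ a, ∑ b, ∑ c, Jm R x a b * Rc R b c * Rc R c a
def mJuu (x : Fin 6 → ℝ) : ℝ := ∑ a, ∑ b, Jm R x a b * (ux R x a * ux R x b)
def muu (x : Fin 6 → ℝ) : ℝ := ∑ a, ux R x a * ux R x a
/-- `|R(x, ·, ·, ·)|²` -/
def mSx (x : Fin 6 → ℝ) : ℝ := ∑ p, ∑ q, SS R p q * (x p * x q)
def mJSS (x : Fin 6 → ℝ) : ℝ := ∑ a, ∑ b, Jm R x a b * SS R a b
/-- `J_ab R(x,a,d,e) R(x,b,d,e)` -/
def mJH1 (x : Fin 6 → ℝ) : ℝ :=
  ∑ a, ∑ b, Jm R x a b * ∑ p, ∑ q, (∑ d, ∑ e, R p a d e * R q b d e) * (x p * x q)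
/-- `J_ab R(a,c,x,e) R(b,c,x,e)` -/
def mJH2 (x : Fin 6 → ℝ) : ℝ :=
  ∑ a, ∑ b, Jm R x a b * ∑ p, ∑ q, (∑ c, ∑ e, R a c p e * R b c q e) * (x p * x q)
def mJSR (x : Fin 6 → ℝ) : ℝ := ∑ a, ∑ b, Jm R x a b * ∑ c, ∑ d, R a c b d * Rc R c d
def mJSJ (x : Fin 6 → ℝ) : ℝ := ∑ a, ∑ b, ∑ c, ∑ d, Jm R x a b * Jm R x c d * R a c b d
/-- `J_ab R(a,x,b,d) u_d` -/
def mJSu (x : Fin 6 → ℝ) : ℝ :=
  ∑ a, ∑ b, Jm R x a b * ∑ p, ∑ q, (∑ d, R a p b d * Rc R d q) * (x p * x q)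

end

/-- projection onto `x^⊥` (for a unit vector `x`) -/
def pr (x : Fin 6 → ℝ) (a b : Fin 6) : ℝ := (if a = b then 1 else 0) - x a * x b

section
variable (R : Ten)

/-- squared norm of the Weyl part of the restriction of `R` to `x^⊥` (see `weyl_part`) -/
noncomputable def nW (x : Fin 6 → ℝ) : ℝ :=
  nS R - 4 * mSx R x + 8 / 3 * mJJ R x - 4 / 3 * nR R + 8 / 3 * muu R x + 8 / 3 * mJR R x
    - 2 / 3 * jx R x ^ 2 - 2 / 3 * sc R * jx R x + 1 / 6 * sc R ^ 2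

/-- `tr J |W|² - 3 J_ab W_acde W_bcde` (see `weyl_part`) -/
noncomputable def g221 (x : Fin 6 → ℝ) : ℝ :=
  - (2 / 3) * jx R x ^ 3 - 4 / 3 * jx R x ^ 2 * sc R + 1 / 3 * jx R x * sc R ^ 2
    + 10 / 3 * jx R x * mJJ R x + 4 / 3 * sc R * mJJ R x
    + 20 / 3 * jx R x * mJR R x - 4 / 3 * sc R * mJR R x
    - 8 / 3 * mJJJ R x - 20 / 3 * mJJR R x + 10 / 3 * mJRR R x - 10 / 3 * mJuu R x
    - 2 * jx R x * nR R + 4 * jx R x * muu R x + jx R x * nS R - 4 * jx R x * mSx R x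
    - 3 * mJSS R x + 3 * mJH1 R x + 6 * mJH2 R x + 4 * mJSR R x - 4 * mJSJ R x - 8 * mJSu R x

end

/-- a finite quadrature formula on the sphere `S⁵`, exact for sextic forms -/
structure Design (ι : Type) [Fintype ι] where
  w : ι → ℝ
  X : ι → Fin 6 → ℝ
  w_nonneg : ∀ i, 0 ≤ w i
  unit : ∀ i, ∑ a, X i a ^ 2 = 1
  six : ∀ a b c d e f : Fin 6,
    ∑ i, w i * (X i a * X i b * (X i c * X i d) * (X i e * X i f)) =
      (1 / 480 : ℝ) * (
        (if a = b then 1 else 0) * (if c = d then 1 else 0) * (if e = f then 1 else 0)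
      + (if a = b then 1 else 0) * (if c = e then 1 else 0) * (if d = f then 1 else 0)
      + (if a = b then 1 else 0) * (if c = f then 1 else 0) * (if d = e then 1 else 0)
      + (if a = c then 1 else 0) * (if b = d then 1 else 0) * (if e = f then 1 else 0)
      + (if a = c then 1 else 0) * (if b = e then 1 else 0) * (if d = f then 1 else 0)
      + (if a = c then 1 else 0) * (if b = f then 1 else 0) * (if d = e then 1 else 0)
      + (if a = d then 1 else 0) * (if b = c then 1 else 0) * (if e = f then 1 else 0)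
      + (if a = d then 1 else 0) * (if b = e then 1 else 0) * (if c = f then 1 else 0)
      + (if a = d then 1 else 0) * (if b = f then 1 else 0) * (if c = e then 1 else 0)
      + (if a = e then 1 else 0) * (if b = c then 1 else 0) * (if d = f then 1 else 0)
      + (if a = e then 1 else 0) * (if b = d then 1 else 0) * (if c = f then 1 else 0)
      + (if a = e then 1 else 0) * (if b = f then 1 else 0) * (if c = d then 1 else 0)
      + (if a = f then 1 else 0) * (if b = c then 1 else 0) * (if d = e then 1 else 0)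
      + (if a = f then 1 else 0) * (if b = d then 1 else 0) * (if c = e then 1 else 0)
      + (if a = f then 1 else 0) * (if b = e then 1 else 0) * (if c = d then 1 else 0))

namespace Design
variable {ι : Type} [Fintype ι] (D : Design ι)
/-- the average of a function over the design -/
def av (φ : (Fin 6 → ℝ) → ℝ) : ℝ := ∑ i, D.w i * φ (D.X i)
end Design

end Hopf6
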