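import Pool.Agent.H933R2.Hopf.Avg

/-!
# Averages of the monomials of degree at most two in the curvature
-/

open scoped BigOperators

namespace Hopf6

section
variable (F : Fin 6 → Fin 6 → Fin 6 → Fin 6 → ℝ)

theorem sw12 : ∑ a, ∑ b, ∑ c, ∑ d, F a b c d = ∑ a, ∑ b, ∑ c, ∑ d, F b a c d := by
  rw [Finset.sum_comm]

theorem sw23 : ∑ a, ∑ b, ∑ c, ∑ d, F a b c d = ∑ a, ∑ b, ∑ c, ∑ d, F a c b d := by
  refine Finset.sum_congr rfl fun a _ => ?_
  rw [Finset.sum_comm]

theorem sw34 : ∑ a, ∑ b, ∑ c, ∑ d, F a b c d = ∑ a, ∑ b, ∑ c, ∑ d, F a b d c := by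
  refine Finset.sum_congr rfl fun a _ => Finset.sum_congr rfl fun b _ => ?_
  rw [Finset.sum_comm]

theorem cyc : ∑ a, ∑ b, ∑ c, ∑ d, F a b c d = ∑ a, ∑ b, ∑ c, ∑ d, F d b a c := by
  rw [sw34 (fun a b c d => F d b a c), sw12 (fun a b c d => F c b a d),
    sw23 (fun a b c d => F c a b d), sw12 (fun a b c d => F b a c d)]

end

theorem nS_form (R : Ten) : ∑ a, ∑ b, ∑ p, ∑ q, R p a q b * R p a q b = nS R := by
  rw [sw23 (fun a b p q => R p a q b * R p a q b)]
  rw [sw12 (fun a p b q => R p a q b * R p a q b)]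
  rw [sw34 (fun p a b q => R p a q b * R p a q b)]
  rfl

theorem nS_half {R : Ten} (hR : IsCurv R) :
    ∑ a, ∑ b, ∑ p, ∑ q, R p a q b * R q a p b = (1 / 2) * nS R := by
  have h1 : ∑ a, ∑ b, ∑ p, ∑ q, R p a q b * (R p a q b + R a q p b + R q p a b) = 0 := by
    refine Finset.sum_eq_zero fun a _ => Finset.sum_eq_zero fun b _ =>
      Finset.sum_eq_zero fun p _ => Finset.sum_eq_zero fun q _ => ?_
    rw [hR.bianchi p a q b, mul_zero]
  have h2 : ∑ a, ∑ b, ∑ p, ∑ q, R p a q b * R a q p b =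
      - ∑ a, ∑ b, ∑ p, ∑ q, R p a q b * R q a p b := by
    simp only [← Finset.sum_neg_distrib]
    refine Finset.sum_congr rfl fun a _ => Finset.sum_congr rfl fun b _ =>
      Finset.sum_congr rfl fun p _ => Finset.sum_congr rfl fun q _ => ?_
    rw [hR.anti q a p b]
    ring
  have h3 : ∑ a, ∑ b, ∑ p, ∑ q, R p a q b * R q p a b =
      - ∑ a, ∑ b, ∑ p, ∑ q, R p a q b * R q a p b := by
    rw [cyc (fun a b p q => R p a q b * R q p a b)]
    simp only [← Finset.sum_neg_distrib]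
    refine Finset.sum_congr rfl fun a _ => Finset.sum_congr rfl fun b _ =>
      Finset.sum_congr rfl fun p _ => Finset.sum_congr rfl fun q _ => ?_
    rw [hR.anti q a p b]
    ring
  simp only [mul_add, Finset.sum_add_distrib, h2, h3, nS_form] at h1
  linarith

theorem Rc_alt {R : Ten} (hR : IsCurv R) (a b : Fin 6) : ∑ p, R p a p b = Rc R a b := by
  unfold Rc
  refine Finset.sum_congr rfl fun p _ => ?_
  rw [hR.anti a p p b, anti' hR a p b p]
  ring

namespace Design
variable {ι : Type} [Fintype ι] (D : Design ι) {R : Ten}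

theorem av_j (R : Ten) : D.av (jx R) = (1 / 6) * sc R := D.quad1 (Rc R)

theorem av_jj (hR : IsCurv R) : D.av (fun x => jx R x ^ 2) = (1 / 48) * sc R ^ 2 + (1 / 24) * nR R := by
  have h : D.av (fun x => jx R x ^ 2) = D.av (fun x => qf (Rc R) x * qf (Rc R) x) := by
    refine congrArg D.av (funext fun x => ?_)
    rw [pow_two]
    rfl
  rw [h, quad2]
  have h1 : ∑ p, ∑ q, Rc R p p * Rc R q q = sc R ^ 2 := by
    rw [pow_two]
    unfold sc
    rw [Finset.sum_mul_sum]
  have h2 : ∑ p, ∑ q, Rc R p q * Rc R q p = nR R := by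
    unfold nR
    refine Finset.sum_congr rfl fun p _ => Finset.sum_congr rfl fun q _ => ?_
    rw [Rc_symm hR q p]
  rw [h1, h2]
  unfold nR
  ring

theorem av_JJ (hR : IsCurv R) : D.av (mJJ R) = (1 / 48) * nR R + (1 / 32) * nS R := by
  have h : D.av (mJJ R) = ∑ a, ∑ b, D.av (fun x => qf (fun p q => R p a q b) x *
      qf (fun p q => R p a q b) x) := by
    simp only [← av_sum]
    rfl
  have h1 : ∑ a, ∑ b, ∑ p, ∑ q, R p a p b * R q a q b = nR R := by
    unfold nR
    refine Finset.sum_congr rfl fun a _ => Finset.sum_congr rfl fun b _ => ?_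
    rw [← Rc_alt hR a b, Finset.sum_mul_sum]
  rw [h]
  simp only [quad2, c48, Finset.sum_add_distrib]
  rw [h1, nS_form, nS_half hR]
  ring

theorem av_JR (hR : IsCurv R) : D.av (mJR R) = (1 / 6) * nR R := by
  have h : D.av (mJR R) = ∑ a, ∑ b, D.av (fun x => qf (fun p q => R p a q b) x * Rc R a b) := by
    simp only [← av_sum]
    rfl
  rw [h]
  simp only [quad1Y, c6, ← Finset.sum_mul, Rc_alt hR]
  rfl

theorem av_uu (R : Ten) : D.av (muu R) = (1 / 6) * nR R := by
  have h : D.av (muu R) = ∑ a, D.av (qf (fun p q => Rc R a p * Rc R a q)) := by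
    have e : ∀ a, qf (fun p q => Rc R a p * Rc R a q) = fun x => ux R x a * ux R x a :=
      fun a => funext fun x => (uu_qf R x a a).symm
    simp only [e, ← av_sum]
    rfl
  rw [h]
  simp only [quad1, c6]
  rfl

theorem av_Sx (R : Ten) : D.av (mSx R) = (1 / 6) * nS R := D.quad1 (SS R)

theorem av_one (c : ℝ) : D.av (fun _ => c) = c := by
  unfold av
  rw [← Finset.sum_mul, D.zero', one_mul]

theorem av_add (φ ψ : (Fin 6 → ℝ) → ℝ) : D.av (fun x => φ x + ψ x) = D.av φ + D.av ψ := by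
  unfold av
  rw [← Finset.sum_add_distrib]
  exact Finset.sum_congr rfl fun i _ => mul_add _ _ _

theorem av_cmul (c : ℝ) (φ : (Fin 6 → ℝ) → ℝ) : D.av (fun x => c * φ x) = c * D.av φ := by
  unfold av
  rw [Finset.mul_sum]
  refine Finset.sum_congr rfl fun i _ => ?_
  ring

theorem av_nonneg {φ : (Fin 6 → ℝ) → ℝ} (h : ∀ i, 0 ≤ φ (D.X i)) : 0 ≤ D.av φ :=
  Finset.sum_nonneg fun i _ => mul_nonneg (D.w_nonneg i) (h i)

end Design
end Hopf6
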