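import Pool.Agent.H933R2.Hopf.CertA
import Pool.Agent.H933R2.Hopf.CertB
import Pool.Agent.H933R2.Hopf.A

/-!
# Pinched curvature tensors in dimension six and the Gauss-Bonnet-Chern integrand
-/

open scoped BigOperators

namespace Hopf6

theorem sharp_core {R : Ten} (hR : IsCurv R)
    (h : ∀ x : Fin 6 → ℝ, ∑ a, x a ^ 2 = 1 → ∀ y, area2 x y ≤ quad R x y ∧
      quad R x y ≤ 4 * area2 x y) : 5760 ≤ gb R := by
  obtain ⟨ι, _, ⟨D⟩⟩ := exists_design
  have h1 := D.av_nonneg fun i => sharp_nonneg hR (D.unit i) (fun y => (h _ (D.unit i) y).1)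
    (fun y => (h _ (D.unit i) y).2)
  have h2 := h1.trans_eq (sharp_av D hR)
  linarith

theorem posi_core {R : Ten} (hR : IsCurv R)
    (h : ∀ x : Fin 6 → ℝ, ∑ a, x a ^ 2 = 1 → ∀ y, area2 x y ≤ quad R x y ∧
      quad R x y ≤ (35/8) * area2 x y) : 5760 / 50 ≤ gb R := by
  obtain ⟨ι, _, ⟨D⟩⟩ := exists_design
  have h1 := D.av_nonneg fun i => posi_nonneg hR (D.unit i) (fun y => (h _ (D.unit i) y).1)
    (fun y => (h _ (D.unit i) y).2)
  have h2 := h1.trans_eq (posi_av D hR)
  linarith

theorem rev4 (F : Fin 6 → Fin 6 → Fin 6 → Fin 6 → ℝ) :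
    ∑ a, ∑ b, ∑ c, ∑ d, F a b c d = ∑ a, ∑ b, ∑ c, ∑ d, F d c b a := by
  rw [sw12 (fun a b c d => F d c b a), sw23 (fun a b c d => F d c a b), ← cyc F]

/-- scaled tensor -/
def scl (k : ℝ) (R : Ten) : Ten := fun a b c d => k * R a b c d

theorem scl_curv {R : Ten} (hR : IsCurv R) (k : ℝ) : IsCurv (scl k R) := by
  refine ⟨fun a b c d => ?_, fun a b c d => ?_, fun a b c d => ?_⟩
  · unfold scl
    rw [hR.anti a b c d]
    ring
  · unfold scl
    rw [hR.pair a b c d]
  · unfold scl
    linear_combination k * hR.bianchi a b c d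

theorem quad_scl (k : ℝ) (R : Ten) (x y : Fin 6 → ℝ) : quad (scl k R) x y = k * quad R x y := by
  unfold quad scl
  simp only [Finset.mul_sum]
  refine Finset.sum_congr rfl fun a _ => Finset.sum_congr rfl fun b _ =>
    Finset.sum_congr rfl fun c _ => Finset.sum_congr rfl fun d _ => ?_
  ring

theorem gb_scl (k : ℝ) (R : Ten) : gb (scl k R) = k ^ 3 * gb R := by
  unfold gb scl
  simp only [Finset.mul_sum]
  refine Finset.sum_congr rfl fun a _ => Finset.sum_congr rfl fun b _ => ?_
  ring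

/-! ### curvature tensors on a Euclidean vector space -/

section
variable {V : Type*} [NormedAddCommGroup V] [InnerProductSpace ℝ V]

/-- algebraic curvature tensors; `R x y x y` is the sectional curvature of the plane spanned by
the orthonormal pair `x, y`. (Linearity in the first argument and the symmetries imply linearity
in every argument.) -/
structure AlgCurv (R : V → V → V → V → ℝ) : Prop where
  add : ∀ x x' y z w, R (x + x') y z w = R x y z w + R x' y z w
  smul : ∀ (t : ℝ) (x y z w : V), R (t • x) y z w = t * R x y z w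
  anti : ∀ x y z w, R y x z w = - R x y z w
  pair : ∀ x y z w, R z w x y = R x y z w
  bianchi : ∀ x y z w, R x y z w + R y z x w + R z x y w = 0

/-- all sectional curvatures lie in the interval `[a, b]` -/
def SecIn (R : V → V → V → V → ℝ) (a b : ℝ) : Prop :=
  ∀ x y : V, ‖x‖ = 1 → ‖y‖ = 1 → inner ℝ x y = 0 → a ≤ R x y x y ∧ R x y x y ≤ b

/-- components in an orthonormal basis -/
noncomputable def tn (e : OrthonormalBasis (Fin 6) ℝ V) (R : V → V → V → V → ℝ) : Ten :=
  fun a b c d => R (e a) (e b) (e c) (e d)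

/-- The Gauss-Bonnet-Chern integrand in dimension `6`, computed in the orthonormal basis `e`,
normalised so that its integral over a closed Riemannian `6`-manifold is the Euler
characteristic. -/
noncomputable def gbc (e : OrthonormalBasis (Fin 6) ℝ V) (R : V → V → V → V → ℝ) : ℝ :=
  1 / ((8 * Real.pi) ^ 3 * 6) * gb (tn e R)

variable (e : OrthonormalBasis (Fin 6) ℝ V) {R : V → V → V → V → ℝ}

theorem tn_curv (hR : AlgCurv R) : IsCurv (tn e R) :=
  ⟨fun _ _ _ _ => hR.anti _ _ _ _, fun _ _ _ _ => hR.pair _ _ _ _,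
    fun _ _ _ _ => hR.bianchi _ _ _ _⟩

theorem gbc_eq (R : V → V → V → V → ℝ) :
    gbc e R = 1 / ((8 * Real.pi) ^ 3 * 6) * gb (tn e R) := rfl

/-- vector with given coordinates -/
noncomputable def vc (e : OrthonormalBasis (Fin 6) ℝ V) (x : Fin 6 → ℝ) : V := ∑ a, x a • e a

theorem vc_inner (x y : Fin 6 → ℝ) : inner ℝ (vc e x) (vc e y) = ∑ a, x a * y a := by
  have h := e.orthonormal.inner_sum x y Finset.univ
  simpa [vc, mul_comm] using h

theorem vc_norm (x : Fin 6 → ℝ) : ‖vc e x‖ ^ 2 = ∑ a, x a ^ 2 := by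
  rw [← real_inner_self_eq_norm_sq, vc_inner]
  exact Finset.sum_congr rfl fun a _ => (pow_two _).symm

theorem lin1 (hR : AlgCurv R) (x : Fin 6 → ℝ) (y z w : V) :
    R (vc e x) y z w = ∑ a, x a * R (e a) y z w := by
  let L : V →ₗ[ℝ] ℝ :=
    { toFun := fun u => R u y z w
      map_add' := fun u v => hR.add u v y z w
      map_smul' := fun t u => hR.smul t u y z w }
  have h : L (vc e x) = ∑ a, x a * L (e a) := by
    unfold vc
    rw [map_sum]
    exact Finset.sum_congr rfl fun a _ => by rw [map_smul, smul_eq_mul]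
  exact h

theorem lin2 (hR : AlgCurv R) (x : Fin 6 → ℝ) (y z w : V) :
    R y (vc e x) z w = ∑ a, x a * R y (e a) z w := by
  rw [hR.anti (vc e x) y z w, lin1 e hR, ← Finset.sum_neg_distrib]
  refine Finset.sum_congr rfl fun a _ => ?_
  rw [hR.anti (e a) y z w]
  ring

theorem lin3 (hR : AlgCurv R) (x : Fin 6 → ℝ) (y z w : V) :
    R y z (vc e x) w = ∑ a, x a * R y z (e a) w := by
  rw [hR.pair (vc e x) w y z, lin1 e hR]
  refine Finset.sum_congr rfl fun a _ => ?_
  rw [hR.pair (e a) w y z]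

theorem lin4 (hR : AlgCurv R) (x : Fin 6 → ℝ) (y z w : V) :
    R y z w (vc e x) = ∑ a, x a * R y z w (e a) := by
  rw [hR.pair w (vc e x) y z, lin2 e hR]
  refine Finset.sum_congr rfl fun a _ => ?_
  rw [hR.pair w (e a) y z]

theorem quad_tn (hR : AlgCurv R) (x y : Fin 6 → ℝ) :
    quad (tn e R) x y = R (vc e x) (vc e y) (vc e x) (vc e y) := by
  simp only [lin1 e hR x, lin2 e hR y, lin3 e hR x, lin4 e hR y, Finset.mul_sum]
  unfold quad tn
  refine Finset.sum_congr rfl fun a _ => Finset.sum_congr rfl fun b _ =>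
    Finset.sum_congr rfl fun c _ => Finset.sum_congr rfl fun d _ => ?_
  ring

theorem R_xx (hR : AlgCurv R) (x z w : V) : R x x z w = 0 := by
  have := hR.anti x x z w
  linarith

theorem R_xx' (hR : AlgCurv R) (x z w : V) : R z w x x = 0 := by
  rw [hR.pair x x z w, R_xx hR]

theorem R_anti' (hR : AlgCurv R) (x y z w : V) : R x y w z = - R x y z w := by
  rw [hR.pair w z x y, hR.anti z w x y, hR.pair x y z w]

/-- the sectional curvature bound for a unit vector and an arbitrary vector -/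
theorem sec_bound (hR : AlgCurv R) {a b : ℝ} (h : SecIn R a b) (x y : V) (hx : ‖x‖ = 1) :
    a * (‖y‖ ^ 2 - inner ℝ x y ^ 2) ≤ R x y x y ∧
      R x y x y ≤ b * (‖y‖ ^ 2 - inner ℝ x y ^ 2) := by
  set t : ℝ := inner ℝ x y with ht
  set z : V := y - t • x with hz
  have hxx : inner ℝ x x = (1 : ℝ) := by rw [real_inner_self_eq_norm_sq, hx]; norm_num
  have hxz : inner ℝ x z = 0 := by
    rw [hz, inner_sub_right, inner_smul_right, hxx, ← ht]
    ring
  have hnz : ‖z‖ ^ 2 = ‖y‖ ^ 2 - t ^ 2 := by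
    rw [hz, norm_sub_sq_real, inner_smul_right, real_inner_comm, ← ht, norm_smul, hx]
    rw [mul_one, Real.norm_eq_abs, sq_abs]
    ring
  have hy : y = z + t • x := by rw [hz]; abel
  have a2 : ∀ u v v' u' w, R u (v + v') u' w = R u v u' w + R u v' u' w := by
    intro u v v' u' w
    rw [hR.anti (v + v') u u' w, hR.add, hR.anti v u u' w, hR.anti v' u u' w]
    ring
  have m2 : ∀ (t : ℝ) u v u' w, R u (t • v) u' w = t * R u v u' w := by
    intro t u v u' w
    rw [hR.anti (t • v) u u' w, hR.smul, hR.anti v u u' w]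
    ring
  have a4 : ∀ u v u' w w', R u v u' (w + w') = R u v u' w + R u v u' w' := by
    intro u v u' w w'
    rw [hR.pair u' (w + w') u v, a2, hR.pair u' w u v, hR.pair u' w' u v]
  have m4 : ∀ (t : ℝ) u v u' w, R u v u' (t • w) = t * R u v u' w := by
    intro t u v u' w
    rw [hR.pair u' (t • w) u v, m2, hR.pair u' w u v]
  have hRz : R x y x y = R x z x z := by
    rw [hy]
    simp only [a2, m2, a4, m4, R_xx hR, R_xx' hR]
    ring
  rw [hRz, ← hnz]
  rcases eq_or_ne z 0 with h0 | h0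
  · rw [h0]
    have h00 : R x 0 x 0 = 0 := by
      have := m4 0 x 0 x 0
      rw [zero_smul, zero_mul] at this
      exact this
    rw [h00]
    simp
  · have hn : ‖z‖ ≠ 0 := norm_ne_zero_iff.2 h0
    have h1 := h x (‖z‖⁻¹ • z) hx (by rw [norm_smul, norm_inv, norm_norm, inv_mul_cancel₀ hn])
      (by rw [inner_smul_right, hxz, mul_zero])
    simp only [m2, m4] at h1
    have hp : 0 < ‖z‖ ^ 2 := by positivity
    have e1 : ‖z‖⁻¹ * (‖z‖⁻¹ * R x z x z) * ‖z‖ ^ 2 = R x z x z := by
      field_simp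
    constructor
    · rw [← e1]
      exact mul_le_mul_of_nonneg_right h1.1 hp.le
    · rw [← e1]
      exact mul_le_mul_of_nonneg_right h1.2 hp.le

/-- pinching in components, after scaling -/
theorem comp_bound (hR : AlgCurv R) {c M : ℝ} (hc : 0 < c) (h : SecIn R c (M * c))
    (x : Fin 6 → ℝ) (hx : ∑ a, x a ^ 2 = 1) (y : Fin 6 → ℝ) :
    area2 x y ≤ quad (scl c⁻¹ (tn e R)) x y ∧
      quad (scl c⁻¹ (tn e R)) x y ≤ M * area2 x y := by
  have hx1 : ‖vc e x‖ = 1 := by
    have := vc_norm e x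
    rw [hx] at this
    nlinarith [norm_nonneg (vc e x)]
  have h1 := sec_bound hR h (vc e x) (vc e y) hx1
  have ha : ‖vc e y‖ ^ 2 - inner ℝ (vc e x) (vc e y) ^ 2 = area2 x y := by
    rw [vc_norm, vc_inner]
    unfold area2
    rw [hx, one_mul]
  rw [ha, ← quad_tn e hR] at h1
  rw [quad_scl]
  constructor
  · calc area2 x y = c⁻¹ * (c * area2 x y) := by field_simp
      _ ≤ _ := mul_le_mul_of_nonneg_left h1.1 (inv_nonneg.2 hc.le)
  · calc c⁻¹ * quad (tn e R) x y ≤ c⁻¹ * (M * c * area2 x y) :=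
          mul_le_mul_of_nonneg_left h1.2 (inv_nonneg.2 hc.le)
      _ = M * area2 x y := by field_simp

theorem sharp_pos (hR : AlgCurv R) {c : ℝ} (hc : 0 < c) (h : SecIn R c (4 * c)) :
    5760 * c ^ 3 ≤ gb (tn e R) := by
  have h1 := sharp_core (scl_curv (tn_curv e hR) c⁻¹) fun x hx y => comp_bound e hR hc h x hx y
  rw [gb_scl] at h1
  have hc3 : 0 < c ^ 3 := by positivity
  calc 5760 * c ^ 3 ≤ (c⁻¹ ^ 3 * gb (tn e R)) * c ^ 3 := mul_le_mul_of_nonneg_right h1 hc3.le
    _ = gb (tn e R) := by field_simp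

theorem posi_pos (hR : AlgCurv R) {c : ℝ} (hc : 0 < c) (h : SecIn R c (35 / 8 * c)) :
    5760 / 50 * c ^ 3 ≤ gb (tn e R) := by
  have h1 := posi_core (scl_curv (tn_curv e hR) c⁻¹) fun x hx y => comp_bound e hR hc h x hx y
  rw [gb_scl] at h1
  have hc3 : 0 < c ^ 3 := by positivity
  calc 5760 / 50 * c ^ 3 ≤ (c⁻¹ ^ 3 * gb (tn e R)) * c ^ 3 := mul_le_mul_of_nonneg_right h1 hc3.le
    _ = gb (tn e R) := by field_simp

theorem neg_curv (hR : AlgCurv R) : AlgCurv (fun x y z w => - R x y z w) := by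
  refine ⟨fun x x' y z w => ?_, fun t x y z w => ?_, fun x y z w => ?_, fun x y z w => ?_,
    fun x y z w => ?_⟩
  · rw [hR.add x x' y z w]
    ring
  · rw [hR.smul t x y z w]
    ring
  · rw [hR.anti x y z w]
  · rw [hR.pair x y z w]
  · linarith [hR.bianchi x y z w]

theorem neg_sec {a b : ℝ} (h : SecIn R (-b) (-a)) : SecIn (fun x y z w => - R x y z w) a b := by
  intro x y hx hy hxy
  obtain ⟨h1, h2⟩ := h x y hx hy hxy
  constructor <;> linarith

theorem gb_neg (R : V → V → V → V → ℝ) :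
    gb (tn e (fun x y z w => - R x y z w)) = - gb (tn e R) := by
  have : tn e (fun x y z w => - R x y z w) = scl (-1) (tn e R) := by
    funext a b c d
    simp [tn, scl]
  rw [this, gb_scl]
  ring

theorem sharp_neg (hR : AlgCurv R) {c : ℝ} (hc : 0 < c) (h : SecIn R (-(4 * c)) (-c)) :
    gb (tn e R) ≤ -(5760 * c ^ 3) := by
  have h1 := sharp_pos e (neg_curv hR) hc (neg_sec h)
  rw [gb_neg] at h1
  linarith

theorem posi_neg (hR : AlgCurv R) {c : ℝ} (hc : 0 < c) (h : SecIn R (-(35 / 8 * c)) (-c)) :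
    gb (tn e R) ≤ -(5760 / 50 * c ^ 3) := by
  have h1 := posi_pos e (neg_curv hR) hc (neg_sec h)
  rw [gb_neg] at h1
  linarith

end

/-! ### fields of curvature tensors -/

/-- The value of the Gauss-Bonnet-Chern integrand for constant curvature `c`. -/
noncomputable def roundGB (c : ℝ) : ℝ := 15 / (8 * Real.pi ^ 3) * c ^ 3

/-- A field of algebraic curvature tensors: at every point `p` of `M` a six dimensional Euclidean
vector space `V p` with an orthonormal basis and an algebraic curvature tensor on it (for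
a Riemannian `6`-manifold: the tangent space and the curvature tensor at `p`). -/
structure CurvField (M : Type) where
  V : M → Type
  [ng : ∀ p, NormedAddCommGroup (V p)]
  [ip : ∀ p, InnerProductSpace ℝ (V p)]
  e : ∀ p, OrthonormalBasis (Fin 6) ℝ (V p)
  R : ∀ p, V p → V p → V p → V p → ℝ
  curv : ∀ p, AlgCurv (R p)

namespace CurvField

attribute [instance] CurvField.ng CurvField.ip

variable {M : Type} (K : CurvField M)

/-- all sectional curvatures at `p` lie in `[a, b]` -/
def SecIn (p : M) (a b : ℝ) : Prop := Hopf6.SecIn (K.R p) a b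

/-- the Gauss-Bonnet-Chern integrand -/
noncomputable def gbc (p : M) : ℝ := Hopf6.gbc (K.e p) (K.R p)

end CurvField

theorem point_pos {V : Type*} [NormedAddCommGroup V] [InnerProductSpace ℝ V]
    (e : OrthonormalBasis (Fin 6) ℝ V) {R : V → V → V → V → ℝ}
    (hR : AlgCurv R) {c : ℝ} (hc : 0 < c) (h : SecIn R c (35 / 8 * c)) :
    1 / 50 * roundGB c ≤ gbc e R := by
  have h1 := posi_pos e hR hc h
  have hpi := Real.pi_pos
  rw [gbc_eq]
  calc 1 / 50 * roundGB c = 1 / ((8 * Real.pi) ^ 3 * 6) * (5760 / 50 * c ^ 3) := by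
        unfold roundGB
        field_simp
        norm_num
    _ ≤ _ := mul_le_mul_of_nonneg_left h1 (by positivity)

theorem point_neg {V : Type*} [NormedAddCommGroup V] [InnerProductSpace ℝ V]
    (e : OrthonormalBasis (Fin 6) ℝ V) {R : V → V → V → V → ℝ}
    (hR : AlgCurv R) {c : ℝ} (hc : 0 < c) (h : SecIn R (-(35 / 8 * c)) (-c)) :
    gbc e R ≤ -(1 / 50 * roundGB c) := by
  have h1 := posi_neg e hR hc h
  have hpi := Real.pi_pos
  rw [gbc_eq]
  calc 1 / ((8 * Real.pi) ^ 3 * 6) * gb (tn e R) ≤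
      1 / ((8 * Real.pi) ^ 3 * 6) * (-(5760 / 50 * c ^ 3)) :=
        mul_le_mul_of_nonneg_left h1 (by positivity)
    _ = -(1 / 50 * roundGB c) := by
        unfold roundGB
        field_simp
        norm_num

theorem quarter_pos {V : Type*} [NormedAddCommGroup V] [InnerProductSpace ℝ V]
    (e : OrthonormalBasis (Fin 6) ℝ V) {R : V → V → V → V → ℝ}
    (hR : AlgCurv R) {c : ℝ} (hc : 0 < c) (h : SecIn R c (4 * c)) :
    roundGB c ≤ gbc e R := by
  have h1 := sharp_pos e hR hc h
  have hpi := Real.pi_pos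
  rw [gbc_eq]
  calc roundGB c = 1 / ((8 * Real.pi) ^ 3 * 6) * (5760 * c ^ 3) := by
        unfold roundGB
        field_simp
        norm_num
    _ ≤ _ := mul_le_mul_of_nonneg_left h1 (by positivity)

theorem quarter_neg {V : Type*} [NormedAddCommGroup V] [InnerProductSpace ℝ V]
    (e : OrthonormalBasis (Fin 6) ℝ V) {R : V → V → V → V → ℝ}
    (hR : AlgCurv R) {c : ℝ} (hc : 0 < c) (h : SecIn R (-(4 * c)) (-c)) :
    gbc e R ≤ -(roundGB c) := by
  have h1 := sharp_neg e hR hc h
  have hpi := Real.pi_pos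
  rw [gbc_eq]
  calc 1 / ((8 * Real.pi) ^ 3 * 6) * gb (tn e R) ≤
      1 / ((8 * Real.pi) ^ 3 * 6) * (-(5760 * c ^ 3)) :=
        mul_le_mul_of_nonneg_left h1 (by positivity)
    _ = -(roundGB c) := by
        unfold roundGB
        field_simp
        norm_num

theorem roundGB_pos {c : ℝ} (hc : 0 < c) : 0 < roundGB c := by
  have hpi := Real.pi_pos
  unfold roundGB
  positivity

end Hopf6
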