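import Pool.Agent.H933R2.Hopf.Main
import Pool.Agent.H933R2.Hopf.CertM

/-!
# Curvature of one sign with pinched mean in dimension six
-/

open scoped BigOperators

namespace Hopf6

theorem mean_core {R : Ten} (hR : IsCurv R)
    (h : ∀ x : Fin 6 → ℝ, ∑ a, x a ^ 2 = 1 → ∀ y, 0 ≤ quad R x y ∧ quad R x y ≤ 1 * area2 x y)
    (hs : 24 ≤ sc R) : 5760 / 100 ≤ gb R := by
  obtain ⟨ι, _, ⟨D⟩⟩ := exists_design
  have h1 := D.av_nonneg fun i => mean_nonneg hR (D.unit i) (fun y => (h _ (D.unit i) y).1)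
    (fun y => (h _ (D.unit i) y).2) hs
  have h2 := h1.trans_eq (mean_av D hR)
  linarith

theorem sc_scl (k : ℝ) (R : Ten) : sc (scl k R) = k * sc R := by
  unfold sc Rc scl
  simp only [Finset.mul_sum]

section
variable {V : Type*} [NormedAddCommGroup V] [InnerProductSpace ℝ V]

/-- scalar curvature, computed in the orthonormal basis `e` -/
noncomputable def scalar (e : OrthonormalBasis (Fin 6) ℝ V) (R : V → V → V → V → ℝ) : ℝ :=
  ∑ i, ∑ j, R (e i) (e j) (e i) (e j)

variable (e : OrthonormalBasis (Fin 6) ℝ V) {R : V → V → V → V → ℝ}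

theorem sc_tn (R : V → V → V → V → ℝ) : sc (tn e R) = scalar e R := rfl

theorem comp_bound0 (hR : AlgCurv R) {c : ℝ} (hc : 0 < c) (h : SecIn R 0 c)
    (x : Fin 6 → ℝ) (hx : ∑ a, x a ^ 2 = 1) (y : Fin 6 → ℝ) :
    0 ≤ quad (scl c⁻¹ (tn e R)) x y ∧
      quad (scl c⁻¹ (tn e R)) x y ≤ 1 * area2 x y := by
  have hx1 : ‖vc e x‖ = 1 := by
    have := vc_norm e x
    rw [hx] at this
    nlinarith [norm_nonneg (vc e x)]
  have h1 := sec_bound hR h (vc e x) (vc e y) hx1
  have ha : ‖vc e y‖ ^ 2 - inner ℝ (vc e x) (vc e y) ^ 2 = area2 x y := by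
    rw [vc_norm, vc_inner]
    unfold area2
    rw [hx, one_mul]
  rw [ha, ← quad_tn e hR, zero_mul] at h1
  rw [quad_scl]
  constructor
  · exact mul_nonneg (inv_nonneg.2 hc.le) h1.1
  · calc c⁻¹ * quad (tn e R) x y ≤ c⁻¹ * (c * area2 x y) :=
          mul_le_mul_of_nonneg_left h1.2 (inv_nonneg.2 hc.le)
      _ = 1 * area2 x y := by field_simp

/-- vanishing sectional curvature -/
theorem zero_of_sec (hR : AlgCurv R) (h : SecIn R 0 0) (x y z w : V) : R x y z w = 0 := by
  have a1 : ∀ u u' v z w, R (u + u') v z w = R u v z w + R u' v z w := hR.add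
  have a2 : ∀ u v v' u' w, R u (v + v') u' w = R u v u' w + R u v' u' w := by
    intro u v v' u' w
    rw [hR.anti (v + v') u u' w, hR.add, hR.anti v u u' w, hR.anti v' u u' w]
    ring
  have a4 : ∀ u v u' w w', R u v u' (w + w') = R u v u' w + R u v u' w' := by
    intro u v u' w w'
    rw [hR.pair u' (w + w') u v, a2, hR.pair u' w u v, hR.pair u' w' u v]
  have a3 : ∀ u v w w' z, R u v (w + w') z = R u v w z + R u v w' z := by
    intro u v w w' z
    rw [hR.pair (w + w') z u v, a1, hR.pair w z u v, hR.pair w' z u v]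
  have m1 : ∀ (t : ℝ) u v z w, R (t • u) v z w = t * R u v z w := hR.smul
  have m3 : ∀ (t : ℝ) u v u' w, R u v (t • u') w = t * R u v u' w := by
    intro t u v u' w
    rw [hR.pair (t • u') w u v, m1, hR.pair u' w u v]
  have q0 : ∀ x y : V, R x y x y = 0 := by
    intro x y
    rcases eq_or_ne x 0 with h0 | h0
    · rw [h0]
      have := m1 0 0 y 0 y
      rw [zero_smul, zero_mul] at this
      exact this
    · have hn : ‖x‖ ≠ 0 := norm_ne_zero_iff.2 h0
      have h1 := sec_bound hR h (‖x‖⁻¹ • x) y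
        (by rw [norm_smul, norm_inv, norm_norm, inv_mul_cancel₀ hn])
      rw [zero_mul] at h1
      have h2 := le_antisymm h1.2 h1.1
      rw [m1, m3] at h2
      rcases mul_eq_zero.1 h2 with h3 | h3
      · exact absurd h3 (inv_ne_zero hn)
      · rcases mul_eq_zero.1 h3 with h4 | h4
        · exact absurd h4 (inv_ne_zero hn)
        · exact h4
  have q1 : ∀ x y w : V, R x y x w = 0 := by
    intro x y w
    have h1 := q0 x (y + w)
    rw [a2, a4, a4, q0 x y, q0 x w] at h1
    have h2 : R x w x y = R x y x w := by rw [hR.pair x y x w]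
    rw [h2] at h1
    linarith
  have q2 : ∀ x y z w : V, R z y x w = - R x y z w := by
    intro x y z w
    have h1 := q1 (x + z) y w
    rw [a1, a3, a3, q1 x y w, q1 z y w] at h1
    linarith
  have c1 : R y z x w = R x y z w := by
    rw [q2 x z y w, hR.anti z x y w, neg_neg, q2 y x z w, hR.anti x y z w, neg_neg]
  have c2 : R z x y w = R x y z w := by
    rw [q2 y x z w, hR.anti x y z w, neg_neg]
  have hb := hR.bianchi x y z w
  rw [c1, c2] at hb
  linarith

theorem mean_pos (hR : AlgCurv R) {c : ℝ} (hc : 0 ≤ c) (h : SecIn R 0 c)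
    (hs : 24 * c ≤ scalar e R) : 5760 / 100 * c ^ 3 ≤ gb (tn e R) := by
  rcases hc.eq_or_lt with h0 | h0
  · have hz : tn e R = scl 0 (tn e R) := by
      funext a b i j
      subst h0
      simp [tn, scl, zero_of_sec hR h]
    rw [hz, gb_scl, ← h0]
    simp
  · have h1 := mean_core (scl_curv (tn_curv e hR) c⁻¹)
      (fun x hx y => comp_bound0 e hR h0 h x hx y) (by
        rw [sc_scl, sc_tn]
        calc (24 : ℝ) = c⁻¹ * (24 * c) := by field_simp
          _ ≤ _ := mul_le_mul_of_nonneg_left hs (inv_nonneg.2 hc))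
    rw [gb_scl] at h1
    have hc3 : 0 < c ^ 3 := by positivity
    calc 5760 / 100 * c ^ 3 ≤ (c⁻¹ ^ 3 * gb (tn e R)) * c ^ 3 :=
          mul_le_mul_of_nonneg_right h1 hc3.le
      _ = gb (tn e R) := by field_simp

theorem mean_neg (hR : AlgCurv R) {c : ℝ} (hc : 0 ≤ c) (h : SecIn R (-c) 0)
    (hs : scalar e R ≤ -(24 * c)) : gb (tn e R) ≤ -(5760 / 100 * c ^ 3) := by
  have h2 : scalar e (fun x y z w => - R x y z w) = - scalar e R := by
    simp [scalar]
  have h1 := mean_pos e (neg_curv hR) hc (neg_sec (by rwa [neg_zero]))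
    (by rw [h2]; linarith)
  rw [gb_neg] at h1
  linarith

theorem mean_point_pos (hR : AlgCurv R) {c : ℝ} (hc : 0 ≤ c) (h : SecIn R 0 c)
    (hs : 24 * c ≤ scalar e R) : 1 / 100 * roundGB c ≤ gbc e R := by
  have h1 := mean_pos e hR hc h hs
  have hpi := Real.pi_pos
  rw [gbc_eq]
  calc 1 / 100 * roundGB c = 1 / ((8 * Real.pi) ^ 3 * 6) * (5760 / 100 * c ^ 3) := by
        unfold roundGB
        field_simp
        ring
    _ ≤ _ := mul_le_mul_of_nonneg_left h1 (by positivity)

theorem mean_point_neg (hR : AlgCurv R) {c : ℝ} (hc : 0 ≤ c) (h : SecIn R (-c) 0)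
    (hs : scalar e R ≤ -(24 * c)) : gbc e R ≤ -(1 / 100 * roundGB c) := by
  have h1 := mean_neg e hR hc h hs
  have hpi := Real.pi_pos
  rw [gbc_eq]
  calc 1 / ((8 * Real.pi) ^ 3 * 6) * gb (tn e R) ≤
      1 / ((8 * Real.pi) ^ 3 * 6) * (-(5760 / 100 * c ^ 3)) :=
        mul_le_mul_of_nonneg_left h1 (by positivity)
    _ = -(1 / 100 * roundGB c) := by
        unfold roundGB
        field_simp
        ring

end

theorem roundGB_nonneg {c : ℝ} (hc : 0 ≤ c) : 0 ≤ roundGB c := by
  have hpi := Real.pi_pos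
  unfold roundGB
  positivity

namespace CurvField
variable {M : Type} (K : CurvField M)

/-- the scalar curvature at `p` -/
noncomputable def scal (p : M) : ℝ := Hopf6.scalar (K.e p) (K.R p)

end CurvField

end Hopf6
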