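import Pool.Agent.H933R2.Hopf.Avg

/-!
# Averages of the cubic monomials
-/

open scoped BigOperators

namespace Hopf6
namespace Design
variable {ι : Type} [Fintype ι] (D : Design ι) {R : Ten}

theorem n_jjj0 (hR : IsCurv R) : ∑ p, ∑ q, ∑ r, Rc R p p * Rc R q q * Rc R r r = (sc R ^ 3) := by
  have e : ∑ p, ∑ q, ∑ r, Rc R p p * Rc R q q * Rc R r r = net R ![0, 5, 0, 5, 1, 4, 1, 4, 2, 3, 2, 3] := by
    rw [net_sum6]
    simp only [T3, Matrix.cons_val, Rc, Finset.sum_mul, Finset.mul_sum, mul_assoc]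
  rw [e, net_eval hR (c := 0) (v := 0) (d0 := 0) (d1 := 0) (d2 := 0) (σ := ![0, 5, 1, 4, 2, 3]) (by decide)]
  simp only [d4s, vals, Matrix.cons_val]
  push_cast
  ring

theorem n_jjj1 (hR : IsCurv R) : ∑ p, ∑ q, ∑ r, Rc R p p * Rc R q r * Rc R q r = (sc R * nR R) := by
  have e : ∑ p, ∑ q, ∑ r, Rc R p p * Rc R q r * Rc R q r = net R ![0, 5, 0, 5, 1, 4, 2, 4, 1, 3, 2, 3] := by
    rw [net_sum6]
    simp only [T3, Matrix.cons_val, Rc, Finset.sum_mul, Finset.mul_sum, mul_assoc]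
  rw [e, net_eval hR (c := 1) (v := 0) (d0 := 0) (d1 := 3) (d2 := 0) (σ := ![0, 5, 4, 1, 2, 3]) (by decide)]
  simp only [d4s, vals, Matrix.cons_val]
  push_cast
  ring

theorem n_jjj2 (hR : IsCurv R) : ∑ p, ∑ q, ∑ r, Rc R p p * Rc R q r * Rc R r q = (sc R * nR R) := by
  have e : ∑ p, ∑ q, ∑ r, Rc R p p * Rc R q r * Rc R r q = net R ![0, 5, 0, 5, 1, 4, 2, 4, 2, 3, 1, 3] := by
    rw [net_sum6]
    simp only [T3, Matrix.cons_val, Rc, Finset.sum_mul, Finset.mul_sum, mul_assoc]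
  rw [e, net_eval hR (c := 1) (v := 0) (d0 := 0) (d1 := 3) (d2 := 4) (σ := ![0, 5, 4, 1, 2, 3]) (by decide)]
  simp only [d4s, vals, Matrix.cons_val]
  push_cast
  ring

theorem n_jjj3 (hR : IsCurv R) : ∑ p, ∑ q, ∑ r, Rc R p q * Rc R p q * Rc R r r = (sc R * nR R) := by
  have e : ∑ p, ∑ q, ∑ r, Rc R p q * Rc R p q * Rc R r r = net R ![0, 5, 1, 5, 0, 4, 1, 4, 2, 3, 2, 3] := by
    rw [net_sum6]
    simp only [T3, Matrix.cons_val, Rc, Finset.sum_mul, Finset.mul_sum, mul_assoc]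
  rw [e, net_eval hR (c := 1) (v := 4) (d0 := 0) (d1 := 3) (d2 := 0) (σ := ![2, 3, 5, 0, 1, 4]) (by decide)]
  simp only [d4s, vals, Matrix.cons_val]
  push_cast
  ring

theorem n_jjj4 (hR : IsCurv R) : ∑ p, ∑ q, ∑ r, Rc R p q * Rc R p r * Rc R q r = (-1) * (- I4 R) := by
  have e : ∑ p, ∑ q, ∑ r, Rc R p q * Rc R p r * Rc R q r = net R ![0, 5, 1, 5, 0, 4, 2, 4, 1, 3, 2, 3] := by
    rw [net_sum6]
    simp only [T3, Matrix.cons_val, Rc, Finset.sum_mul, Finset.mul_sum, mul_assoc]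
  rw [e, net_eval hR (c := 5) (v := 0) (d0 := 3) (d1 := 2) (d2 := 0) (σ := ![5, 0, 1, 4, 2, 3]) (by decide)]
  simp only [d4s, vals, Matrix.cons_val]
  push_cast
  ring

theorem n_jjj5 (hR : IsCurv R) : ∑ p, ∑ q, ∑ r, Rc R p q * Rc R p r * Rc R r q = (-1) * (- I4 R) := by
  have e : ∑ p, ∑ q, ∑ r, Rc R p q * Rc R p r * Rc R r q = net R ![0, 5, 1, 5, 0, 4, 2, 4, 2, 3, 1, 3] := by
    rw [net_sum6]
    simp only [T3, Matrix.cons_val, Rc, Finset.sum_mul, Finset.mul_sum, mul_assoc]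
  rw [e, net_eval hR (c := 5) (v := 0) (d0 := 3) (d1 := 2) (d2 := 4) (σ := ![5, 0, 1, 4, 2, 3]) (by decide)]
  simp only [d4s, vals, Matrix.cons_val]
  push_cast
  ring

theorem n_jjj6 (hR : IsCurv R) : ∑ p, ∑ q, ∑ r, Rc R p q * Rc R q p * Rc R r r = (sc R * nR R) := by
  have e : ∑ p, ∑ q, ∑ r, Rc R p q * Rc R q p * Rc R r r = net R ![0, 5, 1, 5, 1, 4, 0, 4, 2, 3, 2, 3] := by
    rw [net_sum6]
    simp only [T3, Matrix.cons_val, Rc, Finset.sum_mul, Finset.mul_sum, mul_assoc]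
  rw [e, net_eval hR (c := 1) (v := 4) (d0 := 0) (d1 := 3) (d2 := 4) (σ := ![2, 3, 5, 0, 1, 4]) (by decide)]
  simp only [d4s, vals, Matrix.cons_val]
  push_cast
  ring

theorem n_jjj7 (hR : IsCurv R) : ∑ p, ∑ q, ∑ r, Rc R p q * Rc R r p * Rc R q r = (-1) * (- I4 R) := by
  have e : ∑ p, ∑ q, ∑ r, Rc R p q * Rc R r p * Rc R q r = net R ![0, 5, 1, 5, 2, 4, 0, 4, 1, 3, 2, 3] := by
    rw [net_sum6]
    simp only [T3, Matrix.cons_val, Rc, Finset.sum_mul, Finset.mul_sum, mul_assoc]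
  rw [e, net_eval hR (c := 5) (v := 0) (d0 := 3) (d1 := 6) (d2 := 0) (σ := ![5, 0, 1, 4, 2, 3]) (by decide)]
  simp only [d4s, vals, Matrix.cons_val]
  push_cast
  ring

theorem n_jjj8 (hR : IsCurv R) : ∑ p, ∑ q, ∑ r, Rc R p q * Rc R r p * Rc R r q = (-1) * (- I4 R) := by
  have e : ∑ p, ∑ q, ∑ r, Rc R p q * Rc R r p * Rc R r q = net R ![0, 5, 1, 5, 2, 4, 0, 4, 2, 3, 1, 3] := by
    rw [net_sum6]
    simp only [T3, Matrix.cons_val, Rc, Finset.sum_mul, Finset.mul_sum, mul_assoc]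
  rw [e, net_eval hR (c := 5) (v := 0) (d0 := 3) (d1 := 6) (d2 := 4) (σ := ![5, 0, 1, 4, 2, 3]) (by decide)]
  simp only [d4s, vals, Matrix.cons_val]
  push_cast
  ring

theorem n_jjj9 (hR : IsCurv R) : ∑ p, ∑ q, ∑ r, Rc R p q * Rc R q r * Rc R p r = (-1) * (- I4 R) := by
  have e : ∑ p, ∑ q, ∑ r, Rc R p q * Rc R q r * Rc R p r = net R ![0, 5, 1, 5, 1, 4, 2, 4, 0, 3, 2, 3] := by
    rw [net_sum6]
    simp only [T3, Matrix.cons_val, Rc, Finset.sum_mul, Finset.mul_sum, mul_assoc]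
  rw [e, net_eval hR (c := 5) (v := 0) (d0 := 7) (d1 := 2) (d2 := 0) (σ := ![5, 1, 0, 4, 2, 3]) (by decide)]
  simp only [d4s, vals, Matrix.cons_val]
  push_cast
  ring

theorem n_jjj10 (hR : IsCurv R) : ∑ p, ∑ q, ∑ r, Rc R p q * Rc R r q * Rc R p r = (-1) * (- I4 R) := by
  have e : ∑ p, ∑ q, ∑ r, Rc R p q * Rc R r q * Rc R p r = net R ![0, 5, 1, 5, 2, 4, 1, 4, 0, 3, 2, 3] := by
    rw [net_sum6]
    simp only [T3, Matrix.cons_val, Rc, Finset.sum_mul, Finset.mul_sum, mul_assoc]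
  rw [e, net_eval hR (c := 5) (v := 0) (d0 := 7) (d1 := 6) (d2 := 0) (σ := ![5, 1, 0, 4, 2, 3]) (by decide)]
  simp only [d4s, vals, Matrix.cons_val]
  push_cast
  ring

theorem n_jjj11 (hR : IsCurv R) : ∑ p, ∑ q, ∑ r, Rc R p q * Rc R r r * Rc R p q = (sc R * nR R) := by
  have e : ∑ p, ∑ q, ∑ r, Rc R p q * Rc R r r * Rc R p q = net R ![0, 5, 1, 5, 2, 4, 2, 4, 0, 3, 1, 3] := by
    rw [net_sum6]
    simp only [T3, Matrix.cons_val, Rc, Finset.sum_mul, Finset.mul_sum, mul_assoc]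
  rw [e, net_eval hR (c := 1) (v := 2) (d0 := 0) (d1 := 3) (d2 := 0) (σ := ![2, 4, 5, 0, 1, 3]) (by decide)]
  simp only [d4s, vals, Matrix.cons_val]
  push_cast
  ring

theorem n_jjj12 (hR : IsCurv R) : ∑ p, ∑ q, ∑ r, Rc R p q * Rc R q r * Rc R r p = (-1) * (- I4 R) := by
  have e : ∑ p, ∑ q, ∑ r, Rc R p q * Rc R q r * Rc R r p = net R ![0, 5, 1, 5, 1, 4, 2, 4, 2, 3, 0, 3] := by
    rw [net_sum6]
    simp only [T3, Matrix.cons_val, Rc, Finset.sum_mul, Finset.mul_sum, mul_assoc]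
  rw [e, net_eval hR (c := 5) (v := 0) (d0 := 7) (d1 := 2) (d2 := 4) (σ := ![5, 1, 0, 4, 2, 3]) (by decide)]
  simp only [d4s, vals, Matrix.cons_val]
  push_cast
  ring

theorem n_jjj13 (hR : IsCurv R) : ∑ p, ∑ q, ∑ r, Rc R p q * Rc R r q * Rc R r p = (-1) * (- I4 R) := by
  have e : ∑ p, ∑ q, ∑ r, Rc R p q * Rc R r q * Rc R r p = net R ![0, 5, 1, 5, 2, 4, 1, 4, 2, 3, 0, 3] := by
    rw [net_sum6]
    simp only [T3, Matrix.cons_val, Rc, Finset.sum_mul, Finset.mul_sum, mul_assoc]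
  rw [e, net_eval hR (c := 5) (v := 0) (d0 := 7) (d1 := 6) (d2 := 4) (σ := ![5, 1, 0, 4, 2, 3]) (by decide)]
  simp only [d4s, vals, Matrix.cons_val]
  push_cast
  ring

theorem n_jjj14 (hR : IsCurv R) : ∑ p, ∑ q, ∑ r, Rc R p q * Rc R r r * Rc R q p = (sc R * nR R) := by
  have e : ∑ p, ∑ q, ∑ r, Rc R p q * Rc R r r * Rc R q p = net R ![0, 5, 1, 5, 2, 4, 2, 4, 1, 3, 0, 3] := by
    rw [net_sum6]
    simp only [T3, Matrix.cons_val, Rc, Finset.sum_mul, Finset.mul_sum, mul_assoc]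
  rw [e, net_eval hR (c := 1) (v := 2) (d0 := 0) (d1 := 3) (d2 := 4) (σ := ![2, 4, 5, 0, 1, 3]) (by decide)]
  simp only [d4s, vals, Matrix.cons_val]
  push_cast
  ring

theorem av_jjj (hR : IsCurv R) : D.av (fun x => jx R x ^ 3) = (1/60) * (I4 R) + (1/480) * (sc R ^ 3) + (1/80) * (sc R * nR R) := by
  have h : D.av (fun x => jx R x ^ 3) = D.av (fun x => qf (fun p q => Rc R p q) x * qf (fun p q => Rc R p q) x * qf (fun p q => Rc R p q) x) := by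
    refine congrArg D.av (funext fun x => ?_)
    change qf (Rc R) x ^ 3 = qf (Rc R) x * qf (Rc R) x * qf (Rc R) x
    ring

  rw [h]
  simp (maxSteps := 2000000) only [quad3]
  rw [n_jjj0 hR, n_jjj1 hR, n_jjj2 hR, n_jjj3 hR, n_jjj4 hR, n_jjj5 hR, n_jjj6 hR, n_jjj7 hR, n_jjj8 hR, n_jjj9 hR, n_jjj10 hR, n_jjj11 hR, n_jjj12 hR, n_jjj13 hR, n_jjj14 hR]
  all_goals ring

theorem n_jJJ0 (hR : IsCurv R) : ∑ a, ∑ b, ∑ p, ∑ q, ∑ r, Rc R p p * R q a q b * R r a r b = (sc R * nR R) := by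
  have e : ∑ a, ∑ b, ∑ p, ∑ q, ∑ r, Rc R p p * R q a q b * R r a r b = net R ![2, 5, 2, 5, 3, 0, 3, 1, 4, 0, 4, 1] := by
    rw [net_sum6]
    simp only [T3, Matrix.cons_val, Rc, Finset.sum_mul, Finset.mul_sum, mul_assoc]
  rw [e, net_eval hR (c := 1) (v := 0) (d0 := 0) (d1 := 0) (d2 := 3) (σ := ![2, 5, 3, 0, 1, 4]) (by decide)]
  simp only [d4s, vals, Matrix.cons_val]
  push_cast
  ring

theorem n_jJJ1 (hR : IsCurv R) : ∑ a, ∑ b, ∑ p, ∑ q, ∑ r, Rc R p p * R q a r b * R q a r b = (sc R * nS R) := by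
  have e : ∑ a, ∑ b, ∑ p, ∑ q, ∑ r, Rc R p p * R q a r b * R q a r b = net R ![2, 5, 2, 5, 3, 0, 4, 1, 3, 0, 4, 1] := by
    rw [net_sum6]
    simp only [T3, Matrix.cons_val, Rc, Finset.sum_mul, Finset.mul_sum, mul_assoc]
  rw [e, net_eval hR (c := 2) (v := 0) (d0 := 0) (d1 := 0) (d2 := 0) (σ := ![2, 5, 3, 0, 4, 1]) (by decide)]
  simp only [d4s, vals, Matrix.cons_val]
  push_cast
  ring

theorem n_jJJ2 (hR : IsCurv R) : ∑ a, ∑ b, ∑ p, ∑ q, ∑ r, Rc R p p * R q a r b * R r a q b = (sc R * nS R / 2) := by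
  have e : ∑ a, ∑ b, ∑ p, ∑ q, ∑ r, Rc R p p * R q a r b * R r a q b = net R ![2, 5, 2, 5, 3, 0, 4, 1, 4, 0, 3, 1] := by
    rw [net_sum6]
    simp only [T3, Matrix.cons_val, Rc, Finset.sum_mul, Finset.mul_sum, mul_assoc]
  rw [e, net_eval hR (c := 3) (v := 0) (d0 := 0) (d1 := 1) (d2 := 1) (σ := ![2, 5, 0, 3, 4, 1]) (by decide)]
  simp only [d4s, vals, Matrix.cons_val]
  push_cast
  ring

theorem n_jJJ3 (hR : IsCurv R) : ∑ a, ∑ b, ∑ p, ∑ q, ∑ r, Rc R p q * R p a q b * R r a r b = (I5 R) := by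
  have e : ∑ a, ∑ b, ∑ p, ∑ q, ∑ r, Rc R p q * R p a q b * R r a r b = net R ![2, 5, 3, 5, 2, 0, 3, 1, 4, 0, 4, 1] := by
    rw [net_sum6]
    simp only [T3, Matrix.cons_val, Rc, Finset.sum_mul, Finset.mul_sum, mul_assoc]
  rw [e, net_eval hR (c := 4) (v := 0) (d0 := 3) (d1 := 0) (d2 := 3) (σ := ![5, 2, 3, 0, 1, 4]) (by decide)]
  simp only [d4s, vals, Matrix.cons_val]
  push_cast
  ring

theorem n_jJJ4 (hR : IsCurv R) : ∑ a, ∑ b, ∑ p, ∑ q, ∑ r, Rc R p q * R p a r b * R q a r b = (I6 R) := by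
  have e : ∑ a, ∑ b, ∑ p, ∑ q, ∑ r, Rc R p q * R p a r b * R q a r b = net R ![2, 5, 3, 5, 2, 0, 4, 1, 3, 0, 4, 1] := by
    rw [net_sum6]
    simp only [T3, Matrix.cons_val, Rc, Finset.sum_mul, Finset.mul_sum, mul_assoc]
  rw [e, net_eval hR (c := 6) (v := 0) (d0 := 3) (d1 := 0) (d2 := 0) (σ := ![5, 2, 3, 0, 4, 1]) (by decide)]
  simp only [d4s, vals, Matrix.cons_val]
  push_cast
  ring

theorem n_jJJ5 (hR : IsCurv R) : ∑ a, ∑ b, ∑ p, ∑ q, ∑ r, Rc R p q * R p a r b * R r a q b = (I6 R / 2) := by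
  have e : ∑ a, ∑ b, ∑ p, ∑ q, ∑ r, Rc R p q * R p a r b * R r a q b = net R ![2, 5, 3, 5, 2, 0, 4, 1, 4, 0, 3, 1] := by
    rw [net_sum6]
    simp only [T3, Matrix.cons_val, Rc, Finset.sum_mul, Finset.mul_sum, mul_assoc]
  rw [e, net_eval hR (c := 7) (v := 0) (d0 := 3) (d1 := 2) (d2 := 6) (σ := ![5, 2, 3, 0, 1, 4]) (by decide)]
  simp only [d4s, vals, Matrix.cons_val]
  push_cast
  ring

theorem n_jJJ6 (hR : IsCurv R) : ∑ a, ∑ b, ∑ p, ∑ q, ∑ r, Rc R p q * R q a p b * R r a r b = (I5 R) := by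
  have e : ∑ a, ∑ b, ∑ p, ∑ q, ∑ r, Rc R p q * R q a p b * R r a r b = net R ![2, 5, 3, 5, 3, 0, 2, 1, 4, 0, 4, 1] := by
    rw [net_sum6]
    simp only [T3, Matrix.cons_val, Rc, Finset.sum_mul, Finset.mul_sum, mul_assoc]
  rw [e, net_eval hR (c := 4) (v := 0) (d0 := 3) (d1 := 4) (d2 := 7) (σ := ![5, 2, 3, 1, 0, 4]) (by decide)]
  simp only [d4s, vals, Matrix.cons_val]
  push_cast
  ring

theorem n_jJJ7 (hR : IsCurv R) : ∑ a, ∑ b, ∑ p, ∑ q, ∑ r, Rc R p q * R r a p b * R q a r b = (I6 R / 2) := by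
  have e : ∑ a, ∑ b, ∑ p, ∑ q, ∑ r, Rc R p q * R r a p b * R q a r b = net R ![2, 5, 3, 5, 4, 0, 2, 1, 3, 0, 4, 1] := by
    rw [net_sum6]
    simp only [T3, Matrix.cons_val, Rc, Finset.sum_mul, Finset.mul_sum, mul_assoc]
  rw [e, net_eval hR (c := 7) (v := 0) (d0 := 3) (d1 := 6) (d2 := 2) (σ := ![5, 2, 3, 1, 0, 4]) (by decide)]
  simp only [d4s, vals, Matrix.cons_val]
  push_cast
  ring

theorem n_jJJ8 (hR : IsCurv R) : ∑ a, ∑ b, ∑ p, ∑ q, ∑ r, Rc R p q * R r a p b * R r a q b = (I6 R) := by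
  have e : ∑ a, ∑ b, ∑ p, ∑ q, ∑ r, Rc R p q * R r a p b * R r a q b = net R ![2, 5, 3, 5, 4, 0, 2, 1, 4, 0, 3, 1] := by
    rw [net_sum6]
    simp only [T3, Matrix.cons_val, Rc, Finset.sum_mul, Finset.mul_sum, mul_assoc]
  rw [e, net_eval hR (c := 6) (v := 0) (d0 := 3) (d1 := 4) (d2 := 4) (σ := ![5, 2, 3, 1, 4, 0]) (by decide)]
  simp only [d4s, vals, Matrix.cons_val]
  push_cast
  ring

theorem n_jJJ9 (hR : IsCurv R) : ∑ a, ∑ b, ∑ p, ∑ q, ∑ r, Rc R p q * R q a r b * R p a r b = (I6 R) := by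
  have e : ∑ a, ∑ b, ∑ p, ∑ q, ∑ r, Rc R p q * R q a r b * R p a r b = net R ![2, 5, 3, 5, 3, 0, 4, 1, 2, 0, 4, 1] := by
    rw [net_sum6]
    simp only [T3, Matrix.cons_val, Rc, Finset.sum_mul, Finset.mul_sum, mul_assoc]
  rw [e, net_eval hR (c := 6) (v := 0) (d0 := 7) (d1 := 0) (d2 := 0) (σ := ![5, 3, 2, 0, 4, 1]) (by decide)]
  simp only [d4s, vals, Matrix.cons_val]
  push_cast
  ring

theorem n_jJJ10 (hR : IsCurv R) : ∑ a, ∑ b, ∑ p, ∑ q, ∑ r, Rc R p q * R r a q b * R p a r b = (I6 R / 2) := by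
  have e : ∑ a, ∑ b, ∑ p, ∑ q, ∑ r, Rc R p q * R r a q b * R p a r b = net R ![2, 5, 3, 5, 4, 0, 3, 1, 2, 0, 4, 1] := by
    rw [net_sum6]
    simp only [T3, Matrix.cons_val, Rc, Finset.sum_mul, Finset.mul_sum, mul_assoc]
  rw [e, net_eval hR (c := 7) (v := 0) (d0 := 7) (d1 := 6) (d2 := 2) (σ := ![5, 3, 2, 1, 0, 4]) (by decide)]
  simp only [d4s, vals, Matrix.cons_val]
  push_cast
  ring

theorem n_jJJ11 (hR : IsCurv R) : ∑ a, ∑ b, ∑ p, ∑ q, ∑ r, Rc R p q * R r a r b * R p a q b = (I5 R) := by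
  have e : ∑ a, ∑ b, ∑ p, ∑ q, ∑ r, Rc R p q * R r a r b * R p a q b = net R ![2, 5, 3, 5, 4, 0, 4, 1, 2, 0, 3, 1] := by
    rw [net_sum6]
    simp only [T3, Matrix.cons_val, Rc, Finset.sum_mul, Finset.mul_sum, mul_assoc]
  rw [e, net_eval hR (c := 4) (v := 1) (d0 := 3) (d1 := 0) (d2 := 3) (σ := ![5, 2, 3, 0, 1, 4]) (by decide)]
  simp only [d4s, vals, Matrix.cons_val]
  push_cast
  ring

theorem n_jJJ12 (hR : IsCurv R) : ∑ a, ∑ b, ∑ p, ∑ q, ∑ r, Rc R p q * R q a r b * R r a p b = (I6 R / 2) := by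
  have e : ∑ a, ∑ b, ∑ p, ∑ q, ∑ r, Rc R p q * R q a r b * R r a p b = net R ![2, 5, 3, 5, 3, 0, 4, 1, 4, 0, 2, 1] := by
    rw [net_sum6]
    simp only [T3, Matrix.cons_val, Rc, Finset.sum_mul, Finset.mul_sum, mul_assoc]
  rw [e, net_eval hR (c := 7) (v := 0) (d0 := 7) (d1 := 2) (d2 := 6) (σ := ![5, 3, 2, 0, 1, 4]) (by decide)]
  simp only [d4s, vals, Matrix.cons_val]
  push_cast
  ring

theorem n_jJJ13 (hR : IsCurv R) : ∑ a, ∑ b, ∑ p, ∑ q, ∑ r, Rc R p q * R r a q b * R r a p b = (I6 R) := by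
  have e : ∑ a, ∑ b, ∑ p, ∑ q, ∑ r, Rc R p q * R r a q b * R r a p b = net R ![2, 5, 3, 5, 4, 0, 3, 1, 4, 0, 2, 1] := by
    rw [net_sum6]
    simp only [T3, Matrix.cons_val, Rc, Finset.sum_mul, Finset.mul_sum, mul_assoc]
  rw [e, net_eval hR (c := 6) (v := 0) (d0 := 7) (d1 := 4) (d2 := 4) (σ := ![5, 3, 2, 1, 4, 0]) (by decide)]
  simp only [d4s, vals, Matrix.cons_val]
  push_cast
  ring

theorem n_jJJ14 (hR : IsCurv R) : ∑ a, ∑ b, ∑ p, ∑ q, ∑ r, Rc R p q * R r a r b * R q a p b = (I5 R) := by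
  have e : ∑ a, ∑ b, ∑ p, ∑ q, ∑ r, Rc R p q * R r a r b * R q a p b = net R ![2, 5, 3, 5, 4, 0, 4, 1, 3, 0, 2, 1] := by
    rw [net_sum6]
    simp only [T3, Matrix.cons_val, Rc, Finset.sum_mul, Finset.mul_sum, mul_assoc]
  rw [e, net_eval hR (c := 4) (v := 1) (d0 := 3) (d1 := 4) (d2 := 7) (σ := ![5, 2, 3, 1, 0, 4]) (by decide)]
  simp only [d4s, vals, Matrix.cons_val]
  push_cast
  ring

theorem av_jJJ (hR : IsCurv R) : D.av (fun x => jx R x * mJJ R x) = (1/120) * (I5 R) + (1/80) * (I6 R) + (1/480) * (sc R * nR R) + (1/320) * (sc R * nS R) := by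
  have h : D.av (fun x => jx R x * mJJ R x) = ∑ a, ∑ b, D.av (fun x => qf (fun p q => Rc R p q) x * qf (fun p q => R p a q b) x * qf (fun p q => R p a q b) x) := by
    simp only [← av_sum]
    refine congrArg D.av (funext fun x => ?_)
    simp only [mul_assoc, ← Finset.mul_sum]
    rfl

  rw [h]
  simp (maxSteps := 2000000) only [quad3, c480, Finset.sum_add_distrib]
  rw [n_jJJ0 hR, n_jJJ1 hR, n_jJJ2 hR, n_jJJ3 hR, n_jJJ4 hR, n_jJJ5 hR, n_jJJ6 hR, n_jJJ7 hR, n_jJJ8 hR, n_jJJ9 hR, n_jJJ10 hR, n_jJJ11 hR, n_jJJ12 hR, n_jJJ13 hR, n_jJJ14 hR]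
  all_goals ring

theorem n_jJR0 (hR : IsCurv R) : ∑ a, ∑ b, ∑ p, ∑ q, Rc R p p * R q a q b * Rc R a b = (sc R * nR R) := by
  have e : ∑ a, ∑ b, ∑ p, ∑ q, Rc R p p * R q a q b * Rc R a b = net R ![2, 5, 2, 5, 3, 0, 3, 1, 0, 4, 1, 4] := by
    rw [net_sum6]
    simp only [T3, Matrix.cons_val, Rc, Finset.sum_mul, Finset.mul_sum, mul_assoc]
  rw [e, net_eval hR (c := 1) (v := 0) (d0 := 0) (d1 := 0) (d2 := 0) (σ := ![2, 5, 3, 0, 1, 4]) (by decide)]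
  simp only [d4s, vals, Matrix.cons_val]
  push_cast
  ring

theorem n_jJR1 (hR : IsCurv R) : ∑ a, ∑ b, ∑ p, ∑ q, Rc R p q * R p a q b * Rc R a b = (I5 R) := by
  have e : ∑ a, ∑ b, ∑ p, ∑ q, Rc R p q * R p a q b * Rc R a b = net R ![2, 5, 3, 5, 2, 0, 3, 1, 0, 4, 1, 4] := by
    rw [net_sum6]
    simp only [T3, Matrix.cons_val, Rc, Finset.sum_mul, Finset.mul_sum, mul_assoc]
  rw [e, net_eval hR (c := 4) (v := 0) (d0 := 3) (d1 := 0) (d2 := 0) (σ := ![5, 2, 3, 0, 1, 4]) (by decide)]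
  simp only [d4s, vals, Matrix.cons_val]
  push_cast
  ring

theorem n_jJR2 (hR : IsCurv R) : ∑ a, ∑ b, ∑ p, ∑ q, Rc R p q * R q a p b * Rc R a b = (I5 R) := by
  have e : ∑ a, ∑ b, ∑ p, ∑ q, Rc R p q * R q a p b * Rc R a b = net R ![2, 5, 3, 5, 3, 0, 2, 1, 0, 4, 1, 4] := by
    rw [net_sum6]
    simp only [T3, Matrix.cons_val, Rc, Finset.sum_mul, Finset.mul_sum, mul_assoc]
  rw [e, net_eval hR (c := 4) (v := 0) (d0 := 3) (d1 := 4) (d2 := 4) (σ := ![5, 2, 3, 1, 0, 4]) (by decide)]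
  simp only [d4s, vals, Matrix.cons_val]
  push_cast
  ring

theorem av_jJR (hR : IsCurv R) : D.av (fun x => jx R x * mJR R x) = (1/24) * (I5 R) + (1/48) * (sc R * nR R) := by
  have h : D.av (fun x => jx R x * mJR R x) = ∑ a, ∑ b, D.av (fun x => qf (fun p q => Rc R p q) x * qf (fun p q => R p a q b) x * (Rc R a b)) := by
    simp only [← av_sum]
    refine congrArg D.av (funext fun x => ?_)
    simp only [mul_assoc, ← Finset.mul_sum]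
    rfl

  rw [h]
  simp (maxSteps := 2000000) only [quad2Y, c48, Finset.sum_add_distrib]
  rw [n_jJR0 hR, n_jJR1 hR, n_jJR2 hR]
  all_goals ring

theorem n_JJJ0 (hR : IsCurv R) : ∑ a, ∑ b, ∑ c, ∑ p, ∑ q, ∑ r, R p a p b * R q b q c * R r c r a = (-1) * (- I4 R) := by
  have e : ∑ a, ∑ b, ∑ c, ∑ p, ∑ q, ∑ r, R p a p b * R q b q c * R r c r a = net R ![3, 0, 3, 1, 4, 1, 4, 2, 5, 2, 5, 0] := by
    rw [net_sum6]
    simp only [T3, Matrix.cons_val, Finset.sum_mul, Finset.mul_sum, mul_assoc]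
  rw [e, net_eval hR (c := 5) (v := 0) (d0 := 4) (d1 := 1) (d2 := 7) (σ := ![3, 1, 0, 4, 2, 5]) (by decide)]
  simp only [d4s, vals, Matrix.cons_val]
  push_cast
  ring

theorem n_JJJ1 (hR : IsCurv R) : ∑ a, ∑ b, ∑ c, ∑ p, ∑ q, ∑ r, R p a p b * R q b r c * R q c r a = (I6 R / 2) := by
  have e : ∑ a, ∑ b, ∑ c, ∑ p, ∑ q, ∑ r, R p a p b * R q b r c * R q c r a = net R ![3, 0, 3, 1, 4, 1, 5, 2, 4, 2, 5, 0] := by
    rw [net_sum6]
    simp only [T3, Matrix.cons_val, Finset.sum_mul, Finset.mul_sum, mul_assoc]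
  rw [e, net_eval hR (c := 7) (v := 0) (d0 := 4) (d1 := 1) (d2 := 5) (σ := ![3, 1, 0, 4, 5, 2]) (by decide)]
  simp only [d4s, vals, Matrix.cons_val]
  push_cast
  ring

theorem n_JJJ2 (hR : IsCurv R) : ∑ a, ∑ b, ∑ c, ∑ p, ∑ q, ∑ r, R p a p b * R q b r c * R r c q a = (I6 R) := by
  have e : ∑ a, ∑ b, ∑ c, ∑ p, ∑ q, ∑ r, R p a p b * R q b r c * R r c q a = net R ![3, 0, 3, 1, 4, 1, 5, 2, 5, 2, 4, 0] := by
    rw [net_sum6]
    simp only [T3, Matrix.cons_val, Finset.sum_mul, Finset.mul_sum, mul_assoc]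
  rw [e, net_eval hR (c := 6) (v := 0) (d0 := 4) (d1 := 1) (d2 := 5) (σ := ![3, 1, 0, 4, 5, 2]) (by decide)]
  simp only [d4s, vals, Matrix.cons_val]
  push_cast
  ring

theorem n_JJJ3 (hR : IsCurv R) : ∑ a, ∑ b, ∑ c, ∑ p, ∑ q, ∑ r, R p a q b * R p b q c * R r c r a = (I6 R / 2) := by
  have e : ∑ a, ∑ b, ∑ c, ∑ p, ∑ q, ∑ r, R p a q b * R p b q c * R r c r a = net R ![3, 0, 4, 1, 3, 1, 4, 2, 5, 2, 5, 0] := by
    rw [net_sum6]
    simp only [T3, Matrix.cons_val, Finset.sum_mul, Finset.mul_sum, mul_assoc]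
  rw [e, net_eval hR (c := 7) (v := 4) (d0 := 4) (d1 := 1) (d2 := 5) (σ := ![5, 0, 2, 3, 4, 1]) (by decide)]
  simp only [d4s, vals, Matrix.cons_val]
  push_cast
  ring

theorem n_JJJ4 (hR : IsCurv R) : ∑ a, ∑ b, ∑ c, ∑ p, ∑ q, ∑ r, R p a q b * R p b r c * R q c r a = (I7 R / 4) := by
  have e : ∑ a, ∑ b, ∑ c, ∑ p, ∑ q, ∑ r, R p a q b * R p b r c * R q c r a = net R ![3, 0, 4, 1, 3, 1, 5, 2, 4, 2, 5, 0] := by
    rw [net_sum6]
    simp only [T3, Matrix.cons_val, Finset.sum_mul, Finset.mul_sum, mul_assoc]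
  rw [e, net_eval hR (c := 10) (v := 0) (d0 := 2) (d1 := 0) (d2 := 5) (σ := ![3, 0, 1, 4, 5, 2]) (by decide)]
  simp only [d4s, vals, Matrix.cons_val]
  push_cast
  ring

theorem n_JJJ5 (hR : IsCurv R) : ∑ a, ∑ b, ∑ c, ∑ p, ∑ q, ∑ r, R p a q b * R p b r c * R r c q a = (I7 R / 2) := by
  have e : ∑ a, ∑ b, ∑ c, ∑ p, ∑ q, ∑ r, R p a q b * R p b r c * R r c q a = net R ![3, 0, 4, 1, 3, 1, 5, 2, 5, 2, 4, 0] := by
    rw [net_sum6]
    simp only [T3, Matrix.cons_val, Finset.sum_mul, Finset.mul_sum, mul_assoc]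
  rw [e, net_eval hR (c := 9) (v := 3) (d0 := 4) (d1 := 2) (d2 := 2) (σ := ![5, 2, 3, 1, 0, 4]) (by decide)]
  simp only [d4s, vals, Matrix.cons_val]
  push_cast
  ring

theorem n_JJJ6 (hR : IsCurv R) : ∑ a, ∑ b, ∑ c, ∑ p, ∑ q, ∑ r, R p a q b * R q b p c * R r c r a = (I6 R) := by
  have e : ∑ a, ∑ b, ∑ c, ∑ p, ∑ q, ∑ r, R p a q b * R q b p c * R r c r a = net R ![3, 0, 4, 1, 4, 1, 3, 2, 5, 2, 5, 0] := by
    rw [net_sum6]
    simp only [T3, Matrix.cons_val, Finset.sum_mul, Finset.mul_sum, mul_assoc]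
  rw [e, net_eval hR (c := 6) (v := 4) (d0 := 4) (d1 := 1) (d2 := 5) (σ := ![5, 0, 2, 3, 4, 1]) (by decide)]
  simp only [d4s, vals, Matrix.cons_val]
  push_cast
  ring

theorem n_JJJ7 (hR : IsCurv R) : ∑ a, ∑ b, ∑ c, ∑ p, ∑ q, ∑ r, R p a q b * R r b p c * R q c r a = (-1) * (I8 R - I7 R / 4) := by
  have e : ∑ a, ∑ b, ∑ c, ∑ p, ∑ q, ∑ r, R p a q b * R r b p c * R q c r a = net R ![3, 0, 4, 1, 5, 1, 3, 2, 4, 2, 5, 0] := by
    rw [net_sum6]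
    simp only [T3, Matrix.cons_val, Finset.sum_mul, Finset.mul_sum, mul_assoc]
  rw [e, net_eval hR (c := 12) (v := 0) (d0 := 2) (d1 := 6) (d2 := 5) (σ := ![3, 0, 1, 4, 2, 5]) (by decide)]
  simp only [d4s, vals, Matrix.cons_val]
  push_cast
  ring

theorem n_JJJ8 (hR : IsCurv R) : ∑ a, ∑ b, ∑ c, ∑ p, ∑ q, ∑ r, R p a q b * R r b p c * R r c q a = (I7 R / 4) := by
  have e : ∑ a, ∑ b, ∑ c, ∑ p, ∑ q, ∑ r, R p a q b * R r b p c * R r c q a = net R ![3, 0, 4, 1, 5, 1, 3, 2, 5, 2, 4, 0] := by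
    rw [net_sum6]
    simp only [T3, Matrix.cons_val, Finset.sum_mul, Finset.mul_sum, mul_assoc]
  rw [e, net_eval hR (c := 10) (v := 1) (d0 := 1) (d1 := 7) (d2 := 6) (σ := ![0, 3, 4, 1, 2, 5]) (by decide)]
  simp only [d4s, vals, Matrix.cons_val]
  push_cast
  ring

theorem n_JJJ9 (hR : IsCurv R) : ∑ a, ∑ b, ∑ c, ∑ p, ∑ q, ∑ r, R p a q b * R q b r c * R p c r a = (I7 R / 2) := by
  have e : ∑ a, ∑ b, ∑ c, ∑ p, ∑ q, ∑ r, R p a q b * R q b r c * R p c r a = net R ![3, 0, 4, 1, 4, 1, 5, 2, 3, 2, 5, 0] := by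
    rw [net_sum6]
    simp only [T3, Matrix.cons_val, Finset.sum_mul, Finset.mul_sum, mul_assoc]
  rw [e, net_eval hR (c := 9) (v := 0) (d0 := 4) (d1 := 2) (d2 := 2) (σ := ![4, 1, 3, 0, 2, 5]) (by decide)]
  simp only [d4s, vals, Matrix.cons_val]
  push_cast
  ring

theorem n_JJJ10 (hR : IsCurv R) : ∑ a, ∑ b, ∑ c, ∑ p, ∑ q, ∑ r, R p a q b * R r b q c * R p c r a = (I7 R / 4) := by
  have e : ∑ a, ∑ b, ∑ c, ∑ p, ∑ q, ∑ r, R p a q b * R r b q c * R p c r a = net R ![3, 0, 4, 1, 5, 1, 4, 2, 3, 2, 5, 0] := by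
    rw [net_sum6]
    simp only [T3, Matrix.cons_val, Finset.sum_mul, Finset.mul_sum, mul_assoc]
  rw [e, net_eval hR (c := 10) (v := 2) (d0 := 1) (d1 := 7) (d2 := 6) (σ := ![1, 5, 4, 2, 0, 3]) (by decide)]
  simp only [d4s, vals, Matrix.cons_val]
  push_cast
  ring

theorem n_JJJ11 (hR : IsCurv R) : ∑ a, ∑ b, ∑ c, ∑ p, ∑ q, ∑ r, R p a q b * R r b r c * R p c q a = (I6 R / 2) := by
  have e : ∑ a, ∑ b, ∑ c, ∑ p, ∑ q, ∑ r, R p a q b * R r b r c * R p c q a = net R ![3, 0, 4, 1, 5, 1, 5, 2, 3, 2, 4, 0] := by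
    rw [net_sum6]
    simp only [T3, Matrix.cons_val, Finset.sum_mul, Finset.mul_sum, mul_assoc]
  rw [e, net_eval hR (c := 7) (v := 2) (d0 := 0) (d1 := 5) (d2 := 1) (σ := ![5, 1, 2, 4, 3, 0]) (by decide)]
  simp only [d4s, vals, Matrix.cons_val]
  push_cast
  ring

theorem n_JJJ12 (hR : IsCurv R) : ∑ a, ∑ b, ∑ c, ∑ p, ∑ q, ∑ r, R p a q b * R q b r c * R r c p a = (I7 R) := by
  have e : ∑ a, ∑ b, ∑ c, ∑ p, ∑ q, ∑ r, R p a q b * R q b r c * R r c p a = net R ![3, 0, 4, 1, 4, 1, 5, 2, 5, 2, 3, 0] := by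
    rw [net_sum6]
    simp only [T3, Matrix.cons_val, Finset.sum_mul, Finset.mul_sum, mul_assoc]
  rw [e, net_eval hR (c := 8) (v := 0) (d0 := 4) (d1 := 0) (d2 := 4) (σ := ![4, 1, 3, 0, 5, 2]) (by decide)]
  simp only [d4s, vals, Matrix.cons_val]
  push_cast
  ring

theorem n_JJJ13 (hR : IsCurv R) : ∑ a, ∑ b, ∑ c, ∑ p, ∑ q, ∑ r, R p a q b * R r b q c * R r c p a = (I7 R / 2) := by
  have e : ∑ a, ∑ b, ∑ c, ∑ p, ∑ q, ∑ r, R p a q b * R r b q c * R r c p a = net R ![3, 0, 4, 1, 5, 1, 4, 2, 5, 2, 3, 0] := by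
    rw [net_sum6]
    simp only [T3, Matrix.cons_val, Finset.sum_mul, Finset.mul_sum, mul_assoc]
  rw [e, net_eval hR (c := 9) (v := 1) (d0 := 0) (d1 := 6) (d2 := 6) (σ := ![3, 0, 4, 1, 2, 5]) (by decide)]
  simp only [d4s, vals, Matrix.cons_val]
  push_cast
  ring

theorem n_JJJ14 (hR : IsCurv R) : ∑ a, ∑ b, ∑ c, ∑ p, ∑ q, ∑ r, R p a q b * R r b r c * R q c p a = (I6 R) := by
  have e : ∑ a, ∑ b, ∑ c, ∑ p, ∑ q, ∑ r, R p a q b * R r b r c * R q c p a = net R ![3, 0, 4, 1, 5, 1, 5, 2, 4, 2, 3, 0] := by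
    rw [net_sum6]
    simp only [T3, Matrix.cons_val, Finset.sum_mul, Finset.mul_sum, mul_assoc]
  rw [e, net_eval hR (c := 6) (v := 2) (d0 := 0) (d1 := 5) (d2 := 1) (σ := ![5, 1, 2, 4, 3, 0]) (by decide)]
  simp only [d4s, vals, Matrix.cons_val]
  push_cast
  ring

theorem av_JJJ (hR : IsCurv R) : D.av (mJJJ R) = (1/480) * (I4 R) + (3/320) * (I6 R) + (7/960) * (I7 R) + (-1/480) * (I8 R) := by
  have h : D.av (mJJJ R) = ∑ a, ∑ b, ∑ c, D.av (fun x => qf (fun p q => R p a q b) x * qf (fun p q => R p b q c) x * qf (fun p q => R p c q a) x) := by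
    simp only [← av_sum]
    rfl

  rw [h]
  simp (maxSteps := 2000000) only [quad3, c480, Finset.sum_add_distrib]
  rw [n_JJJ0 hR, n_JJJ1 hR, n_JJJ2 hR, n_JJJ3 hR, n_JJJ4 hR, n_JJJ5 hR, n_JJJ6 hR, n_JJJ7 hR, n_JJJ8 hR, n_JJJ9 hR, n_JJJ10 hR, n_JJJ11 hR, n_JJJ12 hR, n_JJJ13 hR, n_JJJ14 hR]
  all_goals ring

theorem n_JJR0 (hR : IsCurv R) : ∑ a, ∑ b, ∑ c, ∑ p, ∑ q, R p a p b * R q b q c * Rc R c a = (-1) * (- I4 R) := by
  have e : ∑ a, ∑ b, ∑ c, ∑ p, ∑ q, R p a p b * R q b q c * Rc R c a = net R ![3, 0, 3, 1, 4, 1, 4, 2, 2, 5, 0, 5] := by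
    rw [net_sum6]
    simp only [T3, Matrix.cons_val, Rc, Finset.sum_mul, Finset.mul_sum, mul_assoc]
  rw [e, net_eval hR (c := 5) (v := 0) (d0 := 4) (d1 := 1) (d2 := 4) (σ := ![3, 1, 0, 4, 2, 5]) (by decide)]
  simp only [d4s, vals, Matrix.cons_val]
  push_cast
  ring

theorem n_JJR1 (hR : IsCurv R) : ∑ a, ∑ b, ∑ c, ∑ p, ∑ q, R p a q b * R p b q c * Rc R c a = (I6 R / 2) := by
  have e : ∑ a, ∑ b, ∑ c, ∑ p, ∑ q, R p a q b * R p b q c * Rc R c a = net R ![3, 0, 4, 1, 3, 1, 4, 2, 2, 5, 0, 5] := by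
    rw [net_sum6]
    simp only [T3, Matrix.cons_val, Rc, Finset.sum_mul, Finset.mul_sum, mul_assoc]
  rw [e, net_eval hR (c := 7) (v := 4) (d0 := 7) (d1 := 1) (d2 := 5) (σ := ![5, 0, 2, 3, 4, 1]) (by decide)]
  simp only [d4s, vals, Matrix.cons_val]
  push_cast
  ring

theorem n_JJR2 (hR : IsCurv R) : ∑ a, ∑ b, ∑ c, ∑ p, ∑ q, R p a q b * R q b p c * Rc R c a = (I6 R) := by
  have e : ∑ a, ∑ b, ∑ c, ∑ p, ∑ q, R p a q b * R q b p c * Rc R c a = net R ![3, 0, 4, 1, 4, 1, 3, 2, 2, 5, 0, 5] := by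
    rw [net_sum6]
    simp only [T3, Matrix.cons_val, Rc, Finset.sum_mul, Finset.mul_sum, mul_assoc]
  rw [e, net_eval hR (c := 6) (v := 4) (d0 := 7) (d1 := 1) (d2 := 5) (σ := ![5, 0, 2, 3, 4, 1]) (by decide)]
  simp only [d4s, vals, Matrix.cons_val]
  push_cast
  ring

theorem av_JJR (hR : IsCurv R) : D.av (mJJR R) = (1/48) * (I4 R) + (1/32) * (I6 R) := by
  have h : D.av (mJJR R) = ∑ a, ∑ b, ∑ c, D.av (fun x => qf (fun p q => R p a q b) x * qf (fun p q => R p b q c) x * (Rc R c a)) := by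
    simp only [← av_sum]
    rfl

  rw [h]
  simp (maxSteps := 2000000) only [quad2Y, c48, Finset.sum_add_distrib]
  rw [n_JJR0 hR, n_JJR1 hR, n_JJR2 hR]
  all_goals ring

theorem n_JRR0 (hR : IsCurv R) : ∑ a, ∑ b, ∑ c, ∑ p, R p a p b * (Rc R b c * Rc R c a) = (-1) * (- I4 R) := by
  have e : ∑ a, ∑ b, ∑ c, ∑ p, R p a p b * (Rc R b c * Rc R c a) = net R ![3, 0, 3, 1, 1, 5, 2, 5, 2, 4, 0, 4] := by
    rw [net_sum6]
    simp only [T3, Matrix.cons_val, Rc, Finset.sum_mul, Finset.mul_sum, mul_assoc]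
  rw [e, net_eval hR (c := 5) (v := 0) (d0 := 4) (d1 := 2) (d2 := 4) (σ := ![3, 1, 0, 5, 2, 4]) (by decide)]
  simp only [d4s, vals, Matrix.cons_val]
  push_cast
  ring

theorem av_JRR (hR : IsCurv R) : D.av (mJRR R) = (1/6) * (I4 R) := by
  have h : D.av (mJRR R) = ∑ a, ∑ b, ∑ c, D.av (fun x => qf (fun p q => R p a q b) x * (Rc R b c * Rc R c a)) := by
    simp only [← av_sum]
    refine congrArg D.av (funext fun x => ?_)
    simp only [← mul_assoc]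
    rfl

  rw [h]
  simp (maxSteps := 2000000) only [quad1Y, c6, Finset.sum_add_distrib]
  rw [n_JRR0 hR]
  all_goals ring

theorem n_Juu0 (hR : IsCurv R) : ∑ a, ∑ b, ∑ p, ∑ q, R p a p b * (Rc R a q * Rc R b q) = (-1) * (- I4 R) := by
  have e : ∑ a, ∑ b, ∑ p, ∑ q, R p a p b * (Rc R a q * Rc R b q) = net R ![2, 0, 2, 1, 0, 5, 3, 5, 1, 4, 3, 4] := by
    rw [net_sum6]
    simp only [T3, Matrix.cons_val, Rc, Finset.sum_mul, Finset.mul_sum, mul_assoc]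
  rw [e, net_eval hR (c := 5) (v := 0) (d0 := 0) (d1 := 2) (d2 := 0) (σ := ![2, 0, 1, 5, 3, 4]) (by decide)]
  simp only [d4s, vals, Matrix.cons_val]
  push_cast
  ring

theorem n_Juu1 (hR : IsCurv R) : ∑ a, ∑ b, ∑ p, ∑ q, R p a q b * (Rc R a p * Rc R b q) = 0 := by
  have e : ∑ a, ∑ b, ∑ p, ∑ q, R p a q b * (Rc R a p * Rc R b q) = net R ![2, 0, 3, 1, 0, 5, 2, 5, 1, 4, 3, 4] := by
    rw [net_sum6]
    simp only [T3, Matrix.cons_val, Rc, Finset.sum_mul, Finset.mul_sum, mul_assoc]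
  rw [e]
  exact net_zero hR (v := 0) (d0 := 1) (d1 := 4) (d2 := 0) (σ := ![2, 1, 0, 3, 4, 5]) (by decide) (by decide)

theorem n_Juu2 (hR : IsCurv R) : ∑ a, ∑ b, ∑ p, ∑ q, R p a q b * (Rc R a q * Rc R b p) = (-1) * (I5 R) := by
  have e : ∑ a, ∑ b, ∑ p, ∑ q, R p a q b * (Rc R a q * Rc R b p) = net R ![2, 0, 3, 1, 0, 5, 3, 5, 1, 4, 2, 4] := by
    rw [net_sum6]
    simp only [T3, Matrix.cons_val, Rc, Finset.sum_mul, Finset.mul_sum, mul_assoc]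
  rw [e, net_eval hR (c := 4) (v := 2) (d0 := 3) (d1 := 1) (d2 := 4) (σ := ![5, 0, 3, 2, 1, 4]) (by decide)]
  simp only [d4s, vals, Matrix.cons_val]
  push_cast
  ring

theorem av_Juu (hR : IsCurv R) : D.av (mJuu R) = (1/48) * (I4 R) + (-1/48) * (I5 R) := by
  have h : D.av (mJuu R) = ∑ a, ∑ b, D.av (fun x => qf (fun p q => R p a q b) x * qf (fun p q => Rc R a p * Rc R b q) x) := by
    simp only [← av_sum]
    refine congrArg D.av (funext fun x => ?_)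
    simp only [← uu_qf]
    rfl

  rw [h]
  simp (maxSteps := 2000000) only [quad2, c48, Finset.sum_add_distrib]
  rw [n_Juu0 hR, n_Juu1 hR, n_Juu2 hR]
  all_goals ring

theorem n_juu0 (hR : IsCurv R) : ∑ a, ∑ p, ∑ q, Rc R p p * (Rc R a q * Rc R a q) = (sc R * nR R) := by
  have e : ∑ a, ∑ p, ∑ q, Rc R p p * (Rc R a q * Rc R a q) = net R ![1, 5, 1, 5, 0, 4, 2, 4, 0, 3, 2, 3] := by
    rw [net_sum6]
    simp only [T3, Matrix.cons_val, Rc, Finset.sum_mul, Finset.mul_sum, mul_assoc]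
  rw [e, net_eval hR (c := 1) (v := 0) (d0 := 0) (d1 := 3) (d2 := 0) (σ := ![1, 5, 4, 0, 2, 3]) (by decide)]
  simp only [d4s, vals, Matrix.cons_val]
  push_cast
  ring

theorem n_juu1 (hR : IsCurv R) : ∑ a, ∑ p, ∑ q, Rc R p q * (Rc R a p * Rc R a q) = (-1) * (- I4 R) := by
  have e : ∑ a, ∑ p, ∑ q, Rc R p q * (Rc R a p * Rc R a q) = net R ![1, 5, 2, 5, 0, 4, 1, 4, 0, 3, 2, 3] := by
    rw [net_sum6]
    simp only [T3, Matrix.cons_val, Rc, Finset.sum_mul, Finset.mul_sum, mul_assoc]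
  rw [e, net_eval hR (c := 5) (v := 0) (d0 := 3) (d1 := 6) (d2 := 4) (σ := ![5, 1, 2, 4, 0, 3]) (by decide)]
  simp only [d4s, vals, Matrix.cons_val]
  push_cast
  ring

theorem n_juu2 (hR : IsCurv R) : ∑ a, ∑ p, ∑ q, Rc R p q * (Rc R a q * Rc R a p) = (-1) * (- I4 R) := by
  have e : ∑ a, ∑ p, ∑ q, Rc R p q * (Rc R a q * Rc R a p) = net R ![1, 5, 2, 5, 0, 4, 2, 4, 0, 3, 1, 3] := by
    rw [net_sum6]
    simp only [T3, Matrix.cons_val, Rc, Finset.sum_mul, Finset.mul_sum, mul_assoc]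
  rw [e, net_eval hR (c := 5) (v := 0) (d0 := 7) (d1 := 6) (d2 := 4) (σ := ![5, 2, 1, 4, 0, 3]) (by decide)]
  simp only [d4s, vals, Matrix.cons_val]
  push_cast
  ring

theorem av_juu (hR : IsCurv R) : D.av (fun x => jx R x * muu R x) = (1/24) * (I4 R) + (1/48) * (sc R * nR R) := by
  have h : D.av (fun x => jx R x * muu R x) = ∑ a, D.av (fun x => qf (fun p q => Rc R p q) x * qf (fun p q => Rc R a p * Rc R a q) x) := by
    simp only [← av_sum]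
    refine congrArg D.av (funext fun x => ?_)
    simp only [← uu_qf, ← Finset.mul_sum]
    rfl

  rw [h]
  simp (maxSteps := 2000000) only [quad2, c48, Finset.sum_add_distrib]
  rw [n_juu0 hR, n_juu1 hR, n_juu2 hR]
  all_goals ring

theorem n_jSx0 (hR : IsCurv R) : ∑ p, ∑ q, Rc R p p * SS R q q = (sc R * nS R) := by
  have e : ∑ p, ∑ q, Rc R p p * SS R q q = net R ![0, 5, 0, 5, 1, 2, 3, 4, 1, 2, 3, 4] := by
    rw [net_sum6]
    simp only [T3, Matrix.cons_val, Rc, SS, Finset.sum_mul, Finset.mul_sum, mul_assoc]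
  rw [e, net_eval hR (c := 2) (v := 0) (d0 := 0) (d1 := 0) (d2 := 0) (σ := ![0, 5, 1, 2, 3, 4]) (by decide)]
  simp only [d4s, vals, Matrix.cons_val]
  push_cast
  ring

theorem n_jSx1 (hR : IsCurv R) : ∑ p, ∑ q, Rc R p q * SS R p q = (I6 R) := by
  have e : ∑ p, ∑ q, Rc R p q * SS R p q = net R ![0, 5, 1, 5, 0, 2, 3, 4, 1, 2, 3, 4] := by
    rw [net_sum6]
    simp only [T3, Matrix.cons_val, Rc, SS, Finset.sum_mul, Finset.mul_sum, mul_assoc]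
  rw [e, net_eval hR (c := 6) (v := 0) (d0 := 3) (d1 := 0) (d2 := 0) (σ := ![5, 0, 1, 2, 3, 4]) (by decide)]
  simp only [d4s, vals, Matrix.cons_val]
  push_cast
  ring

theorem n_jSx2 (hR : IsCurv R) : ∑ p, ∑ q, Rc R p q * SS R q p = (I6 R) := by
  have e : ∑ p, ∑ q, Rc R p q * SS R q p = net R ![0, 5, 1, 5, 1, 2, 3, 4, 0, 2, 3, 4] := by
    rw [net_sum6]
    simp only [T3, Matrix.cons_val, Rc, SS, Finset.sum_mul, Finset.mul_sum, mul_assoc]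
  rw [e, net_eval hR (c := 6) (v := 0) (d0 := 7) (d1 := 0) (d2 := 0) (σ := ![5, 1, 0, 2, 3, 4]) (by decide)]
  simp only [d4s, vals, Matrix.cons_val]
  push_cast
  ring

theorem av_jSx (hR : IsCurv R) : D.av (fun x => jx R x * mSx R x) = (1/24) * (I6 R) + (1/48) * (sc R * nS R) := by
  have h : D.av (fun x => jx R x * mSx R x) = D.av (fun x => qf (fun p q => Rc R p q) x * qf (fun p q => SS R p q) x) := by
    rfl

  rw [h]
  simp (maxSteps := 2000000) only [quad2]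
  rw [n_jSx0 hR, n_jSx1 hR, n_jSx2 hR]
  all_goals ring

theorem n_JSS0 (hR : IsCurv R) : ∑ a, ∑ b, ∑ p, R p a p b * SS R a b = (I6 R) := by
  have e : ∑ a, ∑ b, ∑ p, R p a p b * SS R a b = net R ![2, 0, 2, 1, 0, 3, 4, 5, 1, 3, 4, 5] := by
    rw [net_sum6]
    simp only [T3, Matrix.cons_val, SS, Finset.sum_mul, Finset.mul_sum, mul_assoc]
  rw [e, net_eval hR (c := 6) (v := 0) (d0 := 0) (d1 := 0) (d2 := 0) (σ := ![2, 0, 1, 3, 4, 5]) (by decide)]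
  simp only [d4s, vals, Matrix.cons_val]
  push_cast
  ring

theorem av_JSS (hR : IsCurv R) : D.av (mJSS R) = (1/6) * (I6 R) := by
  have h : D.av (mJSS R) = ∑ a, ∑ b, D.av (fun x => qf (fun p q => R p a q b) x * (SS R a b)) := by
    simp only [← av_sum]
    rfl

  rw [h]
  simp (maxSteps := 2000000) only [quad1Y, c6, Finset.sum_add_distrib]
  rw [n_JSS0 hR]
  all_goals ring

theorem n_JH10 (hR : IsCurv R) : ∑ a, ∑ b, ∑ p, ∑ q, R p a p b * (∑ d, ∑ e, R q a d e * R q b d e) = (I6 R) := by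
  have e : ∑ a, ∑ b, ∑ p, ∑ q, R p a p b * (∑ d, ∑ e, R q a d e * R q b d e) = net R ![2, 0, 2, 1, 3, 0, 4, 5, 3, 1, 4, 5] := by
    rw [net_sum6]
    simp only [T3, Matrix.cons_val, Finset.sum_mul, Finset.mul_sum, mul_assoc]
  rw [e, net_eval hR (c := 6) (v := 0) (d0 := 0) (d1 := 1) (d2 := 1) (σ := ![2, 0, 1, 3, 4, 5]) (by decide)]
  simp only [d4s, vals, Matrix.cons_val]
  push_cast
  ring

theorem n_JH11 (hR : IsCurv R) : ∑ a, ∑ b, ∑ p, ∑ q, R p a q b * (∑ d, ∑ e, R p a d e * R q b d e) = (I7 R) := by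
  have e : ∑ a, ∑ b, ∑ p, ∑ q, R p a q b * (∑ d, ∑ e, R p a d e * R q b d e) = net R ![2, 0, 3, 1, 2, 0, 4, 5, 3, 1, 4, 5] := by
    rw [net_sum6]
    simp only [T3, Matrix.cons_val, Finset.sum_mul, Finset.mul_sum, mul_assoc]
  rw [e, net_eval hR (c := 8) (v := 0) (d0 := 0) (d1 := 0) (d2 := 0) (σ := ![2, 0, 3, 1, 4, 5]) (by decide)]
  simp only [d4s, vals, Matrix.cons_val]
  push_cast
  ring

theorem n_JH12 (hR : IsCurv R) : ∑ a, ∑ b, ∑ p, ∑ q, R p a q b * (∑ d, ∑ e, R q a d e * R p b d e) = (I7 R / 2) := by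
  have e : ∑ a, ∑ b, ∑ p, ∑ q, R p a q b * (∑ d, ∑ e, R q a d e * R p b d e) = net R ![2, 0, 3, 1, 3, 0, 4, 5, 2, 1, 4, 5] := by
    rw [net_sum6]
    simp only [T3, Matrix.cons_val, Finset.sum_mul, Finset.mul_sum, mul_assoc]
  rw [e, net_eval hR (c := 9) (v := 3) (d0 := 4) (d1 := 6) (d2 := 6) (σ := ![4, 5, 3, 0, 1, 2]) (by decide)]
  simp only [d4s, vals, Matrix.cons_val]
  push_cast
  ring

theorem av_JH1 (hR : IsCurv R) : D.av (mJH1 R) = (1/48) * (I6 R) + (1/32) * (I7 R) := by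
  have h : D.av (mJH1 R) = ∑ a, ∑ b, D.av (fun x => qf (fun p q => R p a q b) x * qf (fun p q => ∑ d, ∑ e, R p a d e * R q b d e) x) := by
    simp only [← av_sum]
    rfl

  rw [h]
  simp (maxSteps := 2000000) only [quad2, c48, Finset.sum_add_distrib]
  rw [n_JH10 hR, n_JH11 hR, n_JH12 hR]
  all_goals ring

theorem n_JH20 (hR : IsCurv R) : ∑ a, ∑ b, ∑ p, ∑ q, R p a p b * (∑ c, ∑ e, R a c q e * R b c q e) = (I6 R) := by
  have e : ∑ a, ∑ b, ∑ p, ∑ q, R p a p b * (∑ c, ∑ e, R a c q e * R b c q e) = net R ![2, 0, 2, 1, 0, 4, 3, 5, 1, 4, 3, 5] := by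
    rw [net_sum6]
    simp only [T3, Matrix.cons_val, Finset.sum_mul, Finset.mul_sum, mul_assoc]
  rw [e, net_eval hR (c := 6) (v := 0) (d0 := 0) (d1 := 0) (d2 := 0) (σ := ![2, 0, 1, 4, 3, 5]) (by decide)]
  simp only [d4s, vals, Matrix.cons_val]
  push_cast
  ring

theorem n_JH21 (hR : IsCurv R) : ∑ a, ∑ b, ∑ p, ∑ q, R p a q b * (∑ c, ∑ e, R a c p e * R b c q e) = (I7 R / 4) := by
  have e : ∑ a, ∑ b, ∑ p, ∑ q, R p a q b * (∑ c, ∑ e, R a c p e * R b c q e) = net R ![2, 0, 3, 1, 0, 4, 2, 5, 1, 4, 3, 5] := by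
    rw [net_sum6]
    simp only [T3, Matrix.cons_val, Finset.sum_mul, Finset.mul_sum, mul_assoc]
  rw [e, net_eval hR (c := 10) (v := 2) (d0 := 0) (d1 := 3) (d2 := 3) (σ := ![0, 4, 2, 5, 1, 3]) (by decide)]
  simp only [d4s, vals, Matrix.cons_val]
  push_cast
  ring

theorem n_JH22 (hR : IsCurv R) : ∑ a, ∑ b, ∑ p, ∑ q, R p a q b * (∑ c, ∑ e, R a c q e * R b c p e) = (-1) * (I8 R - I7 R / 4) := by
  have e : ∑ a, ∑ b, ∑ p, ∑ q, R p a q b * (∑ c, ∑ e, R a c q e * R b c p e) = net R ![2, 0, 3, 1, 0, 4, 3, 5, 1, 4, 2, 5] := by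
    rw [net_sum6]
    simp only [T3, Matrix.cons_val, Finset.sum_mul, Finset.mul_sum, mul_assoc]
  rw [e, net_eval hR (c := 12) (v := 0) (d0 := 1) (d1 := 0) (d2 := 4) (σ := ![0, 2, 3, 1, 4, 5]) (by decide)]
  simp only [d4s, vals, Matrix.cons_val]
  push_cast
  ring

theorem av_JH2 (hR : IsCurv R) : D.av (mJH2 R) = (1/48) * (I6 R) + (1/96) * (I7 R) + (-1/48) * (I8 R) := by
  have h : D.av (mJH2 R) = ∑ a, ∑ b, D.av (fun x => qf (fun p q => R p a q b) x * qf (fun p q => ∑ c, ∑ e, R a c p e * R b c q e) x) := by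
    simp only [← av_sum]
    rfl

  rw [h]
  simp (maxSteps := 2000000) only [quad2, c48, Finset.sum_add_distrib]
  rw [n_JH20 hR, n_JH21 hR, n_JH22 hR]
  all_goals ring

theorem n_JSR0 (hR : IsCurv R) : ∑ a, ∑ b, ∑ p, R p a p b * (∑ c, ∑ d, R a c b d * Rc R c d) = (I5 R) := by
  have e : ∑ a, ∑ b, ∑ p, R p a p b * (∑ c, ∑ d, R a c b d * Rc R c d) = net R ![2, 0, 2, 1, 0, 3, 1, 4, 3, 5, 4, 5] := by
    rw [net_sum6]
    simp only [T3, Matrix.cons_val, Rc, Finset.sum_mul, Finset.mul_sum, mul_assoc]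
  rw [e, net_eval hR (c := 4) (v := 0) (d0 := 0) (d1 := 0) (d2 := 0) (σ := ![2, 0, 1, 3, 4, 5]) (by decide)]
  simp only [d4s, vals, Matrix.cons_val]
  push_cast
  ring

theorem av_JSR (hR : IsCurv R) : D.av (mJSR R) = (1/6) * (I5 R) := by
  have h : D.av (mJSR R) = ∑ a, ∑ b, D.av (fun x => qf (fun p q => R p a q b) x * (∑ c, ∑ d, R a c b d * Rc R c d)) := by
    simp only [← av_sum]
    rfl

  rw [h]
  simp (maxSteps := 2000000) only [quad1Y, c6, Finset.sum_add_distrib]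
  rw [n_JSR0 hR]
  all_goals ring

theorem n_JSJ0 (hR : IsCurv R) : ∑ a, ∑ b, ∑ c, ∑ d, ∑ p, ∑ q, R p a p b * R q c q d * R a c b d = (I5 R) := by
  have e : ∑ a, ∑ b, ∑ c, ∑ d, ∑ p, ∑ q, R p a p b * R q c q d * R a c b d = net R ![4, 0, 4, 1, 5, 2, 5, 3, 0, 2, 1, 3] := by
    rw [net_sum6]
    simp only [T3, Matrix.cons_val, Finset.sum_mul, Finset.mul_sum, mul_assoc]
  rw [e, net_eval hR (c := 4) (v := 1) (d0 := 0) (d1 := 0) (d2 := 3) (σ := ![4, 0, 1, 2, 3, 5]) (by decide)]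
  simp only [d4s, vals, Matrix.cons_val]
  push_cast
  ring

theorem n_JSJ1 (hR : IsCurv R) : ∑ a, ∑ b, ∑ c, ∑ d, ∑ p, ∑ q, R p a q b * R p c q d * R a c b d = (I8 R) := by
  have e : ∑ a, ∑ b, ∑ c, ∑ d, ∑ p, ∑ q, R p a q b * R p c q d * R a c b d = net R ![4, 0, 5, 1, 4, 2, 5, 3, 0, 2, 1, 3] := by
    rw [net_sum6]
    simp only [T3, Matrix.cons_val, Finset.sum_mul, Finset.mul_sum, mul_assoc]
  rw [e, net_eval hR (c := 11) (v := 0) (d0 := 0) (d1 := 0) (d2 := 0) (σ := ![4, 0, 5, 1, 2, 3]) (by decide)]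
  simp only [d4s, vals, Matrix.cons_val]
  push_cast
  ring

theorem n_JSJ2 (hR : IsCurv R) : ∑ a, ∑ b, ∑ c, ∑ d, ∑ p, ∑ q, R p a q b * R q c p d * R a c b d = (I8 R - I7 R / 4) := by
  have e : ∑ a, ∑ b, ∑ c, ∑ d, ∑ p, ∑ q, R p a q b * R q c p d * R a c b d = net R ![4, 0, 5, 1, 5, 2, 4, 3, 0, 2, 1, 3] := by
    rw [net_sum6]
    simp only [T3, Matrix.cons_val, Finset.sum_mul, Finset.mul_sum, mul_assoc]
  rw [e, net_eval hR (c := 12) (v := 0) (d0 := 0) (d1 := 4) (d2 := 0) (σ := ![4, 0, 5, 1, 3, 2]) (by decide)]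
  simp only [d4s, vals, Matrix.cons_val]
  push_cast
  ring

theorem av_JSJ (hR : IsCurv R) : D.av (mJSJ R) = (1/48) * (I5 R) + (-1/192) * (I7 R) + (1/24) * (I8 R) := by
  have h : D.av (mJSJ R) = ∑ a, ∑ b, ∑ c, ∑ d, D.av (fun x => qf (fun p q => R p a q b) x * qf (fun p q => R p c q d) x * (R a c b d)) := by
    simp only [← av_sum]
    rfl

  rw [h]
  simp (maxSteps := 2000000) only [quad2Y, c48, Finset.sum_add_distrib]
  rw [n_JSJ0 hR, n_JSJ1 hR, n_JSJ2 hR]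
  all_goals ring

theorem n_JSu0 (hR : IsCurv R) : ∑ a, ∑ b, ∑ p, ∑ q, R p a p b * (∑ d, R a q b d * Rc R d q) = (I5 R) := by
  have e : ∑ a, ∑ b, ∑ p, ∑ q, R p a p b * (∑ d, R a q b d * Rc R d q) = net R ![2, 0, 2, 1, 0, 3, 1, 4, 4, 5, 3, 5] := by
    rw [net_sum6]
    simp only [T3, Matrix.cons_val, Rc, Finset.sum_mul, Finset.mul_sum, mul_assoc]
  rw [e, net_eval hR (c := 4) (v := 0) (d0 := 0) (d1 := 0) (d2 := 4) (σ := ![2, 0, 1, 3, 4, 5]) (by decide)]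
  simp only [d4s, vals, Matrix.cons_val]
  push_cast
  ring

theorem n_JSu1 (hR : IsCurv R) : ∑ a, ∑ b, ∑ p, ∑ q, R p a q b * (∑ d, R a p b d * Rc R d q) = (I6 R) := by
  have e : ∑ a, ∑ b, ∑ p, ∑ q, R p a q b * (∑ d, R a p b d * Rc R d q) = net R ![2, 0, 3, 1, 0, 2, 1, 4, 4, 5, 3, 5] := by
    rw [net_sum6]
    simp only [T3, Matrix.cons_val, Rc, Finset.sum_mul, Finset.mul_sum, mul_assoc]
  rw [e, net_eval hR (c := 6) (v := 4) (d0 := 7) (d1 := 4) (d2 := 7) (σ := ![5, 3, 4, 1, 2, 0]) (by decide)]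
  simp only [d4s, vals, Matrix.cons_val]
  push_cast
  ring

theorem n_JSu2 (hR : IsCurv R) : ∑ a, ∑ b, ∑ p, ∑ q, R p a q b * (∑ d, R a q b d * Rc R d p) = (I6 R / 2) := by
  have e : ∑ a, ∑ b, ∑ p, ∑ q, R p a q b * (∑ d, R a q b d * Rc R d p) = net R ![2, 0, 3, 1, 0, 3, 1, 4, 4, 5, 2, 5] := by
    rw [net_sum6]
    simp only [T3, Matrix.cons_val, Rc, Finset.sum_mul, Finset.mul_sum, mul_assoc]
  rw [e, net_eval hR (c := 7) (v := 4) (d0 := 7) (d1 := 2) (d2 := 5) (σ := ![5, 2, 4, 0, 1, 3]) (by decide)]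
  simp only [d4s, vals, Matrix.cons_val]
  push_cast
  ring

theorem av_JSu (hR : IsCurv R) : D.av (mJSu R) = (1/48) * (I5 R) + (1/32) * (I6 R) := by
  have h : D.av (mJSu R) = ∑ a, ∑ b, D.av (fun x => qf (fun p q => R p a q b) x * qf (fun p q => ∑ d, R a p b d * Rc R d q) x) := by
    simp only [← av_sum]
    rfl

  rw [h]
  simp (maxSteps := 2000000) only [quad2, c48, Finset.sum_add_distrib]
  rw [n_JSu0 hR, n_JSu1 hR, n_JSu2 hR]
  all_goals ring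

end Design
end Hopf6
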