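import Pool.Agent.H933R2.Hopf.Low

/-!
# Pointwise inequalities from pinching
-/

open scoped BigOperators Matrix

namespace Hopf6

section
variable {R : Ten} (x : Fin 6 → ℝ)

/-- Jacobi operator as a matrix -/
def MJ (R : Ten) (x : Fin 6 → ℝ) : Matrix (Fin 6) (Fin 6) ℝ := Matrix.of (Jm R x)
/-- Ricci tensor as a matrix -/
def MR (R : Ten) : Matrix (Fin 6) (Fin 6) ℝ := Matrix.of (Rc R)
/-- projection as a matrix -/
def MP (x : Fin 6 → ℝ) : Matrix (Fin 6) (Fin 6) ℝ := 1 - Matrix.vecMulVec x x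

theorem Jm_symm (hR : IsCurv R) (a b : Fin 6) : Jm R x a b = Jm R x b a := by
  unfold Jm
  rw [Finset.sum_comm]
  refine Finset.sum_congr rfl fun p _ => Finset.sum_congr rfl fun q _ => ?_
  rw [hR.pair p b q a]
  ring

theorem Jm_x (hR : IsCurv R) (a : Fin 6) : ∑ b, Jm R x a b * x b = 0 := by
  unfold Jm
  have h : ∑ b, (∑ p, ∑ q, R p a q b * (x p * x q)) * x b =
      ∑ p, x p * (∑ b, ∑ q, R p a q b * x q * x b) := by
    simp only [Finset.sum_mul, Finset.mul_sum]
    rw [Finset.sum_comm]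
    refine Finset.sum_congr rfl fun p _ => Finset.sum_congr rfl fun b _ =>
      Finset.sum_congr rfl fun q _ => ?_
    ring
  rw [h]
  refine Finset.sum_eq_zero fun p _ => ?_
  have h2 : ∑ b, ∑ q, R p a q b * x q * x b = - ∑ b, ∑ q, R p a q b * x q * x b := by
    conv_lhs => rw [Finset.sum_comm]
    simp only [← Finset.sum_neg_distrib]
    refine Finset.sum_congr rfl fun b _ => Finset.sum_congr rfl fun q _ => ?_
    rw [anti' hR p a b q]
    ring
  have h3 : ∑ b, ∑ q, R p a q b * x q * x b = 0 := by linarith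
  rw [h3, mul_zero]

theorem MJ_symm (hR : IsCurv R) : (MJ R x)ᵀ = MJ R x := by
  ext a b
  exact Jm_symm x hR b a

theorem MR_symm (hR : IsCurv R) : (MR R)ᵀ = MR R := by
  ext a b
  exact Rc_symm hR b a

theorem MP_symm : (MP x)ᵀ = MP x := by
  ext a b
  simp [MP, Matrix.vecMulVec_apply, Matrix.one_apply, eq_comm, mul_comm]

theorem MJ_MP (hR : IsCurv R) : MJ R x * MP x = MJ R x := by
  unfold MP
  rw [Matrix.mul_sub, Matrix.mul_one, sub_eq_self]
  ext a b
  simp only [Matrix.mul_apply, Matrix.vecMulVec_apply, MJ, Matrix.of_apply, Matrix.zero_apply]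
  have := Jm_x x hR a
  calc ∑ j, Jm R x a j * (x j * x b) = (∑ j, Jm R x a j * x j) * x b := by
        rw [Finset.sum_mul]
        exact Finset.sum_congr rfl fun j _ => by ring
    _ = 0 := by rw [this, zero_mul]

theorem MP_MJ (hR : IsCurv R) : MP x * MJ R x = MJ R x := by
  have h := congrArg Matrix.transpose (MJ_MP x hR)
  rwa [Matrix.transpose_mul, MP_symm, MJ_symm x hR] at h

theorem MP_MP (hx : ∑ a, x a ^ 2 = 1) : MP x * MP x = MP x := by
  unfold MP
  rw [Matrix.mul_sub, Matrix.mul_one, sub_eq_self, Matrix.sub_mul, Matrix.one_mul, sub_eq_zero]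
  ext a b
  simp only [Matrix.mul_apply, Matrix.vecMulVec_apply]
  calc x a * x b = x a * x b * ∑ j, x j ^ 2 := by rw [hx, mul_one]
    _ = _ := by
      rw [Finset.mul_sum]
      exact Finset.sum_congr rfl fun j _ => by ring

theorem quad_J (R : Ten) (x y : Fin 6 → ℝ) :
    quad R x y = ∑ a, ∑ b, Jm R x a b * (y a * y b) := by
  unfold quad Jm
  simp only [Finset.sum_mul]
  rw [Finset.sum_comm]
  refine Finset.sum_congr rfl fun b _ => ?_
  have h1 : ∀ p, ∑ c, ∑ d, R p b c d * x p * y b * x c * y d =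
    ∑ d, ∑ c, R p b c d * x p * y b * x c * y d := fun p => Finset.sum_comm
  simp only [h1]
  rw [Finset.sum_comm]
  refine Finset.sum_congr rfl fun d _ => Finset.sum_congr rfl fun p _ =>
    Finset.sum_congr rfl fun c _ => ?_
  ring

/-- the sum of `quad R x` over the rows of a symmetric matrix -/
theorem sum_quad (R : Ten) (x : Fin 6 → ℝ) {P : Matrix (Fin 6) (Fin 6) ℝ} (hP : Pᵀ = P) :
    ∑ i, quad R x (P i) = (P * MJ R x * P).trace := by
  simp only [Matrix.trace, Matrix.diag_apply, Matrix.mul_apply, quad_J]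
  refine Finset.sum_congr rfl fun i _ => ?_
  simp only [Finset.sum_mul]
  rw [Finset.sum_comm]
  refine Finset.sum_congr rfl fun b _ => Finset.sum_congr rfl fun a _ => ?_
  have : P b i = P i b := by
    conv_lhs => rw [← hP]
    rfl
  rw [this]
  simp only [MJ, Matrix.of_apply]
  ring

theorem sum_area (x : Fin 6 → ℝ) (hx : ∑ a, x a ^ 2 = 1) {P : Matrix (Fin 6) (Fin 6) ℝ}
    (hP : Pᵀ = P) (hPx : P * MP x = P) : ∑ i, area2 x (P i) = (P * P).trace := by
  have h0 : ∀ i, ∑ a, x a * P i a = 0 := by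
    intro i
    have h1 : P * Matrix.vecMulVec x x = 0 := by
      have h2 := hPx
      unfold MP at h2
      rw [Matrix.mul_sub, Matrix.mul_one, sub_eq_self] at h2
      exact h2
    have h3 : ∀ b, (∑ a, x a * P i a) * x b = 0 := by
      intro b
      have h4 := congrFun (congrFun h1 i) b
      simp only [Matrix.mul_apply, Matrix.vecMulVec_apply, Matrix.zero_apply] at h4
      rw [← h4, Finset.sum_mul]
      exact Finset.sum_congr rfl fun j _ => by ring
    calc ∑ a, x a * P i a = (∑ a, x a * P i a) * ∑ b, x b ^ 2 := by rw [hx, mul_one]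
      _ = ∑ b, ((∑ a, x a * P i a) * x b) * x b := by
        rw [Finset.mul_sum]
        exact Finset.sum_congr rfl fun j _ => by ring
      _ = 0 := by
        simp only [h3, zero_mul, Finset.sum_const_zero]
  simp only [Matrix.trace, Matrix.diag_apply, Matrix.mul_apply, area2, hx, h0]
  refine Finset.sum_congr rfl fun i _ => ?_
  rw [one_mul, zero_pow two_ne_zero, sub_zero]
  refine Finset.sum_congr rfl fun a _ => ?_
  have : P a i = P i a := by
    conv_lhs => rw [← hP]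
    rfl
  rw [this]
  ring

end

/-! ### traces -/

section
variable {R : Ten} {x : Fin 6 → ℝ}

theorem tr_mul2 (A B : Matrix (Fin 6) (Fin 6) ℝ) :
    (A * B).trace = ∑ a, ∑ b, A a b * B b a := by
  simp only [Matrix.trace, Matrix.diag_apply, Matrix.mul_apply]

theorem tr_mul3 (A B C : Matrix (Fin 6) (Fin 6) ℝ) :
    (A * B * C).trace = ∑ a, ∑ b, ∑ c, A a b * B b c * C c a := by
  simp only [Matrix.trace, Matrix.diag_apply, Matrix.mul_apply, Finset.sum_mul]
  exact Finset.sum_congr rfl fun a _ => Finset.sum_comm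

theorem tr_MJ : (MJ R x).trace = jx R x := by
  simp only [Matrix.trace, Matrix.diag_apply, MJ, Matrix.of_apply, Jm, jx]
  rw [Finset.sum_comm]
  refine Finset.sum_congr rfl fun p _ => ?_
  rw [Finset.sum_comm]
  refine Finset.sum_congr rfl fun q _ => ?_
  unfold Rc
  rw [Finset.sum_mul]

theorem tr_JJ (hR : IsCurv R) : (MJ R x * MJ R x).trace = mJJ R x := by
  rw [tr_mul2]
  refine Finset.sum_congr rfl fun a _ => Finset.sum_congr rfl fun b _ => ?_
  simp only [MJ, Matrix.of_apply]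
  rw [Jm_symm x hR b a]

theorem tr_JR (hR : IsCurv R) : (MJ R x * MR R).trace = mJR R x := by
  rw [tr_mul2]
  refine Finset.sum_congr rfl fun a _ => Finset.sum_congr rfl fun b _ => ?_
  simp only [MJ, MR, Matrix.of_apply]
  rw [Rc_symm hR b a]

theorem tr_JJJ : (MJ R x * MJ R x * MJ R x).trace = mJJJ R x := tr_mul3 _ _ _

theorem tr_JJR : (MJ R x * MJ R x * MR R).trace = mJJR R x := tr_mul3 _ _ _

theorem tr_JRR : (MJ R x * MR R * MR R).trace = mJRR R x := tr_mul3 _ _ _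

theorem tr_R : (MR R).trace = sc R := rfl

theorem tr_RR (hR : IsCurv R) : (MR R * MR R).trace = nR R := by
  rw [tr_mul2]
  refine Finset.sum_congr rfl fun a _ => Finset.sum_congr rfl fun b _ => ?_
  simp only [MR, Matrix.of_apply]
  rw [Rc_symm hR b a]

theorem tr_vec (A : Matrix (Fin 6) (Fin 6) ℝ) (y z : Fin 6 → ℝ) :
    (A * Matrix.vecMulVec y z).trace = ∑ a, ∑ b, A a b * (y b * z a) := by
  rw [tr_mul2]
  rfl

theorem tr_Rx : (MR R * Matrix.vecMulVec x x).trace = jx R x := by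
  rw [tr_vec]
  unfold jx
  refine Finset.sum_congr rfl fun a _ => Finset.sum_congr rfl fun b _ => ?_
  simp only [MR, Matrix.of_apply]
  ring

/-- `MR * x xᵀ = u xᵀ` -/
theorem MR_vec : MR R * Matrix.vecMulVec x x = Matrix.vecMulVec (ux R x) x := by
  ext a b
  simp only [Matrix.mul_apply, Matrix.vecMulVec_apply, MR, Matrix.of_apply, ux]
  rw [Finset.sum_mul]
  exact Finset.sum_congr rfl fun j _ => by ring

theorem vec_MR (hR : IsCurv R) : Matrix.vecMulVec x x * MR R = Matrix.vecMulVec x (ux R x) := by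
  ext a b
  simp only [Matrix.mul_apply, Matrix.vecMulVec_apply, MR, Matrix.of_apply, ux]
  rw [Finset.mul_sum]
  refine Finset.sum_congr rfl fun j _ => ?_
  rw [Rc_symm hR b j]
  ring

theorem tr_RRx (hR : IsCurv R) : (MR R * (MR R * Matrix.vecMulVec x x)).trace = muu R x := by
  rw [← Matrix.mul_assoc, Matrix.mul_assoc, MR_vec, tr_vec]
  have h : ∀ a b, MR R a b * (ux R x b * x a) = ux R x b * (Rc R b a * x a) := by
    intro a b
    simp only [MR, Matrix.of_apply]
    rw [Rc_symm hR a b]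
    ring
  simp only [h]
  rw [Finset.sum_comm]
  simp only [← Finset.mul_sum]
  rfl

theorem tr_RJRx (hR : IsCurv R) :
    (MR R * MJ R x * (MR R * Matrix.vecMulVec x x)).trace = mJuu R x := by
  rw [MR_vec, Matrix.mul_assoc, Matrix.trace_mul_comm, Matrix.mul_assoc]
  have h : Matrix.vecMulVec (ux R x) x * MR R = Matrix.vecMulVec (ux R x) (ux R x) := by
    ext a b
    simp only [Matrix.mul_apply, Matrix.vecMulVec_apply, MR, Matrix.of_apply]
    conv_rhs => rw [show ux R x b = ∑ p, Rc R b p * x p from rfl]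
    rw [Finset.mul_sum]
    refine Finset.sum_congr rfl fun j _ => ?_
    rw [Rc_symm hR b j]
    ring
  rw [h, tr_vec]
  refine Finset.sum_congr rfl fun a _ => Finset.sum_congr rfl fun b _ => ?_
  simp only [MJ, Matrix.of_apply]
  ring

/-- `|x|² = 1` as a trace -/
theorem tr_MP (hx : ∑ a, x a ^ 2 = 1) : (MP x).trace = 5 := by
  unfold MP
  rw [Matrix.trace_sub, Matrix.trace_one]
  have : (Matrix.vecMulVec x x).trace = 1 := by
    simp only [Matrix.trace, Matrix.diag_apply, Matrix.vecMulVec_apply]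
    rw [← hx]
    exact Finset.sum_congr rfl fun j _ => by ring
  rw [this]
  norm_num

/-- the Ricci tensor restricted to `x^⊥` -/
def MQ (R : Ten) (x : Fin 6 → ℝ) : Matrix (Fin 6) (Fin 6) ℝ := MP x * MR R * MP x

theorem tr_Sp (R : Ten) (x : Fin 6 → ℝ) : (MR R * MP x).trace = sc R - jx R x := by
  unfold MP
  rw [Matrix.mul_sub, Matrix.mul_one, Matrix.trace_sub, tr_Rx, tr_R]

theorem tr_MQ (hx : ∑ a, x a ^ 2 = 1) : (MQ R x).trace = sc R - jx R x := by
  unfold MQ
  rw [Matrix.mul_assoc, Matrix.trace_mul_comm, Matrix.mul_assoc, MP_MP x hx, tr_Sp]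

theorem tr_JQ (hR : IsCurv R) : (MJ R x * MQ R x).trace = mJR R x := by
  unfold MQ
  rw [← Matrix.mul_assoc, ← Matrix.mul_assoc, MJ_MP x hR, Matrix.trace_mul_comm,
    ← Matrix.mul_assoc, MP_MJ x hR, tr_JR hR]

theorem tr_JJQ (hR : IsCurv R) : (MJ R x * MJ R x * MQ R x).trace = mJJR R x := by
  unfold MQ
  rw [← Matrix.mul_assoc, ← Matrix.mul_assoc, Matrix.mul_assoc (MJ R x) (MJ R x) (MP x),
    MJ_MP x hR, Matrix.trace_mul_comm, ← Matrix.mul_assoc, ← Matrix.mul_assoc, MP_MJ x hR, tr_JJR]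

theorem tr_QJQ (hR : IsCurv R) (hx : ∑ a, x a ^ 2 = 1) :
    (MQ R x * MJ R x * MQ R x).trace = mJRR R x - mJuu R x := by
  have h1 : MQ R x * MJ R x * MQ R x = MP x * (MR R * MJ R x * (MR R * MP x)) := by
    unfold MQ
    have : MP x * MR R * MP x * MJ R x * (MP x * MR R * MP x) =
      MP x * MR R * (MP x * MJ R x * MP x) * MR R * MP x := by
      simp only [Matrix.mul_assoc]
    rw [this, MP_MJ x hR, MJ_MP x hR]
    simp only [Matrix.mul_assoc]
  rw [h1, Matrix.trace_mul_comm]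
  have h2 : MR R * MJ R x * (MR R * MP x) * MP x = MR R * MJ R x * (MR R * (MP x * MP x)) := by
    simp only [Matrix.mul_assoc]
  rw [h2, MP_MP x hx]
  have h3 : MR R * MJ R x * (MR R * MP x) =
      MR R * MJ R x * MR R - MR R * MJ R x * (MR R * Matrix.vecMulVec x x) := by
    unfold MP
    simp only [Matrix.mul_sub, Matrix.mul_one]
  rw [h3, Matrix.trace_sub, tr_RJRx hR]
  congr 1
  rw [Matrix.mul_assoc, Matrix.trace_mul_comm, ← tr_JRR]

theorem tr_XSX :
    (MR R * Matrix.vecMulVec x x * (MR R * Matrix.vecMulVec x x)).trace = jx R x ^ 2 := by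
  have hu : ∑ a, x a * ux R x a = jx R x := by
    unfold ux jx
    refine Finset.sum_congr rfl fun a _ => ?_
    rw [Finset.mul_sum]
    refine Finset.sum_congr rfl fun b _ => ?_
    ring
  rw [MR_vec, tr_vec, pow_two, ← hu, Finset.sum_mul_sum]
  refine Finset.sum_congr rfl fun a _ => Finset.sum_congr rfl fun b _ => ?_
  rw [Matrix.vecMulVec_apply]
  ring

theorem tr_QQ (hR : IsCurv R) (hx : ∑ a, x a ^ 2 = 1) :
    (MQ R x * MQ R x).trace = nR R - 2 * muu R x + jx R x ^ 2 := by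
  have h1 : MQ R x * MQ R x = MP x * (MR R * (MP x * MP x) * (MR R * MP x)) := by
    unfold MQ
    simp only [Matrix.mul_assoc]
  rw [h1, Matrix.trace_mul_comm, MP_MP x hx]
  have h2 : MR R * MP x * (MR R * MP x) * MP x = MR R * MP x * (MR R * (MP x * MP x)) := by
    simp only [Matrix.mul_assoc]
  rw [h2, MP_MP x hx]
  have h3 : MR R * MP x * (MR R * MP x) = MR R * MR R - MR R * (MR R * Matrix.vecMulVec x x)
      - (MR R * Matrix.vecMulVec x x * MR R
        - MR R * Matrix.vecMulVec x x * (MR R * Matrix.vecMulVec x x)) := by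
    unfold MP
    simp only [Matrix.mul_sub, Matrix.mul_one, Matrix.sub_mul]
    abel
  rw [h3, Matrix.trace_sub, Matrix.trace_sub, Matrix.trace_sub, tr_RR hR, tr_RRx hR, tr_XSX,
    Matrix.trace_mul_comm (MR R * Matrix.vecMulVec x x) (MR R), tr_RRx hR]
  ring

/-- `tr (P J P)` for `P = α π + β J + γ π Ric π` -/
def fJ (R : Ten) (x : Fin 6 → ℝ) (α β γ : ℝ) : ℝ :=
  α ^ 2 * jx R x + 2 * α * β * mJJ R x + 2 * α * γ * mJR R x + β ^ 2 * mJJJ R x
    + 2 * β * γ * mJJR R x + γ ^ 2 * (mJRR R x - mJuu R x)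

/-- `tr (P P)` for `P = α π + β J + γ π Ric π` -/
def f0 (R : Ten) (x : Fin 6 → ℝ) (α β γ : ℝ) : ℝ :=
  5 * α ^ 2 + 2 * α * β * jx R x + 2 * α * γ * (sc R - jx R x) + β ^ 2 * mJJ R x
    + 2 * β * γ * mJR R x + γ ^ 2 * (nR R - 2 * muu R x + jx R x ^ 2)

/-- `α π + β J + γ π Ric π` -/
def PM (R : Ten) (x : Fin 6 → ℝ) (α β γ : ℝ) : Matrix (Fin 6) (Fin 6) ℝ :=
  α • MP x + β • MJ R x + γ • MQ R x

theorem MQ_symm (hR : IsCurv R) : (MQ R x)ᵀ = MQ R x := by
  unfold MQ
  rw [Matrix.transpose_mul, Matrix.transpose_mul, MP_symm, MR_symm hR, Matrix.mul_assoc]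

theorem PM_symm (hR : IsCurv R) (α β γ : ℝ) : (PM R x α β γ)ᵀ = PM R x α β γ := by
  unfold PM
  rw [Matrix.transpose_add, Matrix.transpose_add, Matrix.transpose_smul, Matrix.transpose_smul,
    Matrix.transpose_smul, MP_symm, MJ_symm x hR, MQ_symm hR]

theorem MQ_MP (hx : ∑ a, x a ^ 2 = 1) : MQ R x * MP x = MQ R x := by
  unfold MQ
  rw [Matrix.mul_assoc, MP_MP x hx]

theorem MP_MQ (hx : ∑ a, x a ^ 2 = 1) : MP x * MQ R x = MQ R x := by
  unfold MQ
  rw [← Matrix.mul_assoc, ← Matrix.mul_assoc, MP_MP x hx]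

theorem PM_MP (hR : IsCurv R) (hx : ∑ a, x a ^ 2 = 1) (α β γ : ℝ) :
    PM R x α β γ * MP x = PM R x α β γ := by
  unfold PM
  rw [Matrix.add_mul, Matrix.add_mul, Matrix.smul_mul, Matrix.smul_mul, Matrix.smul_mul,
    MP_MP x hx, MJ_MP x hR, MQ_MP hx]

theorem tr_PJP (hR : IsCurv R) (hx : ∑ a, x a ^ 2 = 1) (α β γ : ℝ) :
    (PM R x α β γ * MJ R x * PM R x α β γ).trace = fJ R x α β γ := by
  have e1 : PM R x α β γ * MJ R x * PM R x α β γ =
      α ^ 2 • (MJ R x) + (α * β) • (MJ R x * MJ R x) + (α * γ) • (MJ R x * MQ R x)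
      + (α * β) • (MJ R x * MJ R x) + β ^ 2 • (MJ R x * MJ R x * MJ R x)
      + (β * γ) • (MJ R x * MJ R x * MQ R x)
      + (α * γ) • (MQ R x * MJ R x) + (β * γ) • (MQ R x * (MJ R x * MJ R x))
      + γ ^ 2 • (MQ R x * MJ R x * MQ R x) := by
    unfold PM
    simp only [Matrix.add_mul, Matrix.mul_add, Matrix.smul_mul, Matrix.mul_smul, MP_MJ x hR,
      MJ_MP x hR, Matrix.mul_assoc]
    module
  rw [e1]
  simp only [Matrix.trace_add, Matrix.trace_smul, smul_eq_mul, tr_MJ, tr_JJ hR, tr_JQ hR,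
    tr_JJJ, tr_JJQ hR, tr_QJQ hR hx, Matrix.trace_mul_comm (MQ R x) (MJ R x),
    Matrix.trace_mul_comm (MQ R x) (MJ R x * MJ R x)]
  unfold fJ
  ring

theorem tr_PP (hR : IsCurv R) (hx : ∑ a, x a ^ 2 = 1) (α β γ : ℝ) :
    (PM R x α β γ * PM R x α β γ).trace = f0 R x α β γ := by
  have e1 : PM R x α β γ * PM R x α β γ =
      α ^ 2 • (MP x) + (α * β) • (MJ R x) + (α * γ) • (MQ R x)
      + (α * β) • (MJ R x) + β ^ 2 • (MJ R x * MJ R x)
      + (β * γ) • (MJ R x * MQ R x)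
      + (α * γ) • (MQ R x) + (β * γ) • (MQ R x * MJ R x)
      + γ ^ 2 • (MQ R x * MQ R x) := by
    unfold PM
    simp only [Matrix.add_mul, Matrix.mul_add, Matrix.smul_mul, Matrix.mul_smul, MP_MJ x hR,
      MJ_MP x hR, MP_MP x hx, MP_MQ hx, MQ_MP hx]
    module
  rw [e1]
  simp only [Matrix.trace_add, Matrix.trace_smul, smul_eq_mul, tr_MJ, tr_JJ hR, tr_JQ hR,
    tr_QQ hR hx, Matrix.trace_mul_comm (MQ R x) (MJ R x), tr_MP hx, tr_MQ hx]
  unfold f0
  ring

theorem low_ineq (hR : IsCurv R) (hx : ∑ a, x a ^ 2 = 1)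
    (hl : ∀ y, area2 x y ≤ quad R x y) (α β γ : ℝ) : f0 R x α β γ ≤ fJ R x α β γ := by
  rw [← tr_PP hR hx, ← tr_PJP hR hx, ← sum_quad R x (PM_symm hR α β γ),
    ← sum_area x hx (PM_symm hR α β γ) (PM_MP hR hx α β γ)]
  exact Finset.sum_le_sum fun i _ => hl _

theorem up_ineq (hR : IsCurv R) (hx : ∑ a, x a ^ 2 = 1) {M : ℝ}
    (hu : ∀ y, quad R x y ≤ M * area2 x y) (α β γ : ℝ) : fJ R x α β γ ≤ M * f0 R x α β γ := by
  rw [← tr_PP hR hx, ← tr_PJP hR hx, ← sum_quad R x (PM_symm hR α β γ),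
    ← sum_area x hx (PM_symm hR α β γ) (PM_MP hR hx α β γ), Finset.mul_sum]
  exact Finset.sum_le_sum fun i _ => hu _

end

end Hopf6
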