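import Pool.Agent.H933R2.Hopf.Weyl

/-!
# Inequalities for nonnegative sectional curvature
-/

open scoped BigOperators Matrix

namespace Hopf6

theorem weyl_nonneg0 {R : Ten} (hR : IsCurv R) {x : Fin 6 → ℝ} (hx : ∑ a, x a ^ 2 = 1)
    (hl : ∀ y, 0 ≤ quad R x y) : 0 ≤ g221 R x := by
  obtain ⟨W, hW, hWx, htr, h1, h2⟩ := weyl_part hR hx
  have hK : ∀ y : Fin 6 → ℝ, 0 ≤ ∑ a, ∑ b, Jm R x a b * (y a * y b) := by
    intro y
    rw [← quad_J]
    exact hl y
  have hKx' : ∀ a, ∑ b, Jm R x a b * x b = 0 := Jm_x x hR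
  have hKx : ∀ b, ∑ a, Jm R x a b * x a = 0 := by
    intro b
    rw [← hKx' b]
    exact Finset.sum_congr rfl fun a _ => by rw [Jm_symm x hR a b]
  have h := weyl_ineq hW hx hWx htr (K := Jm R x) hK hKx hKx'
  have t1 : ∑ a, Jm R x a a = jx R x := by
    have := tr_MJ (R := R) (x := x)
    simpa [Matrix.trace, MJ] using this
  rw [t1] at h
  linarith

variable {R : Ten} {x : Fin 6 → ℝ}

theorem fJ_nonneg (hR : IsCurv R) (hx : ∑ a, x a ^ 2 = 1)
    (hl : ∀ y, 0 ≤ quad R x y) (α β γ : ℝ) : 0 ≤ fJ R x α β γ := by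
  rw [← tr_PJP hR hx, ← sum_quad R x (PM_symm hR α β γ)]
  exact Finset.sum_nonneg fun i _ => hl _

theorem f0_nonneg (hR : IsCurv R) (hx : ∑ a, x a ^ 2 = 1) (α β γ : ℝ) : 0 ≤ f0 R x α β γ := by
  rw [← tr_PP hR hx]
  have h : (PM R x α β γ * PM R x α β γ).trace = ∑ i, ∑ j, PM R x α β γ i j ^ 2 := by
    rw [tr_mul2]
    refine Finset.sum_congr rfl fun a _ => Finset.sum_congr rfl fun b _ => ?_
    have : PM R x α β γ b a = PM R x α β γ a b := by
      conv_lhs => rw [← PM_symm hR α β γ]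
      rfl
    rw [this, pow_two]
  rw [h]
  positivity

end Hopf6
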